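import Mathlib

/-!
An alternating choice.

Proof of `exists_alt`. Two functions `u, u' : κ' → E` are called equivalent if `u' = u ∘ π` for a
permutation `π`. Choose a representative `r u` of every class (`Quotient.out` for this setoid, or
the classical choice from the range `Set.range u` for injective `u`); for injective `u` there is
exactly one `π u` with `u = r u ∘ π u` (`r u` is injective as well). Choose `w` with `P u (w u)` for all `u`.
Put `W u := Equiv.Perm.sign (π u) • w (r u)` if `u` is injective, and `0` otherwise.
* `P u (W u)`: `h0`, or `h1 (r u) (w (r u)) (π u)`.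
* `W (u ∘ π) = sign π • W u`: if `u` is not injective, nor is `u ∘ π` and both are zero. Otherwise
  `r (u ∘ π) = r u`, `u ∘ π = r u ∘ (π u ∘ π)`, so `π (u ∘ π) = π u * π` and `Equiv.Perm.sign_mul`,
  `mul_comm`, `mul_smul`.
-/

set_option autoImplicit false

namespace Pool.Agent.AX

theorem exists_alt {κ' E V : Type*} [Fintype κ'] [DecidableEq κ'] [AddCommGroup V]
    (P : (κ' → E) → V → Prop) (h0 : ∀ u, ¬ Function.Injective u → P u 0)
    (h1 : ∀ u w (π : Equiv.Perm κ'), P u w → P (u ∘ π) (Equiv.Perm.sign π • w))
    (h : ∀ u, ∃ w, P u w) :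
    ∃ W : (κ' → E) → V, (∀ u, P u (W u)) ∧
      (∀ u (π : Equiv.Perm κ'), W (u ∘ π) = Equiv.Perm.sign π • W u) ∧
      ∀ u, ¬ Function.Injective u → W u = 0 := by
  classical
  let S : Setoid (κ' → E) :=
    { r := fun u v => ∃ π : Equiv.Perm κ', v = u ∘ π
      iseqv :=
        ⟨fun u => ⟨1, rfl⟩,
          fun {u v} ⟨π, hπ⟩ => ⟨π⁻¹, by
            rw [hπ]
            funext x
            simp [Function.comp]⟩,
          fun {u v w} ⟨π, hπ⟩ ⟨σ, hσ⟩ => ⟨π * σ, by
            rw [hσ, hπ]
            rfl⟩⟩ }
  let r : (κ' → E) → (κ' → E) := fun u => (Quotient.mk S u).out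
  have hr : ∀ u, ∃ π : Equiv.Perm κ', u = r u ∘ π := fun u => Quotient.exact (Quotient.out_eq (Quotient.mk S u))
  have hr2 : ∀ u (σ : Equiv.Perm κ'), r (u ∘ σ) = r u := by
    intro u σ
    have h2 : Quotient.mk S (u ∘ σ) = Quotient.mk S u := (Quotient.sound (s := S) ⟨σ, rfl⟩).symm
    change (Quotient.mk S (u ∘ σ)).out = (Quotient.mk S u).out
    rw [h2]
  choose π hπ using hr
  choose w hw using h
  have hinj : ∀ u, Function.Injective u → Function.Injective (r u) := by
    intro u hu
    have h2 : r u = u ∘ (π u).symm := by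
      funext x
      have := congrFun (hπ u) ((π u).symm x)
      simp only [Function.comp, Equiv.apply_symm_apply] at this ⊢
      exact this.symm
    rw [h2]
    exact hu.comp (π u).symm.injective
  refine ⟨fun u => if Function.Injective u then Equiv.Perm.sign (π u) • w (r u) else 0, ?_, ?_, ?_⟩
  · intro u
    by_cases hu : Function.Injective u
    · simp only [if_pos hu]
      have h2 := h1 (r u) (w (r u)) (π u) (hw (r u))
      rwa [← hπ u] at h2
    · simp only [if_neg hu]
      exact h0 u hu
  · intro u σ
    by_cases hu : Function.Injective u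
    · have hu' : Function.Injective (u ∘ σ) := hu.comp σ.injective
      have h3 : π (u ∘ σ) = π u * σ := by
        ext x
        apply hinj u hu
        have e1 := congrFun (hπ (u ∘ σ)) x
        have e2 := congrFun (hπ u) (σ x)
        rw [hr2 u σ] at e1
        simp only [Function.comp, Equiv.Perm.mul_apply] at e1 e2 ⊢
        rw [← e1, ← e2]
      simp only [if_pos hu, if_pos hu', hr2, h3, Equiv.Perm.sign_mul]
      rw [mul_comm, mul_smul]
    · have hu' : ¬ Function.Injective (u ∘ σ) := by
        intro h4
        apply hu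
        have h5 : u = (u ∘ σ) ∘ (σ⁻¹ : Equiv.Perm κ') := by
          funext x
          simp [Function.comp]
        rw [h5]
        exact h4.comp (σ⁻¹ : Equiv.Perm κ').injective
      simp only [if_neg hu, if_neg hu', smul_zero]
  · intro u hu
    simp only [if_neg hu]

end Pool.Agent.AX
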