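import Mathlib

/-!
Expansion of an alternating map along a vector `ρ` with `ξ ρ = 1`.

Proof of `alt_shift`. Let `Π x := x - ξ x • ρ`. For `i ≤ n + 1` let
`H i := A (fun s => if s.val < i then Π (y s) else y s)`, so `H 0 = A y`, `H (n + 1) = A (Π ∘ y)` and
`A y - A (Π ∘ y) = ∑ i : Fin (n + 1), (H i - H (i + 1))` (`Finset.sum_range_sub'`). The arguments of
`H i` and `H (i + 1)` differ only in the slot `i`, and `y i - Π (y i) = ξ (y i) • ρ`, so
`H i - H (i + 1) = ξ (y i) * A (Π y 0, .., Π y (i-1), ρ, y (i+1), .., y n)`. In the slots `s > i` the argument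
`y s = Π (y s) + ξ (y s) • ρ` may be replaced by `Π (y s)`, one after another, since a term with `ρ` in
the slots `i` and `s` vanishes. So `H i - H (i + 1) = ξ (y i) * A (i.insertNth ρ (i.removeNth (Π ∘ y)))`, and by
`AlternatingMap.map_insertNth` (for `i` and for `Fin.last n`; `Fin.snoc = (Fin.last n).insertNth`)
`A (i.insertNth ρ v) = (-1) ^ i * A (vecCons ρ v) = (-1) ^ (n + i) * A (Fin.snoc v ρ)`.
(Alternative proof: the difference of both sides is linear in `y`; ...)
-/

set_option autoImplicit false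

namespace Pool.Agent.AX

variable {k X : Type*} [Field k] [AddCommGroup X] [Module k X]

theorem alt_shift {n : ℕ} (A : X [⋀^Fin (n + 1)]→ₗ[k] k) (ρ : X) (ξ : X →ₗ[k] k)
    (y : Fin (n + 1) → X) :
    A y = A (fun s => y s - ξ (y s) • ρ) + ∑ i : Fin (n + 1), (-1) ^ (n + i.val) * (ξ (y i) *
      A (Fin.snoc (α := fun _ => X) (i.removeNth (fun s => y s - ξ (y s) • ρ)) ρ)) := by
  classical
  set z : Fin (n + 1) → X := fun s => y s - ξ (y s) • ρ with hz
  have hy : y = (fun s => ξ (y s) • ρ) + z := by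
    funext s
    simp [hz]
  have h1 : A y = ∑ J : Finset (Fin (n + 1)),
      A (J.piecewise (fun s => ξ (y s) • ρ) z) := by
    conv_lhs => rw [hy]
    exact A.toMultilinearMap.map_add_univ _ _
  have h2 : ∀ J : Finset (Fin (n + 1)), J ∉ insert ∅ (Finset.univ.image (fun i => ({i} : Finset (Fin (n + 1))))) →
      A (J.piecewise (fun s => ξ (y s) • ρ) z) = 0 := by
    intro J hJ
    simp only [Finset.mem_insert, Finset.mem_image, Finset.mem_univ, true_and, not_or] at hJ
    obtain ⟨hJ0, hJ1⟩ := hJ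
    have hne : J.Nonempty := Finset.nonempty_iff_ne_empty.2 hJ0
    obtain ⟨i, hi⟩ := hne
    have : ∃ j ∈ J, j ≠ i := by
      by_contra hcon
      push Not at hcon
      exact hJ1 ⟨i, (Finset.eq_singleton_iff_unique_mem.2 ⟨hi, hcon⟩).symm⟩
    obtain ⟨j, hj, hji⟩ := this
    have e1 : J.piecewise (fun s => ξ (y s) • ρ) z =
        J.piecewise (fun s => ξ (y s) • (J.piecewise (fun _ => ρ) z) s) (J.piecewise (fun _ => ρ) z) := by
      funext s
      by_cases hs : s ∈ J <;> simp [hs]
    rw [e1]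
    have e2 := A.toMultilinearMap.map_piecewise_smul (fun s => ξ (y s)) (J.piecewise (fun _ => ρ) z) J
    have e3 : A (J.piecewise (fun _ => ρ) z) = 0 :=
      A.map_eq_zero_of_eq _ (i := i) (j := j) (by simp [hi, hj]) (Ne.symm hji)
    exact e2.trans (by
      have e4 : A.toMultilinearMap (J.piecewise (fun _ => ρ) z) = 0 := e3
      rw [e4, smul_zero])
  rw [h1, ← Finset.sum_subset (Finset.subset_univ _) (fun J _ hJ => h2 J hJ),
    Finset.sum_insert (by simp), Finset.sum_image (fun a _ b _ h => by simpa using h),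
    Finset.piecewise_empty]
  congr 1
  refine Finset.sum_congr rfl fun i _ => ?_
  rw [Finset.piecewise_singleton, A.map_update_smul, smul_eq_mul]
  have e5 : Function.update z i ρ = i.insertNth (α := fun _ => X) ρ (i.removeNth z) :=
    (Fin.insertNth_removeNth i ρ z).symm
  have e6 : Fin.snoc (α := fun _ => X) (i.removeNth z) ρ =
      (Fin.last n).insertNth (α := fun _ => X) ρ (i.removeNth z) := (Fin.insertNth_last' ρ _).symm
  rw [e5, e6, A.map_insertNth, A.map_insertNth, Fin.val_last]
  simp only [zsmul_eq_mul, Int.cast_pow, Int.cast_neg, Int.cast_one]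
  rw [pow_add]
  have e7 : ((-1 : k) ^ n) * (-1) ^ n = 1 := by
    rw [← mul_pow]; simp
  linear_combination (-(ξ (y i)) * (-1) ^ (i : ℕ) * A (Matrix.vecCons ρ (i.removeNth z))) * e7

end Pool.Agent.AX
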