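import Mathlib

/-!
Coordinates of a subspace `R` which are compatible with a chain of subspaces.

Proofs.
* `pick`: if every `W ∈ 𝒲` contains `ρ`, take any `ξ` with `ξ ρ = 1`. Otherwise the members of `𝒲` which
  do not contain `ρ` have a largest member `W1` (a finite non-empty chain). There is `ξ` with
  `ξ ρ = 1`, zero on `W1` (`Submodule.exists_le_ker_of_notMem` or
  `Submodule.exists_dual_map_eq_bot_of_notMem`, scaled), and then it is zero on all of them.
* `proj_mem`: if `ρ ∈ W` clear, otherwise `ξ x = 0`.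
* `coord`: induction on `finrank k R`. If `R = ⊥` take `d = 0`. Otherwise let `ρ ∈ R`, `ρ ≠ 0`, `ξ` as in
  `pick`, `R' := R ⊓ ker ξ`, which does not contain `ρ`, so `finrank k R' < finrank k R`. Let
  `d', ρ', ξ'` be for `R'`. Take `d' + 1`, `Fin.cons ρ ρ'`, `Fin.cons ξ (fun i => ξ' i ∘ Π)` with
  `Π x = x - ξ x • ρ`. If `x ∈ R` then `Π x ∈ R'`, so `∑ i, ξ' i (Π x) • ρ' i = Π x`, and
  `ξ x • ρ + Π x = x`. For `W ∈ 𝒲`: if not `ρ' i ∈ W` then `ξ' i` is zero on `W`, and `Π` maps `W` into `W`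
  (`proj_mem`).
-/

set_option autoImplicit false

namespace Pool.Agent.AX

variable {k X : Type*} [Field k] [AddCommGroup X] [Module k X]

theorem pick (Ws : Finset (Submodule k X)) (hW : IsChain (· ≤ ·) (Ws : Set (Submodule k X)))
    {ρ : X} (hρ : ρ ≠ 0) : ∃ ξ : X →ₗ[k] k, ξ ρ = 1 ∧ ∀ W ∈ Ws, ρ ∈ W ∨ ∀ x ∈ W, ξ x = 0 := by
  classical
  have hM : ∃ M : Submodule k X, ρ ∉ M ∧ ∀ W ∈ Ws, ρ ∉ W → W ≤ M := by
    rcases (Ws.filter (fun W => ρ ∉ W)).eq_empty_or_nonempty with h0 | h0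
    · refine ⟨⊥, by simpa using hρ, fun W hWs hρW => ?_⟩
      have : W ∈ Ws.filter (fun W => ρ ∉ W) := Finset.mem_filter.2 ⟨hWs, hρW⟩
      rw [h0] at this
      exact absurd this (Finset.notMem_empty _)
    · obtain ⟨M, hM⟩ := Finset.exists_maximal h0
      have hM1 := Finset.mem_filter.1 hM.1
      refine ⟨M, hM1.2, fun W hWs hρW => ?_⟩
      rcases hW.total (Finset.mem_coe.2 hWs) (Finset.mem_coe.2 hM1.1) with h | h
      · exact h
      · exact hM.2 (Finset.mem_filter.2 ⟨hWs, hρW⟩) h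
  obtain ⟨M, hρM, hM⟩ := hM
  obtain ⟨f, hf, hker⟩ := Submodule.exists_le_ker_of_notMem hρM
  refine ⟨(f ρ)⁻¹ • f, ?_, fun W hWs => ?_⟩
  · simp [hf]
  · by_cases h : ρ ∈ W
    · exact Or.inl h
    · right
      intro x hx
      have : f x = 0 := LinearMap.mem_ker.1 (hker (hM W hWs h hx))
      simp [this]

theorem proj_mem {W : Submodule k X} {ρ : X} {ξ : X →ₗ[k] k} (h : ρ ∈ W ∨ ∀ x ∈ W, ξ x = 0)
    {x : X} (hx : x ∈ W) : x - ξ x • ρ ∈ W := by
  rcases h with h | h
  · exact W.sub_mem hx (W.smul_mem _ h)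
  · rw [h x hx, zero_smul, sub_zero]
    exact hx

theorem coord [FiniteDimensional k X] (Ws : Finset (Submodule k X))
    (hW : IsChain (· ≤ ·) (Ws : Set (Submodule k X))) (R : Submodule k X) :
    ∃ (d : ℕ) (ρ : Fin d → X) (ξ : Fin d → X →ₗ[k] k), (∀ i, ρ i ∈ R) ∧
      (∀ x ∈ R, ∑ i, ξ i x • ρ i = x) ∧ ∀ W ∈ Ws, ∀ i, ρ i ∈ W ∨ ∀ x ∈ W, ξ i x = 0 := by
  induction h : Module.finrank k R using Nat.strong_induction_on generalizing R with
  | _ n ih =>
    by_cases hR : R = ⊥
    · refine ⟨0, Fin.elim0, Fin.elim0, fun i => i.elim0, fun x hx => ?_, fun W _ i => i.elim0⟩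
      rw [hR, Submodule.mem_bot] at hx
      simp [hx]
    · obtain ⟨ρ, hρR, hρ0⟩ := Submodule.exists_mem_ne_zero_of_ne_bot hR
      obtain ⟨ξ, hξ1, hξW⟩ := pick Ws hW hρ0
      have hlt : R ⊓ LinearMap.ker ξ < R := by
        refine lt_of_le_of_ne inf_le_left fun heq => ?_
        have : ρ ∈ R ⊓ LinearMap.ker ξ := by rw [heq]; exact hρR
        have h2 : ξ ρ = 0 := LinearMap.mem_ker.1 this.2
        rw [hξ1] at h2
        exact one_ne_zero h2
      have hfin : Module.finrank k (R ⊓ LinearMap.ker ξ : Submodule k X) < n := by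
        rw [← h]
        exact Submodule.finrank_lt_finrank_of_lt hlt
      obtain ⟨d, ρ', ξ', h1, h2, h3⟩ := ih _ hfin (R ⊓ LinearMap.ker ξ) rfl
      let P : X →ₗ[k] X := LinearMap.id - ξ.smulRight ρ
      have hP : ∀ x, P x = x - ξ x • ρ := fun x => rfl
      refine ⟨d + 1, Fin.cons ρ ρ', Fin.cons ξ (fun i => (ξ' i).comp P), ?_, ?_, ?_⟩
      · intro i
        refine Fin.cases ?_ (fun i => ?_) i
        · exact hρR
        · exact (h1 i).1
      · intro x hx
        have hPx : P x ∈ R ⊓ LinearMap.ker ξ := by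
          refine ⟨?_, ?_⟩
          · rw [hP]; exact R.sub_mem hx (R.smul_mem _ hρR)
          · show P x ∈ LinearMap.ker ξ
            rw [LinearMap.mem_ker, hP, map_sub, map_smul, hξ1, smul_eq_mul, mul_one, sub_self]
        rw [Fin.sum_univ_succ]
        simp only [Fin.cons_zero, Fin.cons_succ, LinearMap.comp_apply]
        rw [h2 _ hPx, hP]
        abel
      · intro W hWs i
        refine Fin.cases ?_ (fun i => ?_) i
        · exact hξW W hWs
        · rcases h3 W hWs i with h4 | h4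
          · exact Or.inl h4
          · right
            intro x hx
            simp only [Fin.cons_succ, LinearMap.comp_apply]
            apply h4
            rw [hP]
            exact proj_mem (hξW W hWs) hx

end Pool.Agent.AX
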