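import Pool.Agent.AX.Inf2
import Pool.Agent.AX.Coord

/-!
Lifting the order conditions from relations to all arguments.

Proof of `exists_lift`. `coord` for the chain of the `van k F.1`, `F ∈ c` (image of `c`, `van` is
antitone), and `R`: `d`, `ρ i ∈ R`, `ξ i`. Let `σ := Fin d`. Choose `rep : (κ → σ) → (κ → σ)` such that
`cnt (rep g) = cnt g`, and `rep g = rep g'` if `cnt g = cnt g'` (choice of one `g` for every function
`σ → ℕ` in the range of `cnt`). For `g : κ → σ` let `μ g : ML k E κ` be `y ↦ ∏ s, ξ (g s) (y s)`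
(`(MultilinearMap.mkPiAlgebra k κ k).compLinearMap (fun s => ξ (g s))`), and
`Λ f := ∑ g ∈ univ.filter (fun g => rep g = g), ct f ρ (cnt g) • μ g`, linear in `f`
(`ct` is linear in `f`: a sum of evaluations).
(1) Let `x ∈ R`. `f (fun _ => x) = f (fun _ => ∑ i, ξ i x • ρ i) = ∑ g, (∏ s, ξ (g s) x) * f (ρ ∘ g)`
(`expand`). The product depends only on `cnt g` (`prod_cnt`), so grouping the `g` by `rep g`
(`Finset.sum_fiberwise`; `rep g = rep g'` iff `cnt g = cnt g'`) gives
`∑ (rep g = g), (∏ s, ξ (g s) x) * ct f ρ (cnt g) = Λ f (fun _ => x)`.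
(2) Let `F ∈ c`, `f ∈ OC (R ⊓ van F) R θ`, `θ ≤ nv F y`. Consider the term of `g` in `Λ f y`. If
`μ g y ≠ 0` then for every slot `s` with `y s ∈ van F`, `ξ (g s)` is not zero on `van F`, so
`ρ (g s) ∈ van F`. Let `U := univ.filter (fun i => ρ i ∈ van k F.1)` (classical). Then
`∑ i ∈ U, cnt g i = #{s | g s ∈ U} ≥ nv F y ≥ θ` (`sum_cnt_on`), so `ct f ρ (cnt g) = 0` by `ct_order`
with `A := R ⊓ van F`, `B := R`.
-/

set_option autoImplicit false

namespace Pool.Agent.AX

open Pool.Agent.W3

variable {E : Type*} [Fintype E] {Ω : Matroid E} {k : Type*} [Field k]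
  {R : Submodule k (E → k)} {κ : Type*} [Fintype κ] [DecidableEq κ]

theorem exists_lift [Infinite k] (R : Submodule k (E → k)) (c : Finset (PF Ω))
    (hc : IsChain (· ≤ ·) (c : Set (PF Ω))) :
    ∃ Λ : ML k E κ →ₗ[k] ML k E κ, (∀ f, ∀ x ∈ R, Λ f (fun _ => x) = f (fun _ => x)) ∧
      ∀ F ∈ c, ∀ θ : ℕ, ∀ f ∈ (OC (R ⊓ van k F.1) R θ : Submodule k (ML k E κ)),
        ∀ y : κ → E → k, θ ≤ nv F.1 y → Λ f y = 0 := by
  classical
  have hW : IsChain (· ≤ ·)
      (((c.image (fun F : PF Ω => van k F.1)) : Finset (Submodule k (E → k))) :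
        Set (Submodule k (E → k))) := by
    intro a ha b hb _
    simp only [Finset.coe_image, Set.mem_image, Finset.mem_coe] at ha hb
    obtain ⟨F, hF, rfl⟩ := ha
    obtain ⟨G, hG, rfl⟩ := hb
    have hmono : ∀ F G : PF Ω, F ≤ G → van k G.1 ≤ van k F.1 := by
      intro F G h x hx e he
      exact hx e (h he)
    rcases hc.total hF hG with h | h
    · exact Or.inr (hmono F G h)
    · exact Or.inl (hmono G F h)
  obtain ⟨d, ρ, ξ, hρ, hx, hWs⟩ := coord _ hW R
  have hsel : ∀ w : {w // w ∈ (Finset.univ.image (fun g : κ → Fin d => cnt g))},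
      ∃ g : κ → Fin d, cnt g = w.1 := by
    intro w
    have h1 := w.2
    rw [Finset.mem_image] at h1
    obtain ⟨g, _, hg⟩ := h1
    exact ⟨g, hg⟩
  choose g hg using hsel
  let μ : (κ → Fin d) → ML k E κ := fun g =>
    (MultilinearMap.mkPiAlgebra k κ k).compLinearMap (fun s => ξ (g s))
  have hμ : ∀ g y, μ g y = ∏ s, ξ (g s) (y s) := by
    intro g y
    simp [μ]
  let L : (Fin d → ℕ) → (ML k E κ →ₗ[k] k) := fun w =>
    { toFun := fun f => ct f ρ w
      map_add' := by
        intro f f'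
        unfold ct
        rw [← Finset.sum_add_distrib]
        rfl
      map_smul' := by
        intro a f
        unfold ct
        rw [RingHom.id_apply, smul_eq_mul, Finset.mul_sum]
        rfl }
  have hL : ∀ w f, L w f = ct f ρ w := fun w f => rfl
  let Λ : ML k E κ →ₗ[k] ML k E κ := ∑ w, (L w.1).smulRight (μ (g w))
  have hΛ : ∀ f y, Λ f y = ∑ w, ct f ρ w.1 * ∏ s, ξ (g w s) (y s) := by
    intro f y
    simp only [Λ]
    rw [LinearMap.sum_apply, sum_apply]
    refine Finset.sum_congr rfl fun w _ => ?_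
    rw [LinearMap.smulRight_apply, smul_apply, hL, hμ, smul_eq_mul]
  refine ⟨Λ, ?_, ?_⟩
  · intro f x hxR
    rw [hΛ]
    have h1 : f (fun _ => x) = f (fun _ => ∑ i, ξ i x • ρ i) := by
      rw [hx x hxR]
    rw [h1, expand f ρ (fun i => ξ i x)]
    have hfw : ∀ F : (κ → Fin d) → k, ∑ w : {w // w ∈ (Finset.univ.image
        (fun g : κ → Fin d => cnt g))}, ∑ g ∈ Finset.univ.filter (fun g => cnt g = w.1), F g
        = ∑ g, F g := by
      intro F
      rw [← Finset.sum_fiberwise_of_maps_to
        (t := Finset.univ.image (fun g : κ → Fin d => cnt g)) (g := fun g => cnt g)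
        (fun g _ => Finset.mem_image_of_mem _ (Finset.mem_univ g)) F]
      exact Finset.sum_coe_sort (Finset.univ.image fun g : κ → Fin d => cnt g)
        (fun w => ∑ g ∈ Finset.univ.filter (fun g => cnt g = w), F g)
    rw [← hfw]
    refine Finset.sum_congr rfl fun w _ => ?_
    have h2 : ∏ s, ξ (g w s) x = ∏ i, (ξ i x) ^ (w.1 i) := by
      rw [prod_cnt (g w) (fun i => ξ i x), hg w]
    rw [h2]
    unfold ct
    rw [Finset.sum_mul]
    refine Finset.sum_congr rfl fun g' hg' => ?_
    rw [Finset.mem_filter] at hg'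
    rw [prod_cnt g' (fun i => ξ i x), hg'.2, mul_comm]
  · intro F hF θ f hf y hy
    rw [hΛ]
    refine Finset.sum_eq_zero fun w _ => ?_
    by_cases h0 : ∏ s, ξ (g w s) (y s) = 0
    · rw [h0, mul_zero]
    · have h1 : ∀ s, ξ (g w s) (y s) ≠ 0 := by
        intro s hs
        exact h0 (Finset.prod_eq_zero (Finset.mem_univ s) hs)
      have h2 : ct f ρ w.1 = 0 := by
        refine ct_order hf (Finset.univ.filter (fun i => ρ i ∈ van k F.1)) ρ ?_ ?_ w.1 ?_
        · intro i hi
          rw [Finset.mem_filter] at hi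
          exact ⟨hρ i, hi.2⟩
        · intro i _
          exact hρ i
        · rw [← hg w, sum_cnt_on]
          refine le_trans hy ?_
          unfold nv
          refine Finset.card_le_card ?_
          intro s hs
          simp only [Finset.mem_filter, Finset.mem_univ, true_and] at hs ⊢
          rcases hWs (van k F.1) (Finset.mem_image_of_mem _ hF) (g w s) with h3 | h3
          · exact h3
          · exact absurd (h3 _ hs) (h1 s)
      rw [h2, zero_mul]

end Pool.Agent.AX
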