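import Pool.Agent.AX.Res
import Pool.Agent.AX.Lift
import Pool.Agent.AX.Alt
import Pool.Agent.W3.Red

/-!
Assembling the rows for all fixed elements outside `S`.
-/

set_option autoImplicit false

namespace Pool.Agent.AX

open Pool.Agent.W3

variable {E : Type*} [Fintype E] [DecidableEq E] {Ω : Matroid E} {k : Type*} [Field k]
  {R : Submodule k (E → k)} {ι : Type*} [Fintype ι] [DecidableEq ι] {S : Finset ι}

omit [Fintype E] [DecidableEq E] in
private theorem prod_upd (S : Finset ι) (u : {s // s ∉ S} → E) (y : ι → E → k) (i : ι) (hi : i ∉ S)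
    (a : E → k) : (∏ t : {s // s ∉ S}, (Function.update y i a) t (u t)) =
      a (u ⟨i, hi⟩) * ∏ t ∈ Finset.univ.erase (⟨i, hi⟩ : {s // s ∉ S}), y t (u t) := by
  rw [← Finset.mul_prod_erase Finset.univ _ (Finset.mem_univ (⟨i, hi⟩ : {s // s ∉ S}))]
  congr 1
  · simp
  · refine Finset.prod_congr rfl ?_
    intro t ht
    have : (t : ι) ≠ i := by
      intro h
      apply (Finset.mem_erase.1 ht).1
      exact Subtype.ext h
    rw [Function.update_of_ne this]

omit [Fintype E] [DecidableEq E] in
private theorem prod_upd' (S : Finset ι) (u : {s // s ∉ S} → E) (y : ι → E → k) (i : ι) (hi : i ∈ S)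
    (a : E → k) : (∏ t : {s // s ∉ S}, (Function.update y i a) t (u t)) =
      ∏ t : {s // s ∉ S}, y t (u t) := by
  refine Finset.prod_congr rfl ?_
  intro t _
  have : (t : ι) ≠ i := by
    intro h
    exact t.2 (h ▸ hi)
  rw [Function.update_of_ne this]

omit [Fintype E] [DecidableEq E] [Fintype ι] in
private theorem arg_upd (S : Finset ι) (y : ι → E → k) (i : ι) (hi : i ∈ S) (a : E → k) :
    (fun s : {s // s ∈ S} => (Function.update y i a) s) =
      Function.update (fun s : {s // s ∈ S} => y s) ⟨i, hi⟩ a := by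
  funext s
  by_cases h : s = ⟨i, hi⟩
  · subst h
    simp
  · have h2 : (s : ι) ≠ i := fun h3 => h (Subtype.ext h3)
    rw [Function.update_of_ne h2, Function.update_of_ne h]

omit [Fintype E] [DecidableEq E] [Fintype ι] in
private theorem arg_upd' (S : Finset ι) (y : ι → E → k) (i : ι) (hi : i ∉ S) (a : E → k) :
    (fun s : {s // s ∈ S} => (Function.update y i a) s) = (fun s : {s // s ∈ S} => y s) := by
  funext s
  have h2 : (s : ι) ≠ i := fun h3 => hi (h3 ▸ s.2)
  rw [Function.update_of_ne h2]

/-- `term u`, linear in `f`. -/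
theorem exists_term (S : Finset ι) (u : {s // s ∉ S} → E) :
    ∃ term : ML k E {s // s ∈ S} →ₗ[k] ML k E ι, ∀ f y,
      term f y = (∏ t : {s // s ∉ S}, y t (u t)) * f (fun s => y s) := by
  let T : ML k E {s // s ∈ S} → ML k E ι := fun f =>
    MultilinearMap.mk' (fun y : ι → E → k =>
      (∏ t : {s // s ∉ S}, y t (u t)) * f (fun s => y s))
      (by
        intro y i a b
        by_cases hi : i ∈ S
        · rw [prod_upd' S u y i hi, prod_upd' S u y i hi, prod_upd' S u y i hi,
            arg_upd S y i hi, arg_upd S y i hi, arg_upd S y i hi, f.map_update_add, mul_add]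
        · rw [prod_upd S u y i hi, prod_upd S u y i hi, prod_upd S u y i hi,
            arg_upd' S y i hi, arg_upd' S y i hi, arg_upd' S y i hi]
          simp only [Pi.add_apply]
          ring)
      (by
        intro y i c a
        by_cases hi : i ∈ S
        · rw [prod_upd' S u y i hi, prod_upd' S u y i hi,
            arg_upd S y i hi, arg_upd S y i hi, f.map_update_smul]
          simp only [smul_eq_mul]
          ring
        · rw [prod_upd S u y i hi, prod_upd S u y i hi,
            arg_upd' S y i hi, arg_upd' S y i hi]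
          simp only [Pi.smul_apply, smul_eq_mul]
          ring)
  refine ⟨{ toFun := T
            map_add' := ?_
            map_smul' := ?_ }, fun f y => rfl⟩
  · intro f g
    refine MultilinearMap.ext fun y => ?_
    show (∏ t : {s // s ∉ S}, y t (u t)) * (f + g) (fun s => y s) =
      (∏ t : {s // s ∉ S}, y t (u t)) * f (fun s => y s) +
      (∏ t : {s // s ∉ S}, y t (u t)) * g (fun s => y s)
    rw [MultilinearMap.add_apply, mul_add]
  · intro c f
    refine MultilinearMap.ext fun y => ?_
    show (∏ t : {s // s ∉ S}, y t (u t)) * (c • f) (fun s => y s) =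
      c • ((∏ t : {s // s ∉ S}, y t (u t)) * f (fun s => y s))
    rw [MultilinearMap.smul_apply]
    simp only [smul_eq_mul]
    ring

private theorem bd_ap {P : Type*} [Fintype P] {κ : Type*} (ρ : P → ℕ) (z : Finset P → ML k E κ)
    (c : Finset P) (y : κ → E → k) : bd ρ z c y = bd ρ (fun c => z c y) c := by
  let φ : ML k E κ →+ k :=
    { toFun := fun f => f y
      map_zero' := rfl
      map_add' := fun _ _ => rfl }
  exact (bd_map ρ φ z c).symm

private theorem bd_fs {P V α : Type*} [Fintype P] [AddCommGroup V] (ρ : P → ℕ)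
    (A : Finset α) (h : α → Finset P → V) (c : Finset P) :
    bd ρ (fun c => ∑ a ∈ A, h a c) c = ∑ a ∈ A, bd ρ (h a) c := by
  classical
  induction A using Finset.induction_on with
  | empty =>
    simp only [Finset.sum_empty]
    unfold bd
    simp
  | insert a A ha ih =>
    simp only [Finset.sum_insert ha]
    rw [← ih]
    exact bd_add _ (h a) (fun c => ∑ a ∈ A, h a c) c

private theorem bd_ml {P : Type*} [Fintype P] (ρ : P → ℕ) (x : k) (h : Finset P → k)
    (c : Finset P) : bd ρ (fun c => x * h c) c = x * bd ρ h c :=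
  bd_map ρ (AddMonoidHom.mulLeft x) h c

private theorem bd_ng {P V : Type*} [Fintype P] [AddCommGroup V] (ρ : P → ℕ)
    (h : Finset P → V) (c : Finset P) : bd ρ (-h) c = - bd ρ h c :=
  bd_map ρ (negAddMonoidHom : V →+ V) h c

private theorem bd_zr {P V : Type*} [Fintype P] [AddCommGroup V] (ρ : P → ℕ)
    (c : Finset P) : bd ρ (0 : Finset P → V) c = 0 := by
  unfold bd
  simp

private theorem thr_perm {κ' : Type*} [Fintype κ'] (m : ℕ) (u : κ' → E)
    (π : Equiv.Perm κ') (F : PF Ω) : thr Ω m (u ∘ π) F = thr Ω m u F := by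
  classical
  unfold thr
  congr 2
  refine Finset.card_equiv π ?_
  intro t
  simp

theorem asm [Infinite k] {j : ℕ} (hj : 1 ≤ j) {z : Finset (PF Ω) → ML k E ι}
    (hz : Adm (JL Ω S) j z)
    (h : ∀ u : {s // s ∉ S} → E, RowSt Ω R (Fintype.card ι) j u (fun c => res S u (z c))) :
    ∃ w : Finset (PF Ω) → ML k E ι, Adm (JL Ω S) (j + 1) w ∧
      ∀ c, z c - bd (rho Ω) w c ∈ DG R S := by
  classical
  have hAL : ∀ c, z c ∈ AL k E S := by
    intro c
    by_cases h0 : z c = 0
    · rw [h0]
      exact (AL k E S).zero_mem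
    · have h1 := hz.card c h0
      have h2 : c.Nonempty := by
        rw [← Finset.card_pos]
        omega
      obtain ⟨F, hF⟩ := h2
      exact (hz.mem c F hF).2
  set m := Fintype.card ι with hm
  let Pp : ({s // s ∉ S} → E) → (Finset (PF Ω) → ML k E {s // s ∈ S}) → Prop := fun u w =>
    (∀ c, w c ≠ 0 → IsChain (· ≤ ·) (c : Set (PF Ω)) ∧ c.card = j + 1) ∧
    (∀ c, ∀ F ∈ c, w c ∈ OC (R ⊓ van k F.1) R (thr Ω m u F)) ∧
    ∀ c, res S u (z c) - bd (rho Ω) w c ∈ ZD R {s // s ∈ S}
  have hP0 : ∀ u, ¬ Function.Injective u → Pp u 0 := by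
    intro u hu
    refine ⟨fun c hc => absurd rfl hc, fun c F _ => Submodule.zero_mem _, ?_⟩
    intro c
    rw [bd_zr, res_noninj hu (hAL c), sub_zero]
    exact Submodule.zero_mem _
  have hP1 : ∀ u w (π : Equiv.Perm {s // s ∉ S}), Pp u w →
      Pp (u ∘ π) (Equiv.Perm.sign π • w) := by
    rintro u w π ⟨h1, h2, h3⟩
    rcases Int.units_eq_one_or (Equiv.Perm.sign π) with hs | hs
    · rw [hs, one_smul]
      refine ⟨h1, ?_, ?_⟩
      · intro c F hF
        rw [thr_perm]
        exact h2 c F hF
      · intro c
        rw [res_perm u π (hAL c), hs, one_smul]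
        exact h3 c
    · rw [hs]
      have hneg : (-1 : ℤˣ) • w = -w := by
        funext c
        rw [Pi.smul_apply, Pi.neg_apply, Units.neg_smul, one_smul]
      rw [hneg]
      refine ⟨?_, ?_, ?_⟩
      · intro c hc
        apply h1 c
        intro h4
        apply hc
        rw [Pi.neg_apply, h4, neg_zero]
      · intro c F hF
        rw [thr_perm, Pi.neg_apply]
        exact Submodule.neg_mem _ (h2 c F hF)
      · intro c
        rw [res_perm u π (hAL c), hs, bd_ng, Units.neg_smul, one_smul, sub_neg_eq_add]
        have := Submodule.neg_mem _ (h3 c)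
        rw [neg_sub, sub_eq_neg_add] at this
        exact this
  obtain ⟨W, hW1, hW2, hW3⟩ := exists_alt Pp hP0 hP1 (fun u => h u)
  -- the lifts
  have hΛ : ∀ c : Finset (PF Ω), ∃ Λ : ML k E {s // s ∈ S} →ₗ[k] ML k E {s // s ∈ S},
      (IsChain (· ≤ ·) (c : Set (PF Ω)) → ∀ f, ∀ x ∈ R, Λ f (fun _ => x) = f (fun _ => x)) ∧
      (IsChain (· ≤ ·) (c : Set (PF Ω)) → ∀ F ∈ c, ∀ θ : ℕ,
        ∀ f ∈ (OC (R ⊓ van k F.1) R θ : Submodule k (ML k E {s // s ∈ S})),
        ∀ y : {s // s ∈ S} → E → k, θ ≤ nv F.1 y → Λ f y = 0) := by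
    intro c
    by_cases hc : IsChain (· ≤ ·) (c : Set (PF Ω))
    · obtain ⟨Λ, h1, h2⟩ := exists_lift (κ := {s // s ∈ S}) R c hc
      exact ⟨Λ, fun _ => h1, fun _ => h2⟩
    · exact ⟨0, fun h => absurd h hc, fun h => absurd h hc⟩
  choose Λ hΛ1 hΛ2 using hΛ
  choose term hterm using fun u : {s // s ∉ S} → E => exists_term (k := k) S u
  let w : Finset (PF Ω) → ML k E ι := fun c => ∑ u, term u (Λ c (W u c))
  have hw : ∀ c y, w c y = ∑ u : {s // s ∉ S} → E, (∏ t : {s // s ∉ S}, y t (u t)) *
      Λ c (W u c) (fun s => y s) := by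
    intro c y
    show (∑ u, term u (Λ c (W u c))) y = _
    rw [MultilinearMap.sum_apply]
    exact Finset.sum_congr rfl fun u _ => hterm u _ y
  have hsupp : ∀ c, w c ≠ 0 → ∃ u, W u c ≠ 0 := by
    intro c hc
    by_contra hcon
    push Not at hcon
    apply hc
    show ∑ u, term u (Λ c (W u c)) = 0
    refine Finset.sum_eq_zero fun u _ => ?_
    rw [hcon u, map_zero, map_zero]
  have hchain : ∀ c, w c ≠ 0 → IsChain (· ≤ ·) (c : Set (PF Ω)) ∧ c.card = j + 1 := by
    intro c hc
    obtain ⟨u, hu⟩ := hsupp c hc
    exact (hW1 u).1 c hu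
  refine ⟨w, ⟨fun c hc => (hchain c hc).1, fun c hc => (hchain c hc).2, ?_⟩, ?_⟩
  · intro c F hF
    by_cases h0 : w c = 0
    · rw [h0]
      exact Submodule.zero_mem _
    · have hch := (hchain c h0).1
      refine ⟨?_, ?_⟩
      · -- the order condition
        intro y hy
        rw [hw]
        refine Finset.sum_eq_zero fun u _ => ?_
        by_cases hpr : ∏ t : {s // s ∉ S}, y t (u t) = 0
        · rw [hpr, zero_mul]
        · have hne : ∀ t : {s // s ∉ S}, y t (u t) ≠ 0 := by
            intro t ht
            exact hpr (Finset.prod_eq_zero (Finset.mem_univ t) ht)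
          have hle : nv F.1 y ≤ nv F.1 (rarg S u (fun s => y s)) := by
            unfold nv
            apply Finset.card_le_card
            intro s hs
            rw [Finset.mem_filter] at hs ⊢
            refine ⟨Finset.mem_univ _, ?_⟩
            unfold rarg
            by_cases hsS : s ∈ S
            · rw [dif_pos hsS]
              exact hs.2
            · rw [dif_neg hsS]
              intro e he
              have h4 : e ≠ u ⟨s, hsS⟩ := by
                rintro rfl
                exact hne ⟨s, hsS⟩ (hs.2 _ he)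
              rw [Pi.single_eq_of_ne h4]
          have hth : thr Ω m u F ≤ nv F.1 (fun s : {s // s ∈ S} => y s) := by
            rw [hm, nv_rarg]
            omega
          rw [hΛ2 c hch F hF _ _ ((hW1 u).2.1 c F hF) _ hth, mul_zero]
      · -- alternating
        intro y t t' ht ht' htt hyt
        rw [hw]
        let τ : Equiv.Perm {s // s ∉ S} := Equiv.swap ⟨t, ht⟩ ⟨t', ht'⟩
        have hne : (⟨t, ht⟩ : {s // s ∉ S}) ≠ ⟨t', ht'⟩ := by
          intro h5
          exact htt (congrArg Subtype.val h5)
        have hyτ : ∀ s : {s // s ∉ S}, y (τ s : {s // s ∉ S}) = y s := by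
          intro s
          by_cases h6 : s = ⟨t, ht⟩
          · subst h6
            show y ((Equiv.swap _ _ _ : {s // s ∉ S}) : ι) = _
            rw [Equiv.swap_apply_left]
            exact hyt.symm
          · by_cases h7 : s = ⟨t', ht'⟩
            · subst h7
              show y ((Equiv.swap _ _ _ : {s // s ∉ S}) : ι) = _
              rw [Equiv.swap_apply_right]
              exact hyt
            · show y ((Equiv.swap _ _ _ : {s // s ∉ S}) : ι) = _
              rw [Equiv.swap_apply_of_ne_of_ne h6 h7]
        have hτ2 : ∀ s, τ (τ s) = s := by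
          intro s
          exact Equiv.swap_apply_self _ _ _
        refine Finset.sum_involution (fun u _ => u ∘ τ) ?_ ?_ ?_ ?_
        · intro u _
          have h8 : ∏ s : {s // s ∉ S}, y s ((u ∘ τ) s) = ∏ s : {s // s ∉ S}, y s (u s) := by
            rw [← Equiv.prod_comp τ (fun s : {s // s ∉ S} => y s (u s))]
            refine Finset.prod_congr rfl fun s _ => ?_
            rw [hyτ s]
            rfl
          rw [h8, hW2 u τ, Equiv.Perm.sign_swap hne, Units.neg_smul, one_smul, Pi.neg_apply, map_neg,
            MultilinearMap.neg_apply]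
          ring
        · intro u _ hne2 hfix
          apply hne2
          have h9 : ¬ Function.Injective u := by
            intro hinj
            have h10 := congrFun hfix ⟨t, ht⟩
            simp only [Function.comp] at h10
            have h11 := hinj h10
            have h12 : τ ⟨t, ht⟩ = ⟨t', ht'⟩ := Equiv.swap_apply_left _ _
            rw [h12] at h11
            exact hne h11.symm
          rw [hW3 u h9, Pi.zero_apply, map_zero, MultilinearMap.zero_apply, mul_zero]
        · intro u _
          exact Finset.mem_univ _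
        · intro u _
          funext s
          simp only [Function.comp]
          rw [hτ2]
  · -- the difference
    intro c y x hx
    have hwx : ∀ c', w c' (dg S y x) = ∑ u : {s // s ∉ S} → E,
        (∏ t : {s // s ∉ S}, y t (u t)) * W u c' (fun _ => x) := by
      intro c'
      rw [hw]
      refine Finset.sum_congr rfl fun u _ => ?_
      have h13 : ∏ t : {s // s ∉ S}, dg S y x t (u t) = ∏ t : {s // s ∉ S}, y t (u t) := by
        refine Finset.prod_congr rfl fun t _ => ?_
        unfold dg
        rw [if_neg t.2]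
      have h14 : (fun s : {s // s ∈ S} => dg S y x s) = fun _ => x := by
        funext s
        unfold dg
        rw [if_pos s.2]
      rw [h13, h14]
      congr 1
      by_cases hc' : IsChain (· ≤ ·) (c' : Set (PF Ω))
      · exact hΛ1 c' hc' _ x hx
      · have h15 : W u c' = 0 := by
          by_contra h16
          exact hc' ((hW1 u).1 c' h16).1
        rw [h15, map_zero]
    rw [MultilinearMap.sub_apply, bd_ap]
    have h17 : (fun c => w c (dg S y x)) = fun c => ∑ u : {s // s ∉ S} → E,
        (∏ t : {s // s ∉ S}, y t (u t)) * W u c (fun _ => x) := funext hwx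
    rw [h17, bd_fs (rho Ω) Finset.univ (fun (u : {s // s ∉ S} → E) c =>
      (∏ t : {s // s ∉ S}, y t (u t)) * W u c (fun _ => x)) c, res_expand (z c) y x,
      ← Finset.sum_sub_distrib]
    refine Finset.sum_eq_zero fun u _ => ?_
    rw [bd_ml, ← mul_sub, ← bd_ap]
    have h18 := (hW1 u).2.2 c x hx
    rw [MultilinearMap.sub_apply] at h18
    rw [h18, mul_zero]

end Pool.Agent.AX
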