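import Pool.Agent.AX.Defs
import Pool.Agent.W3.LiftBase
import Pool.Agent.W3.LiftThm

/-!
The first step, alternating version.
-/

set_option autoImplicit false

namespace Pool.Agent.AX

open Pool.Agent.W3

variable {E : Type*} [Fintype E] [DecidableEq E] {Ω : Matroid E} {k : Type*} [Field k]
  {R : Submodule k (E → k)} {ι : Type*} [Fintype ι] [DecidableEq ι]

private theorem ml_sum (gt : ML k E ι) (g : (ι → E) → k)
    (hgt : ∀ a : ι → E, gt (fun s => Pi.single (a s) 1) = g a) (y : ι → E → k) :
    gt y = ∑ a : ι → E, (∏ s, y s (a s)) * g a := by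
  have h1 : y = fun s => ∑ e : E, y s e • (Pi.single e (1 : k) : E → k) := by
    funext s e
    simp [Finset.sum_apply, Pi.single_apply]
  conv_lhs => rw [h1]
  rw [MultilinearMap.map_sum]
  refine Finset.sum_congr rfl fun a _ => ?_
  rw [MultilinearMap.map_smul_univ, hgt, smul_eq_mul]

theorem exists_alt_ml (g : (ι → E) → k)
    (heq : ∀ (a : ι → E) (t t' : ι), t ≠ t' → a t = a t' → g a = 0)
    (hswap : ∀ (a : ι → E) (t t' : ι), t ≠ t' → g (fun s => a (Equiv.swap t t' s)) = - g a) :
    ∃ gt : ML k E ι, gt ∈ AL k E (∅ : Finset ι) ∧
      ∀ a : ι → E, gt (fun s => Pi.single (a s) 1) = g a := by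
  classical
  obtain ⟨gt, hgt⟩ := exists_ml g
  refine ⟨gt, ?_, hgt⟩
  intro y t t' _ _ htt hyt
  rw [ml_sum gt g hgt]
  have hys : ∀ s, y (Equiv.swap t t' s) = y s := by
    intro s
    by_cases h1 : s = t
    · subst h1
      rw [Equiv.swap_apply_left]
      exact hyt.symm
    · by_cases h2 : s = t'
      · subst h2
        rw [Equiv.swap_apply_right]
        exact hyt
      · rw [Equiv.swap_apply_of_ne_of_ne h1 h2]
  refine Finset.sum_involution (fun a _ => fun s => a (Equiv.swap t t' s)) ?_ ?_ ?_ ?_
  · intro a _
    have h3 : ∏ s, y s (a (Equiv.swap t t' s)) = ∏ s, y s (a s) := by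
      rw [← Equiv.prod_comp (Equiv.swap t t') (fun s => y s (a s))]
      refine Finset.prod_congr rfl fun s _ => ?_
      rw [hys s]
    rw [h3, hswap a t t' htt]
    ring
  · intro a _ hne hfix
    apply hne
    have h4 := congrFun hfix t
    simp only [Equiv.swap_apply_left] at h4
    rw [heq a t t' htt h4.symm, mul_zero]
  · intro a _
    exact Finset.mem_univ _
  · intro a _
    funext s
    show a (Equiv.swap t t' (Equiv.swap t t' s)) = a s
    rw [Equiv.swap_apply_self]

private theorem alt_swap (gt : ML k E ι) (halt : gt ∈ AL k E (∅ : Finset ι)) (m : ι → E → k)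
    {t t' : ι} (htt : t ≠ t') : gt (m ∘ Equiv.swap t t') = - gt m := by
  let G : (E → k) [⋀^ι]→ₗ[k] k :=
    { gt with
      map_eq_zero_of_eq' := fun v i j h hij =>
        halt v i j (Finset.notMem_empty i) (Finset.notMem_empty j) hij h }
  exact G.map_swap m htt

theorem base_alt (hΩ : Ω.E = Set.univ) (hrk : Ω.eRank = Fintype.card ι)
    (g : (ι → E) → k) (gt : ML k E ι) (hgt : ∀ a : ι → E, gt (fun s => Pi.single (a s) 1) = g a)
    (halt : gt ∈ AL k E (∅ : Finset ι))
    (hsupp : ∀ a, g a ≠ 0 → Function.Injective a ∧ Ω.IsBase (Set.range a))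
    (hLL : ∀ (s : ι) (a : ι → E), Set.InjOn a {s}ᶜ → Ω.Indep (a '' {s}ᶜ) →
      ∀ L ∈ R ⊓ van k (Ω.closure (a '' {s}ᶜ)), ∑ e, L e * g (Function.update a s e) = 0)
    (s : ι) : ∃ w : Finset (PF Ω) → ML k E ι, Adm (JL Ω {s}) 1 w ∧
      gt - bd (rho Ω) w ∅ ∈ DG R {s} := by
  classical
  rcases isEmpty_or_nonempty E with hE | hE
  · refine ⟨fun _ => 0, ⟨fun c h => absurd rfl h, fun c h => absurd rfl h,
      fun c F _ => Submodule.zero_mem _⟩, ?_⟩
    intro y x hx
    have h0 : dg {s} y x s = 0 := Subsingleton.elim _ _
    have h1 : bd (rho Ω) (fun _ : Finset (PF Ω) => (0 : ML k E ι)) ∅ = 0 := by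
      unfold bd
      simp
    rw [h1, sub_zero]
    exact gt.map_coord_zero s h0
  · obtain ⟨e0⟩ := hE
    set S : Finset ι := {s} with hS
    have hScard : S.card = 1 := by rw [hS, Finset.card_singleton]
    have hScoe : (S : Set ι) = {s} := by rw [hS, Finset.coe_singleton]
    -- the flats
    have hflat : ∀ a : ι → E, Ω.IsFlat (CA Ω S a) := fun a => Ω.isFlat_closure _
    set Hp : (ι → E) → PF Ω := fun a =>
      ⟨CA Ω S a, hflat a, ca_ne_univ hΩ hrk (by rw [hScard]) a⟩ with hHp
    -- the projections
    have hproj : ∀ F : PF Ω, ∃ τ : (E → k) →ₗ[k] (E → k), (∀ x, τ x ∈ R) ∧ (∀ x ∈ R, τ x = x) ∧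
        ∀ x ∈ van k F.1, τ x ∈ van k F.1 := by
      intro F
      obtain ⟨τ, h1, h2, h3⟩ := exists_proj_chain R {F} (by
        rw [Finset.coe_singleton]
        exact Set.subsingleton_singleton.isChain)
      exact ⟨τ, h1, h2, fun x hx => h3 F (Finset.mem_singleton_self F) x hx⟩
    choose τ hτ1 hτ2 hτ3 using hproj
    set Q : Finset (ι → E) :=
      Fintype.piFinset (fun s' : ι => if s' = s then ({e0} : Finset E) else Finset.univ) with hQ
    set W : PF Ω → ML k E ι := fun F => ∑ a ∈ Q.filter (fun a => Hp a = F), lbT gt s a (τ F)
      with hW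
    -- terms outside `D`
    have hout : ∀ a : ι → E, ¬ (Set.InjOn a (S : Set ι)ᶜ ∧ Ω.Indep (a '' (S : Set ι)ᶜ)) →
        ∀ L : E → k, ∀ y : ι → E → k,
        gt (fun s' => if s' = s then L else Pi.single (a s') (y s' (a s'))) = 0 := by
      intro a ha L y
      rw [lb_val g gt hgt]
      have h1 : ∀ e, g (Function.update a s e) = 0 := by
        intro e
        by_contra hne
        obtain ⟨hi, hb⟩ := hsupp _ hne
        apply ha
        have hagree : ∀ t ∈ (S : Set ι)ᶜ, Function.update a s e t = a t := by
          intro t ht
          rw [hScoe] at ht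
          exact Function.update_of_ne ht _ _
        constructor
        · intro t ht t' ht' htt
          rw [← hagree t ht, ← hagree t' ht'] at htt
          exact hi htt
        · refine hb.indep.subset ?_
          rintro _ ⟨t, ht, rfl⟩
          exact ⟨t, hagree t ht⟩
      simp [h1]
    have hJF : ∀ F : PF Ω, W F ∈ (JF Ω F : Submodule k (ML k E ι)) := by
      intro F
      refine Submodule.sum_mem _ fun a ha => ?_
      obtain ⟨-, rfl⟩ := Finset.mem_filter.1 ha
      intro y hy
      rw [lbT_apply]
      by_cases hD : Set.InjOn a (S : Set ι)ᶜ ∧ Ω.Indep (a '' (S : Set ι)ᶜ)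
      · have hrank := (ja_indep (k := k) (R := R) hΩ hrk S a hD (Hp a) rfl).1
        rw [hScard, hrk] at hrank
        have hrho : rho Ω (Hp a) + 1 = Fintype.card ι := by
          unfold rho
          have hne : Ω.eRk (Hp a).1 ≠ ⊤ := by
            intro htop
            rw [htop] at hrank
            simp at hrank
          rw [← ENat.coe_toNat hne] at hrank
          exact_mod_cast hrank
        have hnv : 0 < nv (Hp a).1 y := by omega
        unfold nv at hnv
        obtain ⟨t, ht⟩ := Finset.card_pos.1 hnv
        have ht' := (Finset.mem_filter.1 ht).2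
        by_cases hts : t = s
        · subst hts
          rw [lb_val g gt hgt]
          have h3 := hLL t a (by rw [← hScoe]; exact hD.1) (by rw [← hScoe]; exact hD.2)
            (τ (Hp a) (y t)) ⟨hτ1 _ _, by
              have := hτ3 (Hp a) (y t) ht'
              have e : (Hp a).1 = Ω.closure (a '' {t}ᶜ) := by
                show Ω.closure (a '' (S : Set ι)ᶜ) = _
                rw [hScoe]
              rw [e] at this
              exact this⟩
          rw [h3, mul_zero]
        · have hmem : a t ∈ (Hp a).1 := by
            apply Ω.subset_closure (a '' (S : Set ι)ᶜ) (by rw [hΩ]; exact Set.subset_univ _)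
            refine ⟨t, ?_, rfl⟩
            rw [hScoe]
            exact hts
          have h0 : y t (a t) = 0 := ht' _ hmem
          apply gt.map_coord_zero t
          rw [if_neg hts, h0, Pi.single_zero]
      · exact hout a hD _ y
    have hAL : ∀ F : PF Ω, W F ∈ AL k E S := by
      intro F y t t' ht ht' htt hyt
      rw [hS, Finset.mem_singleton] at ht ht'
      simp only [hW]
      rw [MultilinearMap.sum_apply]
      have hσs : Equiv.swap t t' s = s :=
        Equiv.swap_apply_of_ne_of_ne (Ne.symm ht) (Ne.symm ht')
      have hys : ∀ s, y (Equiv.swap t t' s) = y s := by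
        intro s
        by_cases h1 : s = t
        · subst h1
          rw [Equiv.swap_apply_left]
          exact hyt.symm
        · by_cases h2 : s = t'
          · subst h2
            rw [Equiv.swap_apply_right]
            exact hyt
          · rw [Equiv.swap_apply_of_ne_of_ne h1 h2]
      refine Finset.sum_involution (fun a _ => a ∘ Equiv.swap t t') ?_ ?_ ?_ ?_
      · intro a _
        rw [lbT_apply, lbT_apply]
        have h3 : (fun s' => if s' = s then τ F (y s) else
            (Pi.single ((a ∘ Equiv.swap t t') s') (y s' ((a ∘ Equiv.swap t t') s')) : E → k)) =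
            (fun s' => if s' = s then τ F (y s) else Pi.single (a s') (y s' (a s'))) ∘
              Equiv.swap t t' := by
          funext s'
          simp only [Function.comp]
          by_cases h4 : s' = s
          · rw [h4, hσs]
          · have h5 : Equiv.swap t t' s' ≠ s := by
              intro h6
              apply h4
              rw [← hσs] at h6
              exact (Equiv.swap t t').injective h6
            rw [if_neg h4, if_neg h5, hys s']
        rw [h3, alt_swap gt halt _ htt, add_neg_cancel]
      · intro a _ hne hfix
        apply hne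
        have h7 := congrFun hfix t
        simp only [Function.comp, Equiv.swap_apply_left] at h7
        rw [lbT_apply]
        refine halt _ t t' (Finset.notMem_empty t) (Finset.notMem_empty t') htt ?_
        rw [if_neg ht, if_neg ht', h7, hyt]
      · intro a ha
        rw [Finset.mem_filter] at ha ⊢
        refine ⟨?_, ?_⟩
        · have h8 := ha.1
          rw [hQ, Fintype.mem_piFinset] at h8 ⊢
          intro s'
          by_cases h9 : s' = s
          · subst h9
            have := h8 s'
            show a (Equiv.swap t t' s') ∈ _
            rw [hσs]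
            exact this
          · rw [if_neg h9]
            exact Finset.mem_univ _
        · rw [← ha.2]
          apply Subtype.ext
          show Ω.closure ((a ∘ Equiv.swap t t') '' (S : Set ι)ᶜ) = Ω.closure (a '' (S : Set ι)ᶜ)
          congr 1
          rw [Set.image_comp]
          congr 1
          ext s'
          rw [hScoe]
          simp only [Set.mem_image, Set.mem_compl_iff, Set.mem_singleton_iff]
          constructor
          · rintro ⟨s'', h10, rfl⟩ h11
            apply h10
            rw [← hσs] at h11
            exact (Equiv.swap t t').injective h11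
          · intro h12
            refine ⟨Equiv.swap t t' s', ?_, Equiv.swap_apply_self _ _ _⟩
            intro h13
            apply h12
            rw [← hσs] at h13
            exact (Equiv.swap t t').injective h13
      · intro a _
        funext s'
        simp only [Function.comp]
        rw [Equiv.swap_apply_self]
    refine ⟨fun c => if c.card = 1 then ∑ F ∈ c, W F else 0, ⟨?_, ?_, ?_⟩, ?_⟩
    · intro c hc
      by_cases h : c.card = 1
      · obtain ⟨F, rfl⟩ := Finset.card_eq_one.1 h
        rw [Finset.coe_singleton]
        exact Set.subsingleton_singleton.isChain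
      · exact absurd (if_neg h) hc
    · intro c hc
      by_contra h
      exact hc (if_neg h)
    · intro c F hF
      by_cases h : c.card = 1
      · obtain ⟨F', rfl⟩ := Finset.card_eq_one.1 h
        rw [Finset.mem_singleton] at hF
        subst hF
        simp only [if_pos h]
        rw [Finset.sum_singleton]
        exact ⟨hJF F, hAL F⟩
      · simp only [if_neg h]
        exact Submodule.zero_mem _
    · have hbd : bd (rho Ω) (fun c : Finset (PF Ω) => if c.card = 1 then ∑ F ∈ c, W F else 0) ∅ =
          ∑ F : PF Ω, W F := by
        unfold bd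
        refine Finset.sum_congr (by simp) fun F _ => ?_
        have h1 : insert F (∅ : Finset (PF Ω)) = {F} := rfl
        have h2 : eps (rho Ω) F (∅ : Finset (PF Ω)) = 1 := by
          unfold eps
          simp
        rw [h2, one_smul]
        simp
      rw [hbd]
      intro y₀ x hx
      set y : ι → E → k := dg {s} y₀ x with hydef
      have hys : y s ∈ R := by
        rw [hydef]
        unfold dg
        rw [if_pos (Finset.mem_singleton_self s)]
        exact hx
      have h1 : (∑ F : PF Ω, W F) y = ∑ a ∈ Q,
          gt (fun s' => if s' = s then y s else Pi.single (a s') (y s' (a s'))) := by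
        rw [MultilinearMap.sum_apply]
        have h2 : ∀ F : PF Ω, W F y = ∑ a ∈ Q.filter (fun a => Hp a = F),
            gt (fun s' => if s' = s then y s else Pi.single (a s') (y s' (a s'))) := by
          intro F
          simp only [hW]
          rw [MultilinearMap.sum_apply]
          refine Finset.sum_congr rfl fun a _ => ?_
          rw [lbT_apply, hτ2 F (y s) hys]
        rw [Finset.sum_congr rfl fun F _ => h2 F]
        exact Finset.sum_fiberwise Q Hp _
      rw [sub_apply, h1, ← lb_expand gt s e0 y, sub_self]

end Pool.Agent.AX
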