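import Pool.Agent.AX.ColStep
import Pool.Agent.W3.Red
import Pool.Agent.W3.Flag

/-!
The diagram chase.

`Down Ω R m b`: let `z` be an admissible function in degree `b` which is alternating in the slots
`< m - b`, whose boundary vanishes on the diagonals of `hi m (m - b - 1)`; then there is `y` which is
alternating in the slots `< m - b + 1` with the same boundary modulo `DG R (hi m (m - b))`.

Proofs.
* `down_top`: `y := z`; `m - m = 0`, `hi m 0 = univ`, and `JL Ω (hi m 1) F = JF Ω F` (`al_hi_one`).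
* `down_core`: let `a := m - b`, so `1 ≤ a < m` and `a - 1 = m - b - 1`. `hD` for `w`: its hypothesis (if
  `b + 1 < m`): `bd w c = z c - (z c - bd w c)`; `z c ∈ AL k E (hi m a) ≤ DG R (hi m (a - 2))` by `al_le_dg`
  with the slots `a - 1`, `a - 2` (if `z c ≠ 0` then `c` has `b ≥ 1` elements `F` and
  `z c ∈ JL Ω (hi m a) F`), and `DG R (hi m (a - 1)) ≤ DG R (hi m (a - 2))` (`dg_anti`). So there is `y'` with
  `Adm (JL Ω (hi m (m - (b+1) + 1))) (b + 1) y'`, `m - (b + 1) + 1 = a`, and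
  `bd w c - bd y' c ∈ DG R (hi m (a - 1))`. For every `c` put `d c := z c - bd y' c`. `Adm (JL Ω (hi m a)) b d`
  (`adm_sub`, `adm_bd`) and `d c ∈ DG R (hi m (a - 1))`. For `c` with `d c ≠ 0` (a chain with `b` elements)
  `col_step` gives `y c ∈ AL k E (hi m (a + 1))`, in all `JF Ω F`, `F ∈ c`, and `d c - y c ∈ DG R (hi m a)`;
  put `y c := 0` if `d c = 0`. Then `Adm (JL Ω (hi m (a + 1))) b y`, and
  `bd z c - bd y c = bd (bd y') c + bd (fun c => d c - y c) c = bd (d - y) c ∈ DG R (hi m a)`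
  (`bd_bd` with `injOn_of_chain`, `rho_strictMono`; a sum of elements with signs,
  compare `bd_mem_submodule` in W3/SlotLem).
* `down_all`: descending induction from `b = m`: `down_top`, and for `b < m` `down_core` with `w` from
  `hrow b` applied to `z`, which is also in `Adm (JL Ω (hi m (m - b - 1))) b` (`al_anti`:
  `hi m (m - b) ⊆ hi m (m - b - 1)`).
* `chase`: if `m = 1`, `y := z1` (`down_top`); otherwise `y` from `down_core` with `b = 1`, `w` from `hrow1`
  and `down_all`. `G := gt - bd y ∅`. `bd y ∅` is a sum of `± y {F}`, `y {F} ∈ JL Ω (hi m m) F`, so it is in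
  `AL k E (hi m m) = AL k E ∅` (`hi m m = ∅`) and in the supremum. `gt - bd y ∅ =
  (gt - bd z1 ∅) + (bd z1 ∅ - bd y ∅) ∈ DG R (hi m (m - 1))`. For `m = 1`, `b = 1`: `m - b + 1 = m`.
-/

set_option autoImplicit false

namespace Pool.Agent.AX

open Pool.Agent.W3

variable {E : Type*} [Fintype E] {Ω : Matroid E} {k : Type*} [Field k]
  {R : Submodule k (E → k)} {m : ℕ}

/-- The statement proved by descending induction. -/
def Down (Ω : Matroid E) (R : Submodule k (E → k)) (m b : ℕ) : Prop :=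
  ∀ z : Finset (PF Ω) → ML k E (Fin m), Adm (JL Ω (hi m (m - b))) b z →
    (b < m → ∀ c, bd (rho Ω) z c ∈ DG R (hi m (m - b - 1))) →
    ∃ y : Finset (PF Ω) → ML k E (Fin m), Adm (JL Ω (hi m (m - b + 1))) b y ∧
      ∀ c, bd (rho Ω) z c - bd (rho Ω) y c ∈ DG R (hi m (m - b))

/-- The statement on rows in degree `b`. -/
def RowP (Ω : Matroid E) (R : Submodule k (E → k)) (m b : ℕ) : Prop :=
  ∀ z : Finset (PF Ω) → ML k E (Fin m), Adm (JL Ω (hi m (m - b - 1))) b z →
    (∀ c, bd (rho Ω) z c ∈ DG R (hi m (m - b - 1))) →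
    ∃ w : Finset (PF Ω) → ML k E (Fin m), Adm (JL Ω (hi m (m - b - 1))) (b + 1) w ∧
      ∀ c, z c - bd (rho Ω) w c ∈ DG R (hi m (m - b - 1))

theorem down_top : Down Ω R m m := by
  intro z hz _
  refine ⟨z, ⟨hz.chain, hz.card, ?_⟩, ?_⟩
  · intro c F hF
    refine ⟨(hz.mem c F hF).1, ?_⟩
    rw [show m - m + 1 = 1 by omega, al_hi_one]
    exact Submodule.mem_top
  · intro c
    rw [sub_self]
    exact Submodule.zero_mem _

theorem down_core (hΩ : Ω.E = Set.univ) [Infinite k] {b : ℕ} (hb : 1 ≤ b) (hbm : b < m)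
    {z : Finset (PF Ω) → ML k E (Fin m)} (hz : Adm (JL Ω (hi m (m - b))) b z)
    {w : Finset (PF Ω) → ML k E (Fin m)} (hw : Adm (JL Ω (hi m (m - b - 1))) (b + 1) w)
    (hzw : ∀ c, z c - bd (rho Ω) w c ∈ DG R (hi m (m - b - 1))) (hD : Down Ω R m (b + 1)) :
    ∃ y : Finset (PF Ω) → ML k E (Fin m), Adm (JL Ω (hi m (m - b + 1))) b y ∧
      ∀ c, bd (rho Ω) z c - bd (rho Ω) y c ∈ DG R (hi m (m - b)) := by
  classical
  obtain ⟨a, ha⟩ : ∃ a, m - b = a := ⟨_, rfl⟩
  have ha1 : 1 ≤ a := by omega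
  have ham : a < m := by omega
  rw [ha] at hz hw hzw ⊢
  have e1 : m - (b + 1) = a - 1 := by omega
  have e2 : m - (b + 1) + 1 = a := by omega
  have e3 : m - (b + 1) - 1 = a - 2 := by omega
  have hzAL : ∀ c, z c ∈ AL k E (hi m a) := by
    intro c
    by_cases h0 : z c = 0
    · rw [h0]
      exact Submodule.zero_mem _
    · have hcard := hz.card c h0
      have hne : c.Nonempty := by
        rw [← Finset.card_pos]
        omega
      obtain ⟨F, hF⟩ := hne
      exact (hz.mem c F hF).2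
  obtain ⟨y', hy', hyD⟩ := hD w (by rw [e1]; exact hw) (by
    intro hbm2 c
    rw [e3]
    have h1 : bd (rho Ω) w c = z c - (z c - bd (rho Ω) w c) := by abel
    rw [h1]
    refine sub_mem ?_ ?_
    · exact al_le_dg (s := ⟨a - 1, by omega⟩) (s' := ⟨a - 2, by omega⟩)
        (by rw [mem_hi]; simp only; omega) (by rw [mem_hi]; simp only; omega)
        (by intro h; have := congrArg Fin.val h; simp only at this; omega)
        (by rw [mem_hi]; simp only; omega) (by rw [mem_hi]) (hzAL c)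
    · refine dg_anti ?_ (hzw c)
      intro s hs
      rw [mem_hi] at hs ⊢
      omega)
  rw [e2] at hy'
  rw [e1] at hyD
  set d : Finset (PF Ω) → ML k E (Fin m) := fun c => z c - bd (rho Ω) y' c with hd
  have hdadm : Adm (JL Ω (hi m a)) b d := adm_sub hz (adm_bd hy')
  have hdD : ∀ c, d c ∈ DG R (hi m (a - 1)) := by
    intro c
    have h1 : d c = (z c - bd (rho Ω) w c) + (bd (rho Ω) w c - bd (rho Ω) y' c) := by
      simp only [hd]
      abel
    rw [h1]
    exact add_mem (hzw c) (hyD c)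
  have key : ∀ c, ∃ w' : ML k E (Fin m), w' ∈ AL k E (hi m (a + 1)) ∧
      (∀ F ∈ c, w' ∈ JF Ω F) ∧ d c - w' ∈ DG R (hi m a) ∧ (d c = 0 → w' = 0) := by
    intro c
    by_cases h0 : d c = 0
    · refine ⟨0, Submodule.zero_mem _, fun F _ => Submodule.zero_mem _, ?_, fun _ => rfl⟩
      rw [h0, sub_zero]
      exact Submodule.zero_mem _
    · have hcard := hdadm.card c h0
      have hne : c.Nonempty := by
        rw [← Finset.card_pos]
        omega
      obtain ⟨F, hF⟩ := hne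
      obtain ⟨w', h1, h2, h3⟩ := col_step ha1 ham c (hdadm.chain c h0) R (d c)
        (hdadm.mem c F hF).2 (hdD c) (fun F hF => (hdadm.mem c F hF).1)
      exact ⟨w', h1, h2, h3, fun h => absurd h h0⟩
  choose y hy1 hy2 hy3 hy4 using key
  refine ⟨y, ⟨?_, ?_, ?_⟩, ?_⟩
  · intro c hc
    exact hdadm.chain c fun h => hc (hy4 c h)
  · intro c hc
    exact hdadm.card c fun h => hc (hy4 c h)
  · intro c F hF
    exact ⟨hy2 c F hF, hy1 c⟩
  · intro c
    have h1 : bd (rho Ω) z c - bd (rho Ω) y c =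
        bd (rho Ω) (bd (rho Ω) y') c + bd (rho Ω) (fun c => d c - y c) c := by
      rw [← bd_sub, ← bd_add]
      congr 1
      funext c
      simp only [hd]
      abel
    rw [h1, bd_bd (rho Ω) y' (fun c hc => injOn_of_chain (rho_strictMono hΩ) (hy'.chain c hc)) c,
      zero_add]
    unfold bd
    exact Submodule.sum_mem _ fun F _ => zsmul_mem (hy3 _) _

theorem down_all (hΩ : Ω.E = Set.univ) [Infinite k]
    (hrow : ∀ b, 2 ≤ b → b < m → RowP Ω R m b) (b : ℕ) (hb : 2 ≤ b) (hbm : b ≤ m) :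
    Down Ω R m b := by
  obtain ⟨n, hn⟩ : ∃ n, b + n = m := ⟨m - b, by omega⟩
  induction n generalizing b with
  | zero =>
    have h : b = m := by omega
    subst h
    exact down_top
  | succ n ih =>
    have hD := ih (b + 1) (by omega) (by omega) (by omega)
    intro z hz hbd
    have hbm' : b < m := by omega
    obtain ⟨w, hw, hzw⟩ := hrow b hb hbm' z ⟨hz.chain, hz.card, fun c F hF =>
      ⟨(hz.mem c F hF).1, al_anti (by
        intro s hs
        rw [mem_hi] at hs ⊢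
        omega) (hz.mem c F hF).2⟩⟩ (hbd hbm')
    exact down_core hΩ (by omega) hbm' hz hw hzw hD

theorem chase (hΩ : Ω.E = Set.univ) [Infinite k] (hm : 1 ≤ m)
    (hrow : ∀ b, 2 ≤ b → b < m → RowP Ω R m b) {gt : ML k E (Fin m)}
    (hgt : gt ∈ AL k E (∅ : Finset (Fin m))) {z1 : Finset (PF Ω) → ML k E (Fin m)}
    (hz1 : Adm (JL Ω (hi m (m - 1))) 1 z1)
    (h1 : gt - bd (rho Ω) z1 ∅ ∈ DG R (hi m (m - 1)))
    (hrow1 : 2 ≤ m → ∃ w : Finset (PF Ω) → ML k E (Fin m), Adm (JL Ω (hi m (m - 2))) 2 w ∧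
      ∀ c, z1 c - bd (rho Ω) w c ∈ DG R (hi m (m - 2))) :
    ∃ G : ML k E (Fin m), G ∈ AL k E (∅ : Finset (Fin m)) ∧ G ∈ DG R (hi m (m - 1)) ∧
      G - gt ∈ ⨆ F : PF Ω, (JF Ω F : Submodule k (ML k E (Fin m))) := by
  classical
  have hy : ∃ y : Finset (PF Ω) → ML k E (Fin m), Adm (JL Ω (hi m (m - 1 + 1))) 1 y ∧
      ∀ c, bd (rho Ω) z1 c - bd (rho Ω) y c ∈ DG R (hi m (m - 1)) := by
    by_cases hm1 : m = 1
    · subst hm1
      exact down_top z1 hz1 (fun h => absurd h (lt_irrefl _))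
    · have hm2 : 2 ≤ m := by omega
      obtain ⟨w, hw, hzw⟩ := hrow1 hm2
      exact down_core hΩ le_rfl (by omega) hz1 hw hzw (down_all hΩ hrow 2 le_rfl hm2)
  obtain ⟨y, hy, hyD⟩ := hy
  have hemp : hi m (m - 1 + 1) = ∅ := by
    ext s
    rw [mem_hi]
    have := s.isLt
    simp only [Finset.notMem_empty, iff_false]
    omega
  rw [hemp] at hy
  have hb1 : bd (rho Ω) y ∅ ∈ AL k E (∅ : Finset (Fin m)) := by
    unfold bd
    refine Submodule.sum_mem _ fun F _ => zsmul_mem ?_ _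
    exact (hy.mem _ F (Finset.mem_insert_self _ _)).2
  have hb2 : bd (rho Ω) y ∅ ∈ ⨆ F : PF Ω, (JF Ω F : Submodule k (ML k E (Fin m))) := by
    unfold bd
    refine Submodule.sum_mem _ fun F _ => zsmul_mem ?_ _
    exact Submodule.mem_iSup_of_mem F (hy.mem _ F (Finset.mem_insert_self _ _)).1
  refine ⟨gt - bd (rho Ω) y ∅, sub_mem hgt hb1, ?_, ?_⟩
  · have h2 : gt - bd (rho Ω) y ∅ =
        (gt - bd (rho Ω) z1 ∅) + (bd (rho Ω) z1 ∅ - bd (rho Ω) y ∅) := by abel
    rw [h2]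
    exact add_mem h1 (hyD ∅)
  · have h2 : gt - bd (rho Ω) y ∅ - gt = - bd (rho Ω) y ∅ := by abel
    rw [h2]
    exact neg_mem hb2

end Pool.Agent.AX
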