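import Pool.Agent.W3.Red

/-!
`col` (W3/Red) for one given cycle.
-/

set_option autoImplicit false

namespace Pool.Agent.AX

open Finset Pool.Agent.W3

variable {P V k : Type*} [Fintype P] [PartialOrder P] [Field k] [AddCommGroup V] [Module k V]
  {ρ : P → ℕ} {J : P → Submodule k V}

theorem col_spec (hρ : StrictMono ρ) (C : P)
    (hφ : ∀ F, J F = ⊥ ∨ ∃ φ, F ≤ φ ∧ C ≤ φ ∧ J F ≤ J φ ∧ ∀ G, F ≤ G → C ≤ G → φ ≤ G)
    {j : ℕ} {z : Finset P → V} (hz : Adm J j z) (hcyc : ∀ c, bd ρ z c = 0)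
    (hstar : ∀ w1 : Finset P → V, Adm J (j + 1) w1 →
      (∀ c, z c - bd ρ w1 c ≠ 0 → ∀ F ∈ c, C ≤ F) → ∀ c, C ∉ c → z c - bd ρ w1 c ∈ J C) :
    ∃ w : Finset P → V, Adm J (j + 1) w ∧ ∀ c, bd ρ w c = z c := by
  obtain ⟨w1, hw1, hw1'⟩ := red hρ C hφ hz hcyc
  set z1 : Finset P → V := fun c => z c - bd ρ w1 c with hz1
  have hz1adm : Adm J j z1 := adm_sub hz (adm_bd hw1)
  have hz1cyc : ∀ c, bd ρ z1 c = 0 := by
    intro c
    rw [hz1, bd_sub, hcyc c, bd_bd ρ w1 (fun c hc => injOn_of_chain hρ (hw1.chain c hc)) c,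
      sub_zero]
  have hsupp : ∀ c, z1 c ≠ 0 → ∀ F ∈ c, C ≤ F := hw1'
  have hbd : ∀ c, bd ρ (cone ρ C z1) c = z1 c := by
    intro c
    refine bd_cone ρ C z1 ?_ hz1cyc c
    intro c hc F hF hρF
    exact eq_of_le_of_rho hρ (hsupp c hc F hF) hρF
  have hcone : Adm J (j + 1) (cone ρ C z1) :=
    adm_cone hz1adm C (fun c hc G hG => Or.inl (hsupp c hc G hG))
      (fun c hc => hstar w1 hw1 hw1' c hc)
  refine ⟨fun c => w1 c + cone ρ C z1 c, adm_add hw1 hcone, ?_⟩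
  intro c
  rw [bd_add, hbd c]
  simp only [hz1]
  abel

end Pool.Agent.AX
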