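import Mathlib

/-!
Telescoping sums for multilinear maps.

`mix a l u p q r` has the arguments `u s` for `s < a`, `p` for `a ≤ s < l`, `q` for `s = l ≥ a` and `r` for
the slots `s ≥ a`, `s > l`.

Proofs. `Π x := x - ξ x • ρ`.
* `tele`: for `a ≤ j ≤ n` let `G j := f (fun s => if s < a then u s else if s < j then Π x else x)`. The
  arguments of `G l` and `G (l + 1)`, `a ≤ l < n`, differ only in the slot `l`, and `x - Π x = ξ x • ρ`, so
  `G l - G (l + 1) = ξ x * f (mix a l u (Π x) ρ x)`. Sum over `l`.
* `poly_line`: `f (fun s => p s + t • r s) = ∑ J, t ^ #J * f (fun s => if s ∈ J then r s else p s)`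
  (`MultilinearMap.map_add_univ`, `map_piecewise_smul`), a polynomial in `t`.
* `tele_zero`: if `ξ x ≠ 0` then by `tele` `ξ x` times the sum is `F x - F (Π x) = 0`, where
  `F x := f (fun s => if s < a then u s else x)` vanishes on `R`; note `Π x ∈ R`. In general replace `x` by
  `x + t • ρ`, `t ∈ k`: `Π (x + t • ρ) = Π x`, `ξ (x + t • ρ) = ξ x + t`, so the sum
  `∑ l, f (mix a l u (Π x) ρ (x + t • ρ))`, which is a polynomial in `t` (`poly_line` for every `l`), vanishes
  for all `t ≠ - ξ x`. As `k` is infinite the polynomial is zero (`Polynomial.eq_zero_of_infinite_isRoot`,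
  `Set.Finite.infinite_compl`), and `t = 0` gives the claim.
-/

set_option autoImplicit false

namespace Pool.Agent.AX

variable {k X : Type*} [Field k] [AddCommGroup X] [Module k X] {n : ℕ}

/-- The arguments `u` before `a`, then `p` before `l`, then `q` in the slot `l`, then `r`. -/
def mix (a l : ℕ) (u : Fin n → X) (p q r : X) : Fin n → X := fun s =>
  if s.val < a then u s else if s.val < l then p else if s.val = l then q else r

theorem tele (f : MultilinearMap k (fun _ : Fin n => X) k) (a : ℕ) (u : Fin n → X) (ρ : X)
    (ξ : X →ₗ[k] k) (x : X) :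
    f (fun s => if s.val < a then u s else x) -
      f (fun s => if s.val < a then u s else x - ξ x • ρ) =
    ξ x * ∑ l ∈ Finset.univ.filter (fun l : Fin n => a ≤ l.val),
      f (mix a l.val u (x - ξ x • ρ) ρ x) := by
  classical
  set z : X := x - ξ x • ρ with hz
  set G : ℕ → k := fun j => f (fun s => if s.val < a then u s else if s.val < j then z else x) with hG
  have h0 : G 0 = f (fun s => if s.val < a then u s else x) := by
    simp [hG]
  have hn : G n = f (fun s => if s.val < a then u s else z) := by
    simp [hG]
  have hstep : ∀ l ∈ Finset.range n, G l - G (l + 1) =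
      ξ x * (if a ≤ l then f (mix a l u z ρ x) else 0) := by
    intro l hl
    rw [Finset.mem_range] at hl
    by_cases hal : a ≤ l
    · rw [if_pos hal]
      have e1 : (fun s : Fin n => if s.val < a then u s else if s.val < l then z else x) =
          Function.update (mix a l u z ρ x) ⟨l, hl⟩ x := by
        funext s
        by_cases hs : s = ⟨l, hl⟩
        · subst hs
          simp [not_lt.2 hal]
        · have hs' : s.val ≠ l := fun h => hs (Fin.ext h)
          rw [Function.update_of_ne hs]
          simp [mix, hs']
      have e2 : (fun s : Fin n => if s.val < a then u s else if s.val < l + 1 then z else x) =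
          Function.update (mix a l u z ρ x) ⟨l, hl⟩ z := by
        funext s
        by_cases hs : s = ⟨l, hl⟩
        · subst hs
          simp [not_lt.2 hal]
        · have hs' : s.val ≠ l := fun h => hs (Fin.ext h)
          rw [Function.update_of_ne hs]
          have : s.val < l + 1 ↔ s.val < l := by omega
          simp [mix, hs', this]
      have e3 : mix a l u z ρ x = Function.update (mix a l u z ρ x) ⟨l, hl⟩ ρ := by
        funext s
        by_cases hs : s = ⟨l, hl⟩
        · subst hs
          simp [mix, not_lt.2 hal]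
        · rw [Function.update_of_ne hs]
      simp only [hG]
      rw [e1, e2, ← f.map_update_sub]
      have e4 : x - z = ξ x • ρ := by rw [hz]; abel
      rw [e4, f.map_update_smul, ← e3, smul_eq_mul]
    · rw [if_neg hal, mul_zero, sub_eq_zero]
      simp only [hG]
      congr 1
      funext s
      by_cases hs : s.val < a
      · simp [hs]
      · have h1 : ¬ s.val < l := by omega
        have h2 : ¬ s.val < l + 1 := by omega
        simp [hs, h1, h2]
  rw [← h0, ← hn, ← Finset.sum_range_sub', Finset.sum_congr rfl hstep, ← Finset.mul_sum,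
    Finset.sum_filter, ← Fin.sum_univ_eq_sum_range (fun l => if a ≤ l then f (mix a l u z ρ x) else 0) n]

theorem poly_line (f : MultilinearMap k (fun _ : Fin n => X) k) (p r : Fin n → X) :
    ∃ P : Polynomial k, ∀ t : k, P.eval t = f (fun s => p s + t • r s) := by
  classical
  refine ⟨∑ J : Finset (Fin n), Polynomial.C (f (J.piecewise r p)) * Polynomial.X ^ J.card, fun t => ?_⟩
  have h1 : (fun s => p s + t • r s) = (fun s => t • r s) + p := by
    funext s
    simp [add_comm]
  rw [h1, f.map_add_univ, Polynomial.eval_finsetSum]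
  refine Finset.sum_congr rfl fun J _ => ?_
  have h2 : J.piecewise (fun s => t • r s) p =
      J.piecewise (fun s => t • (J.piecewise r p) s) (J.piecewise r p) := by
    funext s
    by_cases hs : s ∈ J <;> simp [hs]
  rw [h2, f.map_piecewise_smul (fun _ => t) (J.piecewise r p) J, Polynomial.eval_mul,
    Polynomial.eval_C, Polynomial.eval_pow, Polynomial.eval_X, Finset.prod_const, smul_eq_mul,
    mul_comm]

theorem tele_zero [Infinite k] (R : Submodule k X) (f : MultilinearMap k (fun _ : Fin n => X) k)
    (a : ℕ) (u : Fin n → X) {ρ : X} (hρ : ρ ∈ R) {ξ : X →ₗ[k] k} (hξ : ξ ρ = 1)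
    (hf : ∀ x ∈ R, f (fun s => if s.val < a then u s else x) = 0) {x : X} (hx : x ∈ R) :
    ∑ l ∈ Finset.univ.filter (fun l : Fin n => a ≤ l.val),
      f (mix a l.val u (x - ξ x • ρ) ρ x) = 0 := by
  classical
  set z : X := x - ξ x • ρ with hz
  have hmem : ∀ t : k, x + t • ρ ∈ R := fun t => R.add_mem hx (R.smul_mem t hρ)
  have hzR : z ∈ R := R.sub_mem hx (R.smul_mem _ hρ)
  have hξt : ∀ t : k, ξ (x + t • ρ) = ξ x + t := by
    intro t
    simp [hξ]
  have hzt : ∀ t : k, x + t • ρ - ξ (x + t • ρ) • ρ = z := by
    intro t
    rw [hξt, add_smul, hz]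
    abel
  choose P hP using fun l : Fin n => poly_line f (mix a l.val u z ρ x) (mix a l.val 0 0 0 ρ)
  have hPm : ∀ (l : Fin n) (t : k), (P l).eval t = f (mix a l.val u z ρ (x + t • ρ)) := by
    intro l t
    rw [hP]
    congr 1
    funext s
    unfold mix
    split_ifs <;> simp
  have hzero : ∀ t : k, (ξ x + t) * ∑ l ∈ Finset.univ.filter (fun l : Fin n => a ≤ l.val),
      (P l).eval t = 0 := by
    intro t
    have h1 := tele f a u ρ ξ (x + t • ρ)
    rw [hzt, hf _ (hmem t), hf _ hzR, hξt, sub_zero] at h1
    rw [h1]
    congr 1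
    exact Finset.sum_congr rfl fun l _ => hPm l t
  have hQ : (Polynomial.X + Polynomial.C (ξ x)) *
      ∑ l ∈ Finset.univ.filter (fun l : Fin n => a ≤ l.val), P l = 0 := by
    apply Polynomial.funext
    intro t
    rw [Polynomial.eval_mul, Polynomial.eval_finsetSum]
    simp only [Polynomial.eval_add, Polynomial.eval_X, Polynomial.eval_C, Polynomial.eval_zero]
    rw [add_comm]
    exact hzero t
  have hQ0 := (mul_eq_zero.1 hQ).resolve_left (Polynomial.X_add_C_ne_zero (ξ x))
  have h3 := congrArg (Polynomial.eval 0) hQ0
  rw [Polynomial.eval_finsetSum, Polynomial.eval_zero] at h3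
  rw [← h3]
  refine Finset.sum_congr rfl fun l _ => ?_
  rw [hPm, zero_smul, add_zero]

end Pool.Agent.AX
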