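import Pool.Agent.AX.ColTerm
import Pool.Agent.AX.Tele
import Pool.Agent.AX.AltShift

/-!
The homotopy formula.

Let `Π := Pj ρ ξ`, `H := hi (m + 1) a`, `a = a' + 1 ≤ m`.

Proof of `wone_diag`. Let `x ∈ R`, `Y := dg H y x`. So `Y s = y s` for `s < a`, and `x` for `s ≥ a`.
(1) For `l ≥ a` and `i ≤ a`: `tm w ρ ξ i l Y = ξ (Y i) * w (mix a l (u i) (Π x) ρ x)`, where `u i s`, for
`s < a`, is `Π (y s)` if `s < i`, `Π (y (s + 1))` if `i ≤ s < a - 1`, `Π x` if `i ≤ s = a - 1`
(all these slots are before `l`; for `i = a`: `u a s = Π (y s)`). The values of `u i` at slots `≥ a` are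
irrelevant in `mix`.
(2) `i = a`: `∑ l ≥ a, ξ x * w (mix a l (Π ∘ y) (Π x) ρ x) = w (Π y; x, .., x) - w (Π y; Π x, .., Π x)`
by `tele`. The second value is `w (dg H (Π ∘ y) (Π x))`.
(3) `i < a`: `∑ l ≥ a, w (mix a l (u i) (Π x) ρ x) = - w (u i without the last; ρ; x, .., x)`. By
`tele_zero` with `a - 1` in place of `a` (hypothesis: `w ∈ DG R (hi (m + 1) (a - 1))`), the sum over
`l ≥ a - 1` of `w (mix (a - 1) l (u i) (Π x) ρ x)` is zero; the term `l = a - 1` is
`w (u i 0, .., u i (a - 2), ρ, x, .., x)`, and for `l ≥ a`, `mix (a - 1) l (u i) (Π x) ρ x = mix a l (u i) (Π x) ρ x`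
because `u i (a - 1) = Π x`.
(4) So `wone a w ρ ξ Y` is the sum of (2) and of
`∑ i < a, (-1) ^ (a + i) * ξ (y i) * (- w (Π y 0, .. without i .., Π y (a - 1), ρ, x, .., x))`. Let `A` be the
alternating map of the first `a` arguments of `w`, the others being `x` (`exists_part`). By
`alt_shift` with `n = a - 1` (`(-1) ^ (n + i) = - (-1) ^ (a + i)`; `u i` without the last argument followed
by `ρ` is `Fin.snoc (i.removeNth (Π ∘ y)) ρ`), this is `A y - A (Π ∘ y) = w (y; x..) - w (Π y; x, ..)`.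
(5) The total is `w (y; x, .., x) - w (Π y; Π x, .., Π x)`.
-/

set_option autoImplicit false

namespace Pool.Agent.AX

open Pool.Agent.W3

variable {E : Type*} {k : Type*} [Field k] {m a : ℕ}

private theorem sum_lt {M : Type*} [AddCommMonoid M] {n b : ℕ} (h : b ≤ n) (g : Fin n → M) :
    ∑ i ∈ Finset.univ.filter (fun i : Fin n => i.val < b), g i =
      ∑ i : Fin b, g (Fin.castLE h i) := by
  symm
  refine Finset.sum_bij (fun i _ => Fin.castLE h i) ?_ ?_ ?_ ?_
  · intro i _
    rw [Finset.mem_filter]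
    exact ⟨Finset.mem_univ _, i.2⟩
  · intro i _ j _ hij
    exact Fin.castLE_injective h hij
  · intro i hi'
    rw [Finset.mem_filter] at hi'
    exact ⟨⟨i.val, hi'.2⟩, Finset.mem_univ _, Fin.ext rfl⟩
  · intro i _
    rfl

/-- `Y` without the argument in the slot `i`. -/
private def rm (i : ℕ) (Y : Fin (m + 1) → E → k) (s : Fin (m + 1)) : E → k :=
  if s.val < i then Y s else if h : s.val + 1 < m + 1 then Y ⟨s.val + 1, h⟩ else 0

private theorem dg_lo {y : Fin (m + 1) → E → k} {x : E → k} {s : Fin (m + 1)} (h : s.val < a) :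
    dg (hi (m + 1) a) y x s = y s := by
  unfold dg
  rw [if_neg]
  rw [mem_hi]
  omega

private theorem dg_hi {y : Fin (m + 1) → E → k} {x : E → k} {s : Fin (m + 1)}
    (h : a ≤ s.val) : dg (hi (m + 1) a) y x s = x := by
  unfold dg
  rw [if_pos]
  rw [mem_hi]
  exact h

private theorem rm_remove {i : Fin (m + 1)} (Y : Fin (m + 1) → E → k) (t : Fin m) :
    i.removeNth Y t = rm i.val Y t.castSucc := by
  unfold rm
  have h3 : i.removeNth Y t = Y (i.succAbove t) := rfl
  rw [h3]
  by_cases h : t.castSucc < i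
  · rw [Fin.succAbove_of_castSucc_lt _ _ h]
    rw [if_pos (by rw [Fin.lt_def] at h; exact h)]
  · have h' : i ≤ t.castSucc := not_lt.1 h
    rw [Fin.succAbove_of_le_castSucc _ _ h']
    rw [if_neg (by rw [Fin.lt_def] at h; exact h), dif_pos]
    rfl

private theorem ins_mix {ρ : E → k} {ξ : (E → k) →ₗ[k] k} (y : Fin (m + 1) → E → k) (x : E → k)
    {i l : Fin (m + 1)} (hi' : i.val ≤ a) (hl' : a ≤ l.val) :
    (l.insertNth (α := fun _ => E → k) ρ
      (fun t => if t.castSucc < l then Pj ρ ξ (i.removeNth (dg (hi (m + 1) a) y x) t)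
        else i.removeNth (dg (hi (m + 1) a) y x) t)) =
      mix a l.val (fun s => Pj ρ ξ (rm i.val (dg (hi (m + 1) a) y x) s)) (Pj ρ ξ x) ρ x := by
  have hge : ∀ t : Fin m, a ≤ t.val →
      i.removeNth (dg (hi (m + 1) a) y x) t = x := by
    intro t ht
    have h3 : i.removeNth (dg (hi (m + 1) a) y x) t =
      dg (hi (m + 1) a) y x (i.succAbove t) := rfl
    rw [h3]
    apply dg_hi
    have h4 : i ≤ t.castSucc := by
      rw [Fin.le_def, Fin.val_castSucc]
      omega
    rw [Fin.succAbove_of_le_castSucc _ _ h4, Fin.val_succ]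
    omega
  rw [Fin.insertNth_eq_iff]
  constructor
  · unfold mix
    rw [if_neg (by omega), if_neg (by omega), if_pos rfl]
  · funext t
    have h3 : l.removeNth (mix a l.val (fun s => Pj ρ ξ (rm i.val (dg (hi (m + 1) a) y x) s))
      (Pj ρ ξ x) ρ x) t = mix a l.val (fun s => Pj ρ ξ (rm i.val (dg (hi (m + 1) a) y x) s))
      (Pj ρ ξ x) ρ x (l.succAbove t) := rfl
    rw [h3]
    unfold mix
    by_cases h : t.castSucc < l
    · rw [Fin.succAbove_of_castSucc_lt _ _ h, if_pos h]
      by_cases h4 : t.val < a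
      · rw [if_pos (by rw [Fin.val_castSucc]; exact h4), rm_remove]
      · rw [if_neg (by rw [Fin.val_castSucc]; exact h4), if_pos (by rw [Fin.lt_def] at h; exact h),
          hge t (by omega)]
    · have h' : l ≤ t.castSucc := not_lt.1 h
      rw [Fin.le_def, Fin.val_castSucc] at h'
      rw [Fin.succAbove_of_le_castSucc _ _ (not_lt.1 h), if_neg h, Fin.val_succ,
        if_neg (by omega), if_neg (by omega), if_neg (by omega), hge t (by omega)]

theorem wone_diag [Infinite k] (ha : 1 ≤ a) (ham : a ≤ m) {R : Submodule k (E → k)}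
    {w : ML k E (Fin (m + 1))} (hw : w ∈ AL k E (hi (m + 1) a))
    (hD : w ∈ DG R (hi (m + 1) (a - 1))) {ρ : E → k} (hρ : ρ ∈ R) {ξ : (E → k) →ₗ[k] k}
    (hξ : ξ ρ = 1) (y : Fin (m + 1) → E → k) {x : E → k} (hx : x ∈ R) :
    w (dg (hi (m + 1) a) y x) = wone a w ρ ξ (dg (hi (m + 1) a) y x) +
      w (dg (hi (m + 1) a) (fun s => Pj ρ ξ (y s)) (Pj ρ ξ x)) := by
  obtain ⟨b, rfl⟩ : ∃ b, a = b + 1 := ⟨a - 1, by omega⟩
  rw [Nat.add_sub_cancel] at hD
  set Y := dg (hi (m + 1) (b + 1)) y x with hY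
  -- the sum over `l` for fixed `i`
  have hwone : wone (b + 1) w ρ ξ Y =
      ∑ i ∈ Finset.univ.filter (fun i : Fin (m + 1) => i.val ≤ b + 1),
        (-1 : k) ^ (b + 1 + i.val) * (ξ (Y i) *
          ∑ l ∈ Finset.univ.filter (fun l : Fin (m + 1) => b + 1 ≤ l.val),
            w (mix (b + 1) l.val (fun s => Pj ρ ξ (rm i.val Y s)) (Pj ρ ξ x) ρ x)) := by
    unfold wone
    rw [Finset.sum_comm, sum_apply]
    refine Finset.sum_congr rfl fun i hi' => ?_
    rw [Finset.mem_filter] at hi'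
    rw [sum_apply, Finset.mul_sum, Finset.mul_sum]
    refine Finset.sum_congr rfl fun l hl' => ?_
    rw [Finset.mem_filter] at hl'
    rw [smul_apply, smul_eq_mul, tm_apply, hl_apply, hY, ins_mix y x hi'.2 hl'.2]
  -- split off the term `i = a`
  have hsplit : Finset.univ.filter (fun i : Fin (m + 1) => i.val ≤ b + 1) =
      insert (⟨b + 1, by omega⟩ : Fin (m + 1))
        (Finset.univ.filter (fun i : Fin (m + 1) => i.val < b + 1)) := by
    ext i
    rw [Finset.mem_insert, Finset.mem_filter, Finset.mem_filter, Fin.ext_iff]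
    simp only [Finset.mem_univ, true_and]
    omega
  have hnot : (⟨b + 1, by omega⟩ : Fin (m + 1)) ∉
      (Finset.univ.filter (fun i : Fin (m + 1) => i.val < b + 1)) := by
    rw [Finset.mem_filter]
    simp
  rw [hsplit, Finset.sum_insert hnot, sum_lt (show b + 1 ≤ m + 1 by omega)] at hwone
  -- the term `i = a`
  have hP : ∀ z : E → k, z - ξ z • ρ = Pj ρ ξ z := fun z => (Pj_apply ρ ξ z).symm
  have hA1 : ξ (Y ⟨b + 1, by omega⟩) *
      ∑ l ∈ Finset.univ.filter (fun l : Fin (m + 1) => b + 1 ≤ l.val),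
        w (mix (b + 1) l.val (fun s => Pj ρ ξ (rm (b + 1) Y s)) (Pj ρ ξ x) ρ x) =
      w (dg (hi (m + 1) (b + 1)) (fun s => Pj ρ ξ (y s)) x) -
        w (dg (hi (m + 1) (b + 1)) (fun s => Pj ρ ξ (y s)) (Pj ρ ξ x)) := by
    have h1 := tele w (b + 1) (fun s => Pj ρ ξ (rm (b + 1) Y s)) ρ ξ x
    rw [hP] at h1
    have h2 : Y ⟨b + 1, by omega⟩ = x := dg_hi (le_refl _)
    rw [h2, ← h1]
    have h3 : ∀ z : E → k, (fun s : Fin (m + 1) => if s.val < b + 1 then
        Pj ρ ξ (rm (b + 1) Y s) else z) =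
        dg (hi (m + 1) (b + 1)) (fun s => Pj ρ ξ (y s)) z := by
      intro z
      funext s
      by_cases h4 : s.val < b + 1
      · rw [if_pos h4, dg_lo h4]
        unfold rm
        rw [if_pos h4, hY, dg_lo h4]
      · rw [if_neg h4, dg_hi (by omega)]
    rw [h3, h3]
  -- the terms `i < a`
  have hA2 : ∀ i : Fin (b + 1),
      ∑ l ∈ Finset.univ.filter (fun l : Fin (m + 1) => b + 1 ≤ l.val),
        w (mix (b + 1) l.val (fun s => Pj ρ ξ (rm i.val Y s)) (Pj ρ ξ x) ρ x) =
      - w (mix b b (fun s => Pj ρ ξ (rm i.val Y s)) (Pj ρ ξ x) ρ x) := by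
    intro i
    have h1 := tele_zero R w b (fun s => Pj ρ ξ (rm i.val Y s)) hρ hξ (by
      intro z hz
      have h2 := hD (fun s => Pj ρ ξ (rm i.val Y s)) z hz
      rw [← h2]
      congr 1
      funext s
      by_cases h4 : s.val < b
      · rw [if_pos h4, dg_lo h4]
      · rw [if_neg h4, dg_hi (by omega)]) hx
    rw [hP] at h1
    have hsp : Finset.univ.filter (fun l : Fin (m + 1) => b ≤ l.val) =
        insert (⟨b, by omega⟩ : Fin (m + 1))
          (Finset.univ.filter (fun l : Fin (m + 1) => b + 1 ≤ l.val)) := by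
      ext l
      rw [Finset.mem_insert, Finset.mem_filter, Finset.mem_filter, Fin.ext_iff]
      simp only [Finset.mem_univ, true_and]
      omega
    have hnt : (⟨b, by omega⟩ : Fin (m + 1)) ∉
        (Finset.univ.filter (fun l : Fin (m + 1) => b + 1 ≤ l.val)) := by
      rw [Finset.mem_filter]
      simp
    rw [hsp, Finset.sum_insert hnt] at h1
    rw [eq_neg_iff_add_eq_zero, add_comm, ← h1]
    congr 1
    refine Finset.sum_congr rfl fun l hl' => ?_
    rw [Finset.mem_filter] at hl'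
    congr 1
    funext s
    unfold mix
    by_cases h5 : s.val < b
    · rw [if_pos (by omega), if_pos h5]
    · by_cases h6 : s.val = b
      · rw [if_pos (by omega), if_neg h5, if_pos (by omega)]
        unfold rm
        beta_reduce
        rw [if_neg (by omega), dif_pos (by omega), hY, dg_hi]
        change b + 1 ≤ s.val + 1
        omega
      · rw [if_neg (by omega), if_neg h5]
  -- the alternating function of the first arguments
  obtain ⟨A, hA⟩ := exists_part (show b + 1 ≤ m + 1 by omega) hw (fun _ => x)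
  have hA3 := alt_shift A ρ ξ (fun s : Fin (b + 1) => y (Fin.castLE (by omega) s))
  have hcomb : ∀ z : Fin (m + 1) → E → k,
      comb (b + 1) (fun s : Fin (b + 1) => z (Fin.castLE (by omega) s)) (fun _ => x) =
        dg (hi (m + 1) (b + 1)) z x := by
    intro z
    funext s
    unfold comb
    by_cases h4 : s.val < b + 1
    · rw [dif_pos h4, dg_lo h4]
      rfl
    · rw [dif_neg h4, dg_hi (by omega)]
  simp only [hP] at hA3
  rw [hA, hA, hcomb y, hcomb (fun s => Pj ρ ξ (y s))] at hA3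
  have hsn : ∀ i : Fin (b + 1), A (Fin.snoc (α := fun _ => E → k) (i.removeNth
      (fun s : Fin (b + 1) => Pj ρ ξ (y (Fin.castLE (by omega) s)))) ρ) =
      w (mix b b (fun s => Pj ρ ξ (rm i.val Y s)) (Pj ρ ξ x) ρ x) := by
    intro i
    rw [hA]
    congr 1
    funext s
    unfold comb mix
    by_cases h5 : s.val < b
    · rw [dif_pos (by omega), if_pos h5]
      have h6 : (⟨s.val, by omega⟩ : Fin (b + 1)) = Fin.castSucc ⟨s.val, h5⟩ := Fin.ext rfl
      rw [h6, Fin.snoc_castSucc]
      have h7 : i.removeNth (fun s : Fin (b + 1) => Pj ρ ξ (y (Fin.castLE (by omega) s)))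
        ⟨s.val, h5⟩ = Pj ρ ξ (y (Fin.castLE (by omega) (i.succAbove ⟨s.val, h5⟩))) := rfl
      rw [h7]
      congr 1
      unfold rm
      by_cases h8 : s.val < i.val
      · rw [if_pos h8, hY, dg_lo (by omega), Fin.succAbove_of_castSucc_lt _ _ h8]
        congr 1
      · rw [if_neg h8, dif_pos (by omega), hY, dg_lo (by
          change s.val + 1 < b + 1
          omega), Fin.succAbove_of_le_castSucc _ _ (by
          rw [Fin.le_def]
          change i.val ≤ s.val
          omega)]
        congr 1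
    · by_cases h6 : s.val = b
      · rw [dif_pos (by omega), if_neg h5, if_neg h5, if_pos h6]
        have h7 : (⟨s.val, by omega⟩ : Fin (b + 1)) = Fin.last b := Fin.ext h6
        rw [h7, Fin.snoc_last]
      · rw [dif_neg (by omega), if_neg h5, if_neg h5, if_neg h6]
  simp only [hsn] at hA3
  rw [hwone, hA1]
  have hev : (-1 : k) ^ (b + 1 + (b + 1)) = 1 := by
    rw [← two_mul, pow_mul]
    simp
  have hev' : (-1 : k) ^ (b + 1 + (⟨b + 1, by omega⟩ : Fin (m + 1)).val) = 1 := hev
  rw [hev', one_mul, hA3]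
  have hsum : ∑ i : Fin (b + 1), (-1 : k) ^ (b + 1 + (Fin.castLE (show b + 1 ≤ m + 1 by omega) i).val) *
      (ξ (Y (Fin.castLE (by omega) i)) *
        ∑ l ∈ Finset.univ.filter (fun l : Fin (m + 1) => b + 1 ≤ l.val),
          w (mix (b + 1) l.val (fun s => Pj ρ ξ (rm (Fin.castLE (show b + 1 ≤ m + 1 by omega) i).val Y s))
            (Pj ρ ξ x) ρ x)) =
      ∑ i : Fin (b + 1), (-1 : k) ^ (b + i.val) * (ξ (y (Fin.castLE (by omega) i)) *
        w (mix b b (fun s => Pj ρ ξ (rm i.val Y s)) (Pj ρ ξ x) ρ x)) := by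
    refine Finset.sum_congr rfl fun i _ => ?_
    have h1 := hA2 i
    have h2 : (Fin.castLE (show b + 1 ≤ m + 1 by omega) i).val = i.val := rfl
    rw [h2, h1, hY, dg_lo (show (Fin.castLE (show b + 1 ≤ m + 1 by omega) i).val < b + 1 from i.2)]
    rw [show b + 1 + i.val = (b + i.val) + 1 by omega, pow_succ]
    ring
  rw [hsum]
  ring

end Pool.Agent.AX
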