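import Pool.Agent.AX.WoneAl
import Pool.Agent.AX.WoneDiag
import Pool.Agent.AX.Coord

/-!
Columns.

Proof of `col_step`. `m = m' + 1`. Induction on `finrank k R` (for all `w`). If `R = ⊥` then `w' := 0`: for
`x ∈ R`, `x = 0` and `w (dg (hi m a) y 0) = 0`, because some argument is zero (`a < m`).
Otherwise let `ρ ∈ R`, `ρ ≠ 0`, `ξ` as in `pick` for the chain of the `van k F.1`, `F ∈ c` (image of `c`),
`Π := Pj ρ ξ`, `R' := R.map Π = R ⊓ ker ξ` (or define `R' := R ⊓ ker ξ`), `finrank k R' < finrank k R` (`ρ ∈ R`,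
`ρ ∉ R'`). Let `w2 := w.compLinearMap (fun _ => Π)`. It is in `AL`, in `JF Ω F` for `F ∈ c` (`Π` maps `van F` into
itself, `proj_mem`), and in `DG R' (hi m (a - 1))`: for `x ∈ R'`, `w2 (dg .. y x) = w (dg .. (Π ∘ y) (Π x))`,
`Π x ∈ R`. The induction hypothesis gives `w3` with `w2 - w3 ∈ DG R' (hi m a)`. Put
`w' := wone a w ρ ξ + w3.compLinearMap (fun _ => Π)`. `wone_al`, `wone_jf`. For `x ∈ R`:
`w3 (dg H (Π ∘ y) (Π x)) = w2 (dg H (Π ∘ y) (Π x)) = w (dg H (Π ∘ y) (Π x))` (`Π x ∈ R'`, `Π (Π z) = Π z` since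
`ξ ρ = 1`), and by `wone_diag`, `w (dg H y x) = w' (dg H y x)`.
-/

set_option autoImplicit false

namespace Pool.Agent.AX

open Pool.Agent.W3

variable {E : Type*} [Fintype E] {Ω : Matroid E} {k : Type*} [Field k] {m a : ℕ}

private theorem comp_dg {ι : Type*} [Fintype ι] [DecidableEq ι] (S : Finset ι)
    (y : ι → E → k) (x : E → k) (f : (E → k) →ₗ[k] (E → k)) :
    (fun s => f (dg S y x s)) = dg S (fun s => f (y s)) (f x) := by
  funext s
  unfold dg
  split_ifs <;> rfl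

private theorem comp_al {ι : Type*} [Fintype ι] [DecidableEq ι] {S : Finset ι}
    {w : ML k E ι} (hw : w ∈ AL k E S) (f : (E → k) →ₗ[k] (E → k)) :
    w.compLinearMap (fun _ => f) ∈ AL k E S := by
  intro y s s' h1 h2 h3 h4
  rw [MultilinearMap.compLinearMap_apply]
  exact hw (fun i => f (y i)) s s' h1 h2 h3 (by simp only [h4])

private theorem comp_jf {ι : Type*} [Fintype ι] {F : PF Ω} {w : ML k E ι} (hw : w ∈ JF Ω F)
    {f : (E → k) →ₗ[k] (E → k)} (hf : ∀ x ∈ van k F.1, f x ∈ van k F.1) :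
    w.compLinearMap (fun _ => f) ∈ JF Ω F := by
  classical
  intro y hy
  rw [MultilinearMap.compLinearMap_apply]
  refine hw (fun i => f (y i)) (hy.trans ?_)
  refine Nat.add_le_add_left ?_ _
  unfold nv
  refine Finset.card_le_card ?_
  intro s hs
  rw [Finset.mem_filter] at hs ⊢
  exact ⟨hs.1, hf _ hs.2⟩

theorem col_step [Infinite k] (ha : 1 ≤ a) (ham : a < m) (c : Finset (PF Ω))
    (hc : IsChain (· ≤ ·) (c : Set (PF Ω))) (R : Submodule k (E → k)) (w : ML k E (Fin m))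
    (hw : w ∈ AL k E (hi m a)) (hD : w ∈ DG R (hi m (a - 1))) (hJ : ∀ F ∈ c, w ∈ JF Ω F) :
    ∃ w' : ML k E (Fin m), w' ∈ AL k E (hi m (a + 1)) ∧ (∀ F ∈ c, w' ∈ JF Ω F) ∧
      w - w' ∈ DG R (hi m a) := by
  classical
  obtain ⟨n, hn⟩ : ∃ n, Module.finrank k R ≤ n := ⟨_, le_rfl⟩
  obtain ⟨m', rfl⟩ : ∃ m', m = m' + 1 := ⟨m - 1, by omega⟩
  have hbot : ∀ u : ML k E (Fin (m' + 1)), u ∈ DG (⊥ : Submodule k (E → k)) (hi (m' + 1) a) := by
    intro u y x hx
    rw [Submodule.mem_bot] at hx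
    refine u.map_coord_zero (⟨a, ham⟩ : Fin (m' + 1)) ?_
    unfold dg
    rw [if_pos (mem_hi.mpr (le_refl a)), hx]
  have hbot2 : R = ⊥ → ∃ w' : ML k E (Fin (m' + 1)), w' ∈ AL k E (hi (m' + 1) (a + 1)) ∧
      (∀ F ∈ c, w' ∈ JF Ω F) ∧ w - w' ∈ DG R (hi (m' + 1) a) := by
    intro hR
    refine ⟨0, Submodule.zero_mem _, fun F _ => Submodule.zero_mem _, ?_⟩
    rw [sub_zero, hR]
    exact hbot w
  induction n generalizing R w with
  | zero =>
    apply hbot2
    have h0 : Module.finrank k R = 0 := by omega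
    exact Submodule.finrank_eq_zero.mp h0
  | succ n ih =>
    by_cases hR : R = ⊥
    · exact hbot2 hR
    obtain ⟨ρ, hρR, hρ0⟩ := Submodule.exists_mem_ne_zero_of_ne_bot hR
    have hWs : IsChain (· ≤ ·)
        ((c.image (fun F : PF Ω => van k F.1) : Finset (Submodule k (E → k))) :
          Set (Submodule k (E → k))) := by
      intro A hA B hB hAB
      rw [Finset.mem_coe, Finset.mem_image] at hA hB
      obtain ⟨F, hF, rfl⟩ := hA
      obtain ⟨G, hG, rfl⟩ := hB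
      have hFG : F ≠ G := by
        rintro rfl
        exact hAB rfl
      rcases hc (Finset.mem_coe.mpr hF) (Finset.mem_coe.mpr hG) hFG with h | h
      · right
        intro x hx e he
        exact hx e (h he)
      · left
        intro x hx e he
        exact hx e (h he)
    obtain ⟨ξ, hξ1, hξ⟩ := pick _ hWs hρ0
    have hξF : ∀ F ∈ c, ρ ∈ van k F.1 ∨ ∀ x ∈ van k F.1, ξ x = 0 := fun F hF =>
      hξ _ (Finset.mem_image_of_mem _ hF)
    have hPF : ∀ F ∈ c, ∀ x ∈ van k F.1, Pj ρ ξ x ∈ van k F.1 := by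
      intro F hF x hx
      rw [Pj_apply]
      exact proj_mem (hξF F hF) hx
    have hPR : ∀ x ∈ R, Pj ρ ξ x ∈ R := by
      intro x hx
      rw [Pj_apply]
      exact sub_mem hx (R.smul_mem _ hρR)
    have hPker : ∀ x, ξ (Pj ρ ξ x) = 0 := by
      intro x
      rw [Pj_apply, map_sub, map_smul, hξ1, smul_eq_mul, mul_one, sub_self]
    have hPP : ∀ x, Pj ρ ξ (Pj ρ ξ x) = Pj ρ ξ x := by
      intro x
      rw [Pj_apply (x := Pj ρ ξ x), hPker, zero_smul, sub_zero]
    have hlt : R ⊓ LinearMap.ker ξ < R := by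
      refine lt_of_le_of_ne inf_le_left ?_
      intro h
      have h1 : ρ ∈ R ⊓ LinearMap.ker ξ := by
        rw [h]
        exact hρR
      have h2 : ξ ρ = 0 := LinearMap.mem_ker.mp h1.2
      rw [hξ1] at h2
      exact one_ne_zero h2
    have hfr := Submodule.finrank_lt_finrank_of_lt hlt
    have hw2D : w.compLinearMap (fun _ => Pj ρ ξ) ∈
        DG (R ⊓ LinearMap.ker ξ) (hi (m' + 1) (a - 1)) := by
      intro y x hx
      rw [MultilinearMap.compLinearMap_apply, comp_dg]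
      exact hD _ _ (hPR x hx.1)
    obtain ⟨w3, hw3a, hw3j, hw3d⟩ := ih (R ⊓ LinearMap.ker ξ) (by omega)
      (w.compLinearMap (fun _ => Pj ρ ξ)) (comp_al hw _) hw2D
      (fun F hF => comp_jf (hJ F hF) (hPF F hF)) (by
        intro hb
        refine ⟨0, Submodule.zero_mem _, fun F _ => Submodule.zero_mem _, ?_⟩
        rw [sub_zero, hb]
        exact hbot _)
    refine ⟨wone a w ρ ξ + w3.compLinearMap (fun _ => Pj ρ ξ),
      add_mem (wone_al hw ρ ξ) (comp_al hw3a _),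
      fun F hF => add_mem (wone_jf (hJ F hF) (hξF F hF)) (comp_jf (hw3j F hF) (hPF F hF)), ?_⟩
    intro y x hx
    have h1 := wone_diag ha (Nat.lt_succ_iff.mp ham) hw hD hρR hξ1 y hx
    have h2 := hw3d (fun s => Pj ρ ξ (y s)) (Pj ρ ξ x) ⟨hPR x hx, hPker x⟩
    rw [sub_apply, MultilinearMap.compLinearMap_apply, comp_dg, hPP] at h2
    simp only [hPP] at h2
    rw [sub_apply, add_apply, MultilinearMap.compLinearMap_apply, comp_dg, h1]
    have h3 := sub_eq_zero.mp h2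
    rw [h3]
    ring

end Pool.Agent.AX
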