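import Pool.Agent.AX.Part

/-!
The terms of the homotopy.

`Pj ρ ξ x = x - ξ x • ρ`; `hl w ρ ξ l z = w (l.insertNth ρ (..))`, where the argument `z t` is replaced by
`Pj (z t)` for `t < l`; `tm w ρ ξ i l y = ξ (y i) * hl w ρ ξ l (i.removeNth y)`.

Proofs.
* `hl_apply`, `tm_apply`: by definition (`simp`, `LinearMap.uncurryMid_apply`,
  `MultilinearMap.curryMid_apply_apply`, `compLinearMap_apply`, `LinearMap.smulRight_apply`).
* `hl_al`: for `a ≤ l` the slots `< a` of `l.insertNth ρ ..` are the slots `< a` of the second argument,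
  and there `z t` is replaced by `Pj (z t)`.
* `tm_jf`: let `card ≤ rho F + nv F y`, and suppose `tm .. y ≠ 0`, so `ξ (y i) ≠ 0`. Let
  `Y := l.insertNth ρ (fun t => if t.castSucc < l then Pj (i.removeNth y t) else i.removeNth y t)`. Claim
  `nv F y ≤ nv F Y` (then `w Y = 0`). The slots `≠ i` of `y` correspond to the slots `≠ l` of `Y`
  (`i.succAbove t ↔ l.succAbove t`), and if `y (i.succAbove t) ∈ van F` then `Y (l.succAbove t) ∈ van F`,
  because `Pj` maps `van F` into itself (`hF`). If `y i ∈ van F` then, since `ξ (y i) ≠ 0`,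
  `ρ ∈ van F` by `hF`, and `Y l = ρ`. (Write `nv` as a sum over the slots and use
  `Fin.sum_univ_succAbove` for `i` and for `l`.)
* `wone_jf`: sums.
-/

set_option autoImplicit false

namespace Pool.Agent.AX

open Pool.Agent.W3

variable {E : Type*} {k : Type*} [Field k] {m a : ℕ}

/-- The projection along `ρ`. -/
noncomputable def Pj (ρ : E → k) (ξ : (E → k) →ₗ[k] k) : (E → k) →ₗ[k] (E → k) :=
  LinearMap.id - ξ.smulRight ρ

theorem Pj_apply (ρ : E → k) (ξ : (E → k) →ₗ[k] k) (x : E → k) :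
    Pj ρ ξ x = x - ξ x • ρ := by
  simp [Pj]

/-- `ρ` is inserted in the slot `l`, the arguments before it are projected. -/
noncomputable def hl (w : ML k E (Fin (m + 1))) (ρ : E → k) (ξ : (E → k) →ₗ[k] k)
    (l : Fin (m + 1)) : ML k E (Fin m) :=
  ((w.curryMid l) ρ).compLinearMap
    (fun t : Fin m => if t.castSucc < l then Pj ρ ξ else LinearMap.id)

/-- The term of `i` and `l`. -/
noncomputable def tm (w : ML k E (Fin (m + 1))) (ρ : E → k) (ξ : (E → k) →ₗ[k] k)
    (i l : Fin (m + 1)) : ML k E (Fin (m + 1)) :=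
  LinearMap.uncurryMid i (ξ.smulRight (hl w ρ ξ l))

/-- The sum of the terms. -/
noncomputable def wone (a : ℕ) (w : ML k E (Fin (m + 1))) (ρ : E → k) (ξ : (E → k) →ₗ[k] k) :
    ML k E (Fin (m + 1)) :=
  ∑ l ∈ Finset.univ.filter (fun l : Fin (m + 1) => a ≤ l.val),
    ∑ i ∈ Finset.univ.filter (fun i : Fin (m + 1) => i.val ≤ a),
      ((-1 : k) ^ (a + i.val)) • tm w ρ ξ i l

theorem hl_apply (w : ML k E (Fin (m + 1))) (ρ : E → k) (ξ : (E → k) →ₗ[k] k)
    (l : Fin (m + 1)) (z : Fin m → E → k) :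
    hl w ρ ξ l z = w (l.insertNth (α := fun _ => E → k) ρ
      (fun t => if t.castSucc < l then Pj ρ ξ (z t) else z t)) := by
  unfold hl
  rw [MultilinearMap.compLinearMap_apply, MultilinearMap.curryMid_apply_apply]
  congr 1
  congr 1
  funext t
  by_cases h : t.castSucc < l
  · rw [if_pos h, if_pos h]
  · rw [if_neg h, if_neg h]
    rfl

theorem tm_apply (w : ML k E (Fin (m + 1))) (ρ : E → k) (ξ : (E → k) →ₗ[k] k)
    (i l : Fin (m + 1)) (y : Fin (m + 1) → E → k) :
    tm w ρ ξ i l y = ξ (y i) * hl w ρ ξ l (i.removeNth y) := by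
  unfold tm
  rw [LinearMap.uncurryMid_apply, LinearMap.smulRight_apply, MultilinearMap.smul_apply,
    smul_eq_mul]

theorem hl_al {w : ML k E (Fin (m + 1))} (hw : w ∈ AL k E (hi (m + 1) a)) (ρ : E → k)
    (ξ : (E → k) →ₗ[k] k) {l : Fin (m + 1)} (hl' : a ≤ l.val) :
    hl w ρ ξ l ∈ AL k E (hi m a) := by
  intro z s s' hs hs' hne hz
  rw [mem_hi] at hs hs'
  rw [hl_apply]
  have key : ∀ t : Fin m, ¬ a ≤ t.val →
      t.castSucc < l ∧ l.succAbove t = t.castSucc := by
    intro t ht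
    have h1 : t.castSucc < l := by
      rw [Fin.lt_def, Fin.val_castSucc]
      omega
    exact ⟨h1, Fin.succAbove_of_castSucc_lt _ _ h1⟩
  obtain ⟨h1, h1'⟩ := key s hs
  obtain ⟨h2, h2'⟩ := key s' hs'
  refine hw _ s.castSucc s'.castSucc ?_ ?_ ?_ ?_
  · rw [mem_hi, Fin.val_castSucc]
    exact hs
  · rw [mem_hi, Fin.val_castSucc]
    exact hs'
  · intro h
    exact hne (Fin.castSucc_injective _ h)
  · rw [← h1', ← h2', Fin.insertNth_apply_succAbove, Fin.insertNth_apply_succAbove,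
      if_pos h1, if_pos h2, hz]

theorem tm_jf {Ω : Matroid E} {F : PF Ω} {w : ML k E (Fin (m + 1))} (hw : w ∈ JF Ω F)
    {ρ : E → k} {ξ : (E → k) →ₗ[k] k} (hF : ρ ∈ van k F.1 ∨ ∀ x ∈ van k F.1, ξ x = 0)
    (i l : Fin (m + 1)) : tm w ρ ξ i l ∈ JF Ω F := by
  classical
  intro y hy
  rw [tm_apply]
  by_cases h0 : ξ (y i) = 0
  · rw [h0, zero_mul]
  rw [hl_apply]
  have hP : ∀ x ∈ van k F.1, Pj ρ ξ x ∈ van k F.1 := by
    intro x hx
    rw [Pj_apply]
    rcases hF with h | h
    · exact Submodule.sub_mem _ hx (Submodule.smul_mem _ _ h)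
    · rw [h x hx, zero_smul, sub_zero]
      exact hx
  have hle : nv F.1 y ≤ nv F.1 (l.insertNth (α := fun _ => E → k) ρ
      (fun t => if t.castSucc < l then Pj ρ ξ (i.removeNth y t) else i.removeNth y t)) := by
    have hnv : ∀ Y : Fin (m + 1) → E → k, nv F.1 Y =
        ∑ s : Fin (m + 1), if Y s ∈ van k F.1 then 1 else 0 := by
      intro Y
      unfold nv
      rw [Finset.card_filter]
    rw [hnv, hnv, Fin.sum_univ_succAbove _ i, Fin.sum_univ_succAbove _ l]
    apply Nat.add_le_add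
    · rw [Fin.insertNth_apply_same]
      by_cases h1 : y i ∈ van k F.1
      · have h2 : ρ ∈ van k F.1 := by
          rcases hF with h | h
          · exact h
          · exact absurd (h _ h1) h0
        rw [if_pos h1, if_pos h2]
      · rw [if_neg h1]
        exact Nat.zero_le _
    · refine Finset.sum_le_sum fun t _ => ?_
      rw [Fin.insertNth_apply_succAbove]
      have h3 : i.removeNth y t = y (i.succAbove t) := rfl
      rw [h3]
      by_cases h1 : y (i.succAbove t) ∈ van k F.1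
      · rw [if_pos h1]
        by_cases h2 : t.castSucc < l
        · rw [if_pos h2, if_pos (hP _ h1)]
        · rw [if_neg h2, if_pos h1]
      · rw [if_neg h1]
        exact Nat.zero_le _
  rw [hw _ (le_trans hy (Nat.add_le_add_left hle _)), mul_zero]

theorem wone_jf {Ω : Matroid E} {F : PF Ω} {w : ML k E (Fin (m + 1))} (hw : w ∈ JF Ω F)
    {ρ : E → k} {ξ : (E → k) →ₗ[k] k} (hF : ρ ∈ van k F.1 ∨ ∀ x ∈ van k F.1, ξ x = 0) :
    wone a w ρ ξ ∈ JF Ω F := by
  unfold wone
  exact Submodule.sum_mem _ fun l _ => Submodule.sum_mem _ fun i _ =>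
    Submodule.smul_mem _ _ (tm_jf hw hF i l)

end Pool.Agent.AX
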