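import Pool.Agent.AX.Defs
import Pool.Agent.W3.Det

/-!
An alternating multilinear extension of `gf` which vanishes on relations: then `chi` is constant.

Proofs.
* `gf_eq`: a function with `a t = a t'`, `t ≠ t'`, is not injective.
* `gf_swap`: `range (a ∘ swap) = range a`, injectivity is equivalent; `AlternatingMap.map_swap` for
  `b.det`.
* `chi_const2`: as `chi_fact` and `chi_const` in W3/Det, without the antisymmetrisation. Let
  `λ := Fintype.linearCombination k v`, surjective by `hspan`, `σ` a linear right inverse, and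
  `G' := G.compLinearMap (fun _ => σ)`; `G' (v ∘ a) = G (fun s => Pi.single (a s) 1)` by `ml_congr`.
  `G'` is alternating since `G` is (`y s = y s'` implies `σ (y s) = σ (y s')`): let `Λ` be the alternating map
  with the multilinear map `G'`. `Λ = Λ b • b.det` (`AlternatingMap.eq_smul_basis_det`). If `a` is
  injective and `range a` is a base of `Ω` then `Λ (v ∘ a) = gf a = chi (range a) * b.det (v ∘ a)`; if
  it is also a base of `N` the determinant is not zero (`det_of_base`), so `chi (range a) = Λ b`. Apply
  this to enumerations of `B` and `B'` (`exists_enum`).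
-/

set_option autoImplicit false

namespace Pool.Agent.AX

open Set Pool.Agent.W3

variable {E : Type*} [Fintype E] [DecidableEq E] {N Ω : Matroid E} {q : ℕ} {k T : Type*}
  [Field k] [AddCommGroup T] [Module k T] {v : E → T} {ι : Type*} [Fintype ι] [DecidableEq ι]

theorem gf_eq (b : Module.Basis ι k T) {P0 : Fin (q + 1) → Set E} (a : ι → E) (t t' : ι)
    (h : t ≠ t') (ha : a t = a t') : gf N Ω P0 v b a = 0 := by
  unfold gf
  rw [if_neg]
  rintro ⟨hinj, -⟩
  exact h (hinj ha)

theorem gf_swap (b : Module.Basis ι k T) {P0 : Fin (q + 1) → Set E} (a : ι → E) (t t' : ι)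
    (h : t ≠ t') : gf N Ω P0 v b (fun s => a (Equiv.swap t t' s)) = - gf N Ω P0 v b a := by
  have hcomp : (fun s => a (Equiv.swap t t' s)) = a ∘ (Equiv.swap t t') := rfl
  have hr : range (fun s => a (Equiv.swap t t' s)) = range a := by
    rw [hcomp, (Equiv.swap t t').surjective.range_comp]
  have hi : Function.Injective (fun s => a (Equiv.swap t t' s)) ↔ Function.Injective a := by
    rw [hcomp]
    constructor
    · intro hj x y hxy
      have h1 := @hj (Equiv.swap t t' x) (Equiv.swap t t' y) (by simpa using hxy)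
      simpa using h1
    · intro hj
      exact hj.comp (Equiv.swap t t').injective
  have hdet : b.det (fun s => v (a (Equiv.swap t t' s))) = - b.det (fun s => v (a s)) :=
    b.det.map_swap (fun s => v (a s)) h
  unfold gf
  by_cases hc : Function.Injective a ∧ Ω.IsBase (range a)
  · rw [if_pos ⟨hi.2 hc.1, by rw [hr]; exact hc.2⟩, if_pos hc, hr, hdet, mul_neg]
  · rw [if_neg (fun h' => hc ⟨hi.1 h'.1, by rw [← hr]; exact h'.2⟩), if_neg hc, neg_zero]

theorem chi_const2 (hN : N.E = univ) (hv : IsRep k N v)
    (hspan : Submodule.span k (range v) = ⊤) (hrk : Ω.eRank = Fintype.card ι)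
    (b : Module.Basis ι k T) {P0 : Fin (q + 1) → Set E} {G : ML k E ι}
    (halt : G ∈ AL k E (∅ : Finset ι)) (hG : G ∈ TT (Rel k v) Finset.univ)
    (hGg : ∀ a : ι → E, Function.Injective a → Ω.IsBase (range a) →
      G (fun s => Pi.single (a s) 1) = gf N Ω P0 v b a)
    {B B' : Set E} (hB : N.IsBase B) (hB' : N.IsBase B') (hΩB : Ω.IsBase B)
    (hΩB' : Ω.IsBase B') : chi k N P0 B = chi k N P0 B' := by
  have hsurj : LinearMap.range (Fintype.linearCombination k v) = ⊤ := by
    rw [Fintype.range_linearCombination, hspan]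
  obtain ⟨σ, hσ⟩ := LinearMap.exists_rightInverse_of_surjective
    (Fintype.linearCombination k v) hsurj
  have hσ' : ∀ w, Fintype.linearCombination k v (σ w) = w := fun w => by
    have := LinearMap.congr_fun hσ w
    simpa using this
  let Λ : T [⋀^ι]→ₗ[k] k :=
    { G.compLinearMap (fun _ => σ) with
      map_eq_zero_of_eq' := by
        intro y s s' h1 h2
        exact halt (fun s => σ (y s)) s s' (Finset.notMem_empty _) (Finset.notMem_empty _) h2
          (congrArg σ h1) }
  have hΛ : ∀ y : ι → T, Λ y = G (fun s => σ (y s)) := fun y => rfl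
  have h1 : ∀ a : ι → E, Λ (fun s => v (a s)) = G (fun s => Pi.single (a s) 1) := by
    intro a
    rw [hΛ]
    refine ml_congr (Pool.Agent.W3.Rel k v) G hG _ _ fun s => ?_
    unfold Pool.Agent.W3.Rel
    rw [LinearMap.mem_ker, map_sub, hσ', Fintype.linearCombination_apply_single, one_smul,
      sub_self]
  have h2 : ∀ a : ι → E, Function.Injective a → Ω.IsBase (range a) →
      b.det (fun s => v (a s)) ≠ 0 → chi k N P0 (range a) = Λ b := by
    intro a ha hΩ hdet
    have h3 := h1 a
    rw [hGg a ha hΩ] at h3
    unfold gf at h3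
    rw [if_pos ⟨ha, hΩ⟩] at h3
    have h4 : Λ (fun s => v (a s)) = Λ b * b.det (fun s => v (a s)) := by
      conv_lhs => rw [AlternatingMap.eq_smul_basis_det b Λ]
      rfl
    rw [h4] at h3
    exact (mul_right_cancel₀ hdet h3).symm
  obtain ⟨a, ha, rfl⟩ := exists_enum (ι := ι) hΩB hrk
  obtain ⟨a', ha', rfl⟩ := exists_enum (ι := ι) hΩB' hrk
  rw [h2 a ha hΩB (det_of_base hN hv b ha hB), h2 a' ha' hΩB' (det_of_base hN hv b ha' hB')]

end Pool.Agent.AX
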