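import Pool.Agent.AX.Lifting
import Pool.Agent.AX.Det2
import Pool.Agent.Q2.Core2

/-!
Partitions of the ground set of a matroid which is represented over an infinite field of
characteristic different from two are connected.

Compare Q2/Core2.
-/

set_option autoImplicit false

namespace Pool.Agent.AX

open Set Pool.Agent.W3

variable {E : Type*} [Fintype E] {N : Matroid E} {q : ℕ} {k T : Type*}
  [Field k] [AddCommGroup T] [Module k T] {v : E → T}

theorem core3_span [Infinite k] (h2 : (2 : k) ≠ 0) (hN : N.E = univ) (hv : IsRep k N v)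
    (hspan : Submodule.span k (range v) = ⊤) (hq : 2 ≤ q)
    (P Q : Fin (q + 1) → Set E)
    (hP : Pool.Agent.WD.IsPartn N univ P) (hQ : Pool.Agent.WD.IsPartn N univ Q) :
    Relation.ReflTransGen (Pool.Agent.WD.Share N univ) P Q := by
  classical
  rcases Nat.eq_zero_or_pos (P 0).ncard with h0 | hm
  · have hcard : ∀ B, N.IsBase B → B = ∅ := by
      intro B hB
      have h1 : (P 0) = ∅ := (Set.ncard_eq_zero (Set.toFinite _)).1 h0
      have h3 := hB.encard_eq_encard_of_isBase (hP.1.1 0)
      rw [h1, Set.encard_empty, Set.encard_eq_zero] at h3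
      exact h3
    have : P = Q := by
      funext i
      rw [hcard _ (hP.1.1 i), hcard _ (hQ.1.1 i)]
    rw [this]
  obtain ⟨Ω, hc⟩ := exists_compl (q := q) hN ⟨P 0, _, state_of_partn hP 0⟩
  have hB0 : N.IsBase (P 0) := hP.1.1 0
  have hQ0 : N.IsBase (Q 0) := hQ.1.1 0
  have hΩP : Ω.IsBase (P 0) := (hc.base _).2 ⟨_, state_of_partn hP 0⟩
  have hΩQ : Ω.IsBase (Q 0) := (hc.base _).2 ⟨_, state_of_partn hQ 0⟩
  obtain ⟨m, hmP⟩ : ∃ m, m = (P 0).ncard := ⟨_, rfl⟩
  have hrk : Ω.eRank = m := by
    rw [← hΩP.encard_eq_eRank, hmP, Set.Finite.cast_ncard_eq (Set.toFinite _)]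
  have hrk' : Ω.eRank = Fintype.card (Fin m) := by rw [hrk, Fintype.card_fin]
  let _ : Fintype ↥(P 0) := Fintype.ofFinite _
  have hcard : Fintype.card ↥(P 0) = m := by
    rw [hmP, ← Nat.card_eq_fintype_card, Nat.card_coe_set_eq]
  have hli : LinearIndependent k (fun x : ↥(P 0) => v x) := (hv (P 0)).1 hB0.indep
  have hsp : ⊤ ≤ Submodule.span k (range (fun x : ↥(P 0) => v x)) := by
    rw [← hspan, Submodule.span_le]
    rintro _ ⟨e, rfl⟩
    have he : e ∈ N.closure (P 0) := by
      rw [hB0.closure_eq, hN]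
      exact mem_univ e
    have h1 := (mem_closure_iff hN hv (P 0) e).1 he
    rw [image_eq_range] at h1
    exact h1
  let b : Module.Basis (Fin m) k T :=
    (Module.Basis.mk hli hsp).reindex (Fintype.equivFinOfCardEq hcard)
  obtain ⟨G, hG1, hG2, hGg⟩ := lifting_alt hc hv hq h2 (by omega) hrk (gf N Ω P v b)
    (fun a t t' h ha => gf_eq b a t t' h ha) (fun a t t' h => gf_swap b a t t' h)
    (fun a ha => by
      unfold gf at ha
      by_contra h
      rw [if_neg h] at ha
      exact ha rfl)
    (fun s a ha hA L hL => gf_LL hc hv (by omega) hrk' b hP s a ha hA L hL)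
  have h1 := chi_const2 hN hv hspan hrk' b hG1 hG2 hGg hB0 hQ0 hΩP hΩQ
  rw [chi_self] at h1
  exact reach_of_chi hP hQ 0 (by rw [← h1]; exact one_ne_zero)

theorem core3 [Infinite k] (h2 : (2 : k) ≠ 0) (hN : N.E = univ) (hv : IsRep k N v)
    (hq : 2 ≤ q) (P Q : Fin (q + 1) → Set E)
    (hP : Pool.Agent.WD.IsPartn N univ P) (hQ : Pool.Agent.WD.IsPartn N univ Q) :
    Relation.ReflTransGen (Pool.Agent.WD.Share N univ) P Q := by
  let v' : E → ↥(Submodule.span k (range v)) := fun e =>
    ⟨v e, Submodule.subset_span ⟨e, rfl⟩⟩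
  have hv' : IsRep k N v' := by
    intro I
    rw [hv I]
    exact (LinearMap.linearIndependent_iff (v := fun x : ↥I => v' x)
      (Submodule.span k (range v)).subtype (Submodule.ker_subtype _))
  have hs' : Submodule.span k (range v') = ⊤ := by
    have h1 : range v' = ((↑) : ↥(Submodule.span k (range v)) → T) ⁻¹' (range v) := by
      ext x
      constructor
      · rintro ⟨e, rfl⟩
        exact ⟨e, rfl⟩
      · rintro ⟨e, he⟩
        exact ⟨e, Subtype.ext he⟩
    rw [h1]
    exact Submodule.span_span_coe_preimage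
  exact core3_span h2 hN hv' hs' hq P Q hP hQ

end Pool.Agent.AX
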