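import Pool.Agent.AX.Core3

/-!
Partitions of the ground set of a matroid which is represented over a field of characteristic
different from two are connected (any field; scalar extension to the algebraic closure).
-/

set_option autoImplicit false

namespace Pool.Agent.AX

open Set Pool.Agent.W3 TensorProduct

variable {E : Type*} {N : Matroid E} {k T : Type*} [Field k] [AddCommGroup T] [Module k T]
  {v : E → T}

theorem isRep_ext (K : Type*) [Field K] [Algebra k K] (hv : IsRep k N v) :
    IsRep K N (fun e => (1 : K) ⊗ₜ[k] v e) := by
  intro I
  rw [hv I]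
  constructor
  · intro h
    exact Module.Flat.linearIndependent_one_tmul h
  · intro h
    have h1 : LinearIndependent k (fun x : I => (1 : K) ⊗ₜ[k] v x) := by
      refine LinearIndependent.restrict_scalars (K := K) ?_ h
      intro a b hab
      have h2 : a • (1 : K) = b • (1 : K) := hab
      rw [Algebra.smul_def, Algebra.smul_def, mul_one, mul_one] at h2
      exact (algebraMap k K).injective h2
    exact LinearIndependent.of_comp (TensorProduct.mk k K T 1) h1

theorem core4 [Fintype E] {q : ℕ} (h2 : (2 : k) ≠ 0) (hN : N.E = univ) (hv : IsRep k N v)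
    (hq : 2 ≤ q) (P Q : Fin (q + 1) → Set E)
    (hP : Pool.Agent.WD.IsPartn N univ P) (hQ : Pool.Agent.WD.IsPartn N univ Q) :
    Relation.ReflTransGen (Pool.Agent.WD.Share N univ) P Q := by
  have h3 : (2 : AlgebraicClosure k) ≠ 0 := by
    intro h
    apply h2
    apply (algebraMap k (AlgebraicClosure k)).injective
    rw [map_zero, map_ofNat]
    exact h
  exact core3 h3 hN (isRep_ext (AlgebraicClosure k) hv) hq P Q hP hQ

end Pool.Agent.AX
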