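import Pool.Agent.AX.Inf1

/-!
Elementary properties of `OC` and `ZD`.

Proofs.
* `zd_le_oc`: let `f ∈ ZD R κ`, `x ∈ A`, `x' ∈ B`. If `card κ < j` then `cf f x x' j` is an empty sum
  (`Finset.powersetCard_eq_empty`). Otherwise `cf f x x' j = ct f (fun b : Bool => if b then x' else x) w`
  with `w true = j`, `w false = card κ - j`: the sets `J` with `j` elements correspond to the
  `g : κ → Bool` with `cnt g = w`, `g s = decide (s ∈ J)`. Use `ct_diag`.
* `oc_mono`: clear. `oc_zero`: `x := 0`, `j := card κ`; the only `J` is `univ`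
  (`Finset.powersetCard_self`). `oc_big`: no `j` satisfies the condition.
* `oc_full`: `j = 0`, the only `J` is `∅` (`Finset.powersetCard_zero`), `x' := 0`.
-/

set_option autoImplicit false

namespace Pool.Agent.AX

open Pool.Agent.W3

variable {E : Type*} {k : Type*} [Field k] {κ : Type*} [Fintype κ] [DecidableEq κ]

theorem zd_le_oc [Infinite k] {R A B : Submodule k (E → k)} (hA : A ≤ R) (hB : B ≤ R) (θ : ℕ) :
    ZD R κ ≤ OC A B θ := by
  intro f hf x hx x' hx' j hj
  have hj' : j ≤ Fintype.card κ := le_trans (Nat.le_add_right _ _) hj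
  have h1 := ct_diag hf (fun b : Bool => if b then x' else x)
    (by intro b; cases b <;> simp [hA hx, hB hx'])
    (fun b => if b then j else Fintype.card κ - j)
  rw [← h1]
  unfold cf ct
  have hc1 : ∀ J : Finset κ, cnt (fun s => decide (s ∈ J)) true = J.card := by
    intro J
    unfold cnt
    congr 1
    ext s
    simp
  have hc2 : ∀ J : Finset κ, cnt (fun s => decide (s ∈ J)) false = Fintype.card κ - J.card := by
    intro J
    rw [← Finset.card_compl]
    unfold cnt
    congr 1
    ext s
    simp
  refine Finset.sum_bij (fun J _ => fun s => decide (s ∈ J)) ?_ ?_ ?_ ?_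
  · intro J hJ
    rw [Finset.mem_powersetCard] at hJ
    simp only [Finset.mem_filter, Finset.mem_univ, true_and]
    funext b
    cases b
    · rw [hc2, hJ.2]
      simp
    · rw [hc1, hJ.2]
      simp
  · intro J _ J' _ h
    ext s
    have h2 := congrFun h s
    simpa using h2
  · intro g hg
    simp only [Finset.mem_filter, Finset.mem_univ, true_and] at hg
    have hgg : (fun s => decide (s ∈ Finset.univ.filter (fun s => g s = true))) = g := by
      funext s
      simp
    refine ⟨Finset.univ.filter (fun s => g s = true), ?_, hgg⟩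
    rw [Finset.mem_powersetCard]
    refine ⟨Finset.subset_univ _, ?_⟩
    rw [← hc1, hgg, hg]
    simp
  · intro J _
    congr 1
    funext s
    unfold two
    by_cases h2 : s ∈ J <;> simp [h2]

theorem oc_mono {A A' B B' : Submodule k (E → k)} {θ θ' : ℕ} (hA : A' ≤ A) (hB : B' ≤ B)
    (hθ : θ ≤ θ') : (OC A B θ : Submodule k (ML k E κ)) ≤ OC A' B' θ' := by
  intro f hf x hx x' hx' j hj
  exact hf x (hA hx) x' (hB hx') j (by omega)

theorem oc_zero {A B : Submodule k (E → k)} : (OC A B 0 : Submodule k (ML k E κ)) ≤ ZD B κ := by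
  intro f hf x hx
  have h1 := hf 0 A.zero_mem x hx (Fintype.card κ) (by omega)
  unfold cf at h1
  rw [← Finset.card_univ, Finset.powersetCard_self, Finset.sum_singleton] at h1
  rw [← h1]
  congr 1
  funext s
  simp [two]

theorem oc_big {A B : Submodule k (E → k)} {θ : ℕ} (h : Fintype.card κ < θ) :
    (OC A B θ : Submodule k (ML k E κ)) = ⊤ := by
  rw [eq_top_iff]
  intro f _ x _ x' _ j hj
  omega

theorem oc_full {A B : Submodule k (E → k)} {f : ML k E κ} :
    f ∈ OC A B (Fintype.card κ) ↔ ∀ x ∈ A, f (fun _ => x) = 0 := by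
  have hc : ∀ x x' : E → k, cf f x x' 0 = f (fun _ => x) := by
    intro x x'
    unfold cf
    rw [Finset.powersetCard_zero, Finset.sum_singleton]
    rfl
  constructor
  · intro h x hx
    rw [← hc x 0]
    exact h x hx 0 B.zero_mem 0 (by omega)
  · intro h x hx x' hx' j hj
    have hj0 : j = 0 := by omega
    rw [hj0, hc]
    exact h x hx

end Pool.Agent.AX
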