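import Pool.Agent.AX.Thr2
import Pool.Agent.AX.Inf3
import Pool.Agent.W3.Cplx
import Pool.Agent.W3.Flag

/-!
A functional which vanishes on boundaries (two slots).

Proof of `eh_bd`. For a proper flat `F` let `cl F := Ω.closure (F.1 ∪ range u)`, which contains `C`
(`C = Ω.closure (range u)`). `rho C + 2 = m`, `rho H + 1 = m`. `bd w1 {F} = ∑ G ≠ F, eps G {F} • w1 {G, F}`
(`insert G {F}`). So the sum is the sum over the pairs `(F, G)`, `F ≠ G`, `cl F = H`, of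
`eps G {F} • w1 {G, F} (fun _ => x)`.
(1) If `cl G ≠ H` then `w1 {G, F} (fun _ => x) = 0`. If `w1 {G, F} ≠ 0` then `F < G` or `G < F`. If `F < G` then
`H = cl F ⊆ cl G`, `cl G ≠ H`, so the flat `cl G` has rank at least `m` and is `univ`, `thr G = 0` (`thr_zero`)
and `w1 {G, F} ∈ OC _ R 0 ≤ ZD R κ` (`oc_zero`), `x ∈ R`. If `G < F` then `C ⊆ cl G ⊆ H`, `cl G ≠ H`, so the rank
of `cl G` is less than `m - 1`, hence that of `C`, so `cl G = C` and `G ⊆ C`, `x ∈ van k G`;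
`thr G ≤ m - rho C = 2 = card κ` (`thr_le`), so `w1 {G, F} ∈ OC (R ⊓ van G) R (card κ)` (`oc_mono`) and
`w1 {G, F} (fun _ => x) = 0` (`oc_full`).
(2) The pairs with `cl F = cl G = H`: the terms of `(F, G)` and `(G, F)` cancel (`Finset.sum_involution`):
if `w1 {G, F} ≠ 0` then `{G, F}` is a chain, `rho F ≠ rho G` (`rho_strictMono`), and
`eps G {F} = - eps F {G}` (one of them is `1`, the other `-1`: `eps ρ G {F} = (-1) ^ #{F | rho F < rho G}`).
-/

set_option autoImplicit false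

namespace Pool.Agent.AX

open Pool.Agent.W3

variable {E : Type*} [Fintype E] {Ω : Matroid E} {k : Type*} [Field k]
  {R : Submodule k (E → k)} {κ κ' : Type*} [Fintype κ] [DecidableEq κ] [Fintype κ'] {m : ℕ}

open Classical in
theorem eh_bd (hΩ : Ω.E = Set.univ) (hrk : Ω.eRank = m) (hκ : Fintype.card κ = 2)
    (u : κ' → E) (C : PF Ω) (hC : C.1 = Ω.closure (Set.range u)) (hrC : rho Ω C + 2 = m)
    (H : PF Ω) (hH : Cov Ω C.1 H.1) (w1 : Finset (PF Ω) → ML k E κ)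
    (h1 : ∀ c, w1 c ≠ 0 → IsChain (· ≤ ·) (c : Set (PF Ω)) ∧ c.card = 2)
    (h2 : ∀ c, ∀ F ∈ c, w1 c ∈ OC (R ⊓ van k F.1) R (thr Ω m u F))
    {x : E → k} (hx : x ∈ R ⊓ van k C.1) :
    ∑ F ∈ Finset.univ.filter (fun F : PF Ω => Ω.closure (F.1 ∪ Set.range u) = H.1),
      bd (rho Ω) w1 {F} (fun _ => x) = 0 := by
  sorry

end Pool.Agent.AX
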