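import Pool.Agent.AX.Defs
import Pool.Agent.W3.ColDefs

/-!
The numbers `thr Ω m u F = m - (rho F + #{t | u t ∉ F})`, `u : κ' → E`.

Compare `ja_step`, `ja_dep`, `ja_indep`, `ca_ne_univ` in W3/ColDefs (the proofs are the same).
Let `D := Ω.closure (range u)`.
* `cu_ne_univ`: `Ω.eRk D ≤ card κ' < m = Ω.eRank`.
* `thr_step`: let `G := Ω.closure (F ∪ range u)`; it is the closure of `F ∪ {u t | u t ∉ F}`, so
  `Ω.eRk G ≤ rho F + #{t | u t ∉ F}`. If `G = univ` then `m ≤ rho F + #{t | u t ∉ F}` and `thr F = 0`.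
  Otherwise all `u t` are in `G` and `thr G = m - rho G ≥ thr F`.
* `thr_ge`: the set of the `t` with `u t ∉ F` is empty.
* `thr_dep`: if `u` is not injective or its range is dependent then `Ω.eRk C < card κ'`, and
  `thr C = m - rho C > m - card κ' = card κ`.
* `thr_indep`: `Ω.eRk C = card κ'`.
-/

set_option autoImplicit false

namespace Pool.Agent.AX

open Pool.Agent.W3

variable {E : Type*} [Fintype E] {Ω : Matroid E} {κ κ' : Type*} [Fintype κ] [Fintype κ'] {m : ℕ}

omit [Fintype κ] [Fintype κ'] in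
private theorem eRk_ne_top_fin' (Ω : Matroid E) (X : Set E) : Ω.eRk X ≠ ⊤ :=
  ne_top_of_le_ne_top (Set.encard_ne_top_iff.2 X.toFinite) (Ω.eRk_le_encard X)

omit [Fintype κ] [Fintype κ'] in
private theorem rho_coe' (F : PF Ω) : (rho Ω F : ℕ∞) = Ω.eRk F.1 :=
  ENat.natCast_toNat (eRk_ne_top_fin' Ω _)

/-- The number of the `t` with `u t ∉ F`. -/
private noncomputable def out (u : κ' → E) (F : Set E) : ℕ := by
  classical exact (Finset.univ.filter (fun t => u t ∉ F)).card

omit [Fintype E] [Fintype κ] in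
private theorem thr_eq [Fintype E] (u : κ' → E) (F : PF Ω) :
    thr Ω m u F = m - (rho Ω F + out u F.1) := rfl

omit [Fintype E] [Fintype κ] in
private theorem out_zero {u : κ' → E} {F : Set E} (h : Set.range u ⊆ F) : out u F = 0 := by
  classical
  have h1 : (Finset.univ.filter (fun t => u t ∉ F)).card = 0 := by
    rw [Finset.card_eq_zero, Finset.filter_eq_empty_iff]
    intro t _ h1
    exact h1 (h ⟨t, rfl⟩)
  unfold out
  convert h1

omit [Fintype E] [Fintype κ] in
private theorem encard_out' (u : κ' → E) (F : Set E) :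
    (u '' {t | u t ∉ F}).encard ≤ (out u F : ℕ∞) := by
  classical
  refine (Set.encard_image_le _ _).trans (le_of_eq ?_)
  unfold out
  rw [← Set.encard_coe_eq_coe_finsetCard]
  congr 1
  ext s
  simp

omit [Fintype κ] in
private theorem eRk_step' (u : κ' → E) (F : PF Ω) :
    Ω.eRk (Ω.closure (F.1 ∪ Set.range u)) ≤ ((rho Ω F + out u F.1 : ℕ) : ℕ∞) := by
  have h1 : F.1 ∪ Set.range u = F.1 ∪ u '' {t | u t ∉ F.1} := by
    ext e
    constructor
    · rintro (h | ⟨s, rfl⟩)
      · exact Or.inl h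
      · by_cases hF : u s ∈ F.1
        · exact Or.inl hF
        · exact Or.inr ⟨s, hF, rfl⟩
    · rintro (h | ⟨s, _, rfl⟩)
      · exact Or.inl h
      · exact Or.inr ⟨s, rfl⟩
  rw [Matroid.eRk_closure_eq, h1]
  refine (Ω.eRk_union_le_eRk_add_eRk _ _).trans ?_
  rw [Nat.cast_add, rho_coe']
  exact add_le_add_right ((Ω.eRk_le_encard _).trans (encard_out' u F.1)) _

omit [Fintype E] [Fintype κ] [Fintype κ'] in
private theorem range_sub (hΩ : Ω.E = Set.univ) (u : κ' → E) :
    Set.range u ⊆ Ω.closure (Set.range u) :=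
  Ω.subset_closure _ (by rw [hΩ]; exact Set.subset_univ _)

omit [Fintype E] [Fintype κ] in
private theorem range_encard_le (u : κ' → E) :
    (Set.range u).encard ≤ (Fintype.card κ' : ℕ∞) := by
  rw [← Set.image_univ]
  refine (Set.encard_image_le _ _).trans (le_of_eq ?_)
  rw [Set.encard_univ, ENat.card_eq_coe_fintype_card]

theorem cu_ne_univ (hΩ : Ω.E = Set.univ) (hrk : Ω.eRank = m) (h : Fintype.card κ' < m)
    (u : κ' → E) : Ω.closure (Set.range u) ≠ Set.univ := by
  intro h0
  have h1 := Ω.eRk_closure_eq (Set.range u)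
  rw [h0, Matroid.eRk_univ_eq, hrk] at h1
  have h2 := (Ω.eRk_le_encard (Set.range u)).trans (range_encard_le u)
  rw [← h1] at h2
  have h3 : m ≤ Fintype.card κ' := by exact_mod_cast h2
  omega

theorem thr_step (hΩ : Ω.E = Set.univ) (hrk : Ω.eRank = m) (u : κ' → E) (F : PF Ω) :
    thr Ω m u F = 0 ∨ ∃ G : PF Ω, G.1 = Ω.closure (F.1 ∪ Set.range u) ∧
      thr Ω m u F ≤ thr Ω m u G := by
  have hst := eRk_step' u F
  by_cases hG : Ω.closure (F.1 ∪ Set.range u) = Set.univ
  · left
    rw [hG, Matroid.eRk_univ_eq, hrk] at hst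
    have h1 : m ≤ rho Ω F + out u F.1 := by exact_mod_cast hst
    rw [thr_eq]
    omega
  · right
    refine ⟨⟨Ω.closure (F.1 ∪ Set.range u), Ω.isFlat_closure _, hG⟩, rfl, ?_⟩
    have hsub : F.1 ∪ Set.range u ⊆ Ω.closure (F.1 ∪ Set.range u) :=
      Ω.subset_closure _ (by rw [hΩ]; exact Set.subset_univ _)
    have h0 : out u (Ω.closure (F.1 ∪ Set.range u)) = 0 :=
      out_zero fun e he => hsub (Or.inr he)
    have h2 := rho_coe' (⟨Ω.closure (F.1 ∪ Set.range u), Ω.isFlat_closure _, hG⟩ : PF Ω)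
    rw [← h2] at hst
    have h3 : rho Ω (⟨Ω.closure (F.1 ∪ Set.range u), Ω.isFlat_closure _, hG⟩ : PF Ω) ≤
        rho Ω F + out u F.1 := by exact_mod_cast hst
    rw [thr_eq, thr_eq]
    simp only [h0]
    omega

theorem thr_ge (u : κ' → E) (F : PF Ω) (h : Set.range u ⊆ F.1) :
    thr Ω m u F = m - rho Ω F := by
  rw [thr_eq, out_zero h, add_zero]

theorem thr_dep (hΩ : Ω.E = Set.univ) (hrk : Ω.eRank = m)
    (hm : Fintype.card κ + Fintype.card κ' = m) (hκ : 1 ≤ Fintype.card κ) (u : κ' → E)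
    (h : ¬ (Function.Injective u ∧ Ω.Indep (Set.range u))) (C : PF Ω)
    (hC : C.1 = Ω.closure (Set.range u)) : Fintype.card κ < thr Ω m u C := by
  have hsub : Set.range u ⊆ C.1 := by
    rw [hC]
    exact range_sub hΩ u
  rw [thr_ge u C hsub]
  by_contra hcon
  have h3 : Fintype.card κ' ≤ rho Ω C := by omega
  have h3' : (Fintype.card κ' : ℕ∞) ≤ (rho Ω C : ℕ∞) := by exact_mod_cast h3
  rw [rho_coe', hC, Matroid.eRk_closure_eq] at h3'
  have h4 := Ω.eRk_le_encard (Set.range u)
  have h5 := range_encard_le u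
  apply h
  constructor
  · have h6 : (Set.univ : Set κ').InjOn u := by
      apply (Set.toFinite _).injOn_of_encard_image_eq
      rw [Set.image_univ, Set.encard_univ, ENat.card_eq_coe_fintype_card]
      exact le_antisymm h5 (h3'.trans h4)
    exact Set.injOn_univ.mp h6
  · rw [Matroid.indep_iff_eRk_eq_encard_of_finite (Set.toFinite _)]
    exact le_antisymm h4 (h5.trans h3')

theorem thr_indep (hΩ : Ω.E = Set.univ) (hrk : Ω.eRank = m)
    (hm : Fintype.card κ + Fintype.card κ' = m) (u : κ' → E)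
    (h : Function.Injective u ∧ Ω.Indep (Set.range u)) (C : PF Ω)
    (hC : C.1 = Ω.closure (Set.range u)) :
    Ω.eRk C.1 + Fintype.card κ = Ω.eRank ∧ thr Ω m u C = Fintype.card κ := by
  have hsub : Set.range u ⊆ C.1 := by
    rw [hC]
    exact range_sub hΩ u
  have h1 : Ω.eRk C.1 = (Fintype.card κ' : ℕ∞) := by
    rw [hC, Matroid.eRk_closure_eq, h.2.eRk_eq_encard, ← Set.image_univ,
      h.1.injOn.encard_image, Set.encard_univ, ENat.card_eq_coe_fintype_card]
  have h3 : rho Ω C = Fintype.card κ' := by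
    have := rho_coe' C
    rw [h1] at this
    exact_mod_cast this
  refine ⟨?_, ?_⟩
  · rw [h1, hrk, ← hm]
    push_cast
    rw [add_comm]
  · rw [thr_ge u C hsub, h3]
    omega

end Pool.Agent.AX
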