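import Pool.Agent.AX.ColSpec
import Pool.Agent.AX.Eh
import Pool.Agent.AX.Thr

/-!
Rows for a fixed word, two slots, any characteristic.

Proof of `rowU2`. As `rowU` (AX/RowU; see colA in W3/ColA) with `col_spec` instead of `col`,
`j := 1`, `V := ML k E κ ⧸ ZD R κ`, `J F := (OC (R ⊓ van k F.1) R (thr Ω m u F)).map (ZD R κ).mkQ`, `C` the flat
`Ω.closure (range u)`. `hstar`: let `w̄1` be given. Choose `w1 c` with `mkQ (w1 c) = w̄1 c`, and `w1 c = 0`
if `w̄1 c = 0`. If `u` is not injective or its range is dependent then `2 < thr C` (`thr_dep`) and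
`J C = ⊤` (`oc_big`). Otherwise `thr C = 2 = card κ`, `rho C + 2 = m` (`thr_indep`). Let `C ∉ c`,
`z' := fun c => z c - bd w1 c`; we may assume `mkQ (z' c) ≠ 0`. Then `c` has one element `H`
(`adm_sub`, `adm_bd`), and `C ≤ H` (second hypothesis of `hstar`), `H ≠ C`; `H` is a proper flat
containing `C` properly, and `rho C + 2 = m = Ω.eRank`, so `Cov Ω C.1 H.1`. By `oc_full` it is enough that
`z' {H} (fun _ => x) = 0` for `x ∈ R ⊓ van k C.1`. By `h4` and `eh_bd` the sum of `z' {F} (fun _ => x)` over the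
`F` with `Ω.closure (F ∪ range u) = H` is zero. If `F ≠ H` is such a flat then `z' {F} ∈ ZD R κ`: otherwise
`mkQ (z' {F}) ≠ 0`, so `C ≤ F`, and `H = Ω.closure (F ∪ range u) = F`. And `H` itself is in the index set.
So `z' {H} (fun _ => x) = 0`.
-/

set_option autoImplicit false

namespace Pool.Agent.AX

open Pool.Agent.W3

variable {E : Type*} [Fintype E] {Ω : Matroid E} {k : Type*} [Field k]
  {R : Submodule k (E → k)} {κ κ' : Type*} [Fintype κ] [DecidableEq κ] [Fintype κ'] {m : ℕ}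

private theorem rowU2_mem [Infinite k] {u : κ' → E} {F : PF Ω} {f : ML k E κ} :
    (ZD R κ).mkQ f ∈ (OC (R ⊓ van k F.1) R (thr Ω m u F)).map (ZD R κ).mkQ ↔
      f ∈ OC (R ⊓ van k F.1) R (thr Ω m u F) := by
  constructor
  · intro h
    obtain ⟨g, hg, hgf⟩ := Submodule.mem_map.1 h
    have h1 : f - g ∈ ZD R κ := by
      rw [← Submodule.ker_mkQ (ZD R κ), LinearMap.mem_ker, map_sub, hgf, sub_self]
    have h2 : f = (f - g) + g := by abel
    rw [h2]
    exact add_mem (zd_le_oc inf_le_left le_rfl _ h1) hg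
  · intro h
    exact Submodule.mem_map_of_mem h

private theorem rowU2_bd (z : Finset (PF Ω) → ML k E κ) (c : Finset (PF Ω)) :
    bd (rho Ω) (fun c => (ZD R κ).mkQ (z c)) c = (ZD R κ).mkQ (bd (rho Ω) z c) :=
  bd_map (rho Ω) ((ZD R κ).mkQ : ML k E κ →+ (ML k E κ ⧸ ZD R κ)) z c

open Classical in
theorem rowU2 (hΩ : Ω.E = Set.univ) (hrk : Ω.eRank = m) [Infinite k]
    (hm : Fintype.card κ + Fintype.card κ' = m) (hκ : Fintype.card κ = 2)
    (u : κ' → E) (z : Finset (PF Ω) → ML k E κ)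
    (h1 : ∀ c, z c ≠ 0 → IsChain (· ≤ ·) (c : Set (PF Ω)) ∧ c.card = 1)
    (h2 : ∀ c, ∀ F ∈ c, z c ∈ OC (R ⊓ van k F.1) R (thr Ω m u F))
    (h3 : ∀ c, bd (rho Ω) z c ∈ ZD R κ)
    (h4 : Function.Injective u → Ω.Indep (Set.range u) → ∀ H : PF Ω,
      Cov Ω (Ω.closure (Set.range u)) H.1 → ∀ x ∈ R ⊓ van k (Ω.closure (Set.range u)),
      ∑ F ∈ Finset.univ.filter (fun F : PF Ω => Ω.closure (F.1 ∪ Set.range u) = H.1),
        z {F} (fun _ => x) = 0) : RowSt Ω R m 1 u z := by
  let C : PF Ω := ⟨Ω.closure (Set.range u), Ω.isFlat_closure _,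
    cu_ne_univ hΩ hrk (by omega) u⟩
  have hC : C.1 = Ω.closure (Set.range u) := rfl
  have hrC' : Set.range u ⊆ C.1 := Ω.subset_closure _ (by rw [hΩ]; exact Set.subset_univ _)
  have hker : ∀ f : ML k E κ, (ZD R κ).mkQ f = 0 ↔ f ∈ ZD R κ := by
    intro f
    rw [← LinearMap.mem_ker, Submodule.ker_mkQ]
  have hz : Adm (fun F : PF Ω => (OC (R ⊓ van k F.1) R (thr Ω m u F)).map (ZD R κ).mkQ) 1
      (fun c => (ZD R κ).mkQ (z c)) := by
    refine ⟨?_, ?_, ?_⟩
    · intro c hc
      have h4 : z c ≠ 0 := fun h => hc (by rw [h, map_zero])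
      exact (h1 c h4).1
    · intro c hc
      have h4 : z c ≠ 0 := fun h => hc (by rw [h, map_zero])
      exact (h1 c h4).2
    · intro c F hF
      exact Submodule.mem_map_of_mem (h2 c F hF)
  have hcyc : ∀ c, bd (rho Ω) (fun c => (ZD R κ).mkQ (z c)) c = 0 := by
    intro c
    rw [rowU2_bd, hker]
    exact h3 c
  have hφ : ∀ F : PF Ω, (OC (R ⊓ van k F.1) R (thr Ω m u F)).map (ZD R κ).mkQ = ⊥ ∨
      ∃ φ : PF Ω, F ≤ φ ∧ C ≤ φ ∧ (OC (R ⊓ van k F.1) R (thr Ω m u F)).map (ZD R κ).mkQ ≤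
        (OC (R ⊓ van k φ.1) R (thr Ω m u φ)).map (ZD R κ).mkQ ∧
        ∀ G, F ≤ G → C ≤ G → φ ≤ G := by
    intro F
    rcases thr_step hΩ hrk u F with h | ⟨G, hG, hle⟩
    · left
      rw [eq_bot_iff]
      rintro x hx
      obtain ⟨f, hf, rfl⟩ := Submodule.mem_map.1 hx
      rw [Submodule.mem_bot, hker]
      rw [h] at hf
      exact oc_zero hf
    · right
      have hsub : F.1 ∪ Set.range u ⊆ G.1 := by
        rw [hG]
        exact Ω.subset_closure _ (by rw [hΩ]; exact Set.subset_univ _)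
      have hFG : F.1 ⊆ G.1 := fun x hx => hsub (Or.inl hx)
      refine ⟨G, hFG, ?_, ?_, ?_⟩
      · change Ω.closure (Set.range u) ⊆ G.1
        rw [← G.2.1.closure]
        exact Ω.closure_subset_closure (fun x hx => hsub (Or.inr hx))
      · refine Submodule.map_mono (oc_mono ?_ le_rfl hle)
        exact inf_le_inf le_rfl (fun x hx e he => hx e (hFG he))
      · intro H hF hC
        change G.1 ⊆ H.1
        rw [hG, ← H.2.1.closure]
        refine Ω.closure_subset_closure ?_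
        rintro x (hx | hx)
        · exact hF hx
        · exact hC (Ω.subset_closure _ (by rw [hΩ]; exact Set.subset_univ _) hx)
  have hstar : ∀ w1 : Finset (PF Ω) → (ML k E κ ⧸ ZD R κ),
      Adm (fun F : PF Ω => (OC (R ⊓ van k F.1) R (thr Ω m u F)).map (ZD R κ).mkQ) (1 + 1) w1 →
      (∀ c, (ZD R κ).mkQ (z c) - bd (rho Ω) w1 c ≠ 0 → ∀ F ∈ c, C ≤ F) →
      ∀ c, C ∉ c → (ZD R κ).mkQ (z c) - bd (rho Ω) w1 c ∈
        (OC (R ⊓ van k C.1) R (thr Ω m u C)).map (ZD R κ).mkQ := by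
    intro wb hwb hsup c hCc
    by_cases hind : Function.Injective u ∧ Ω.Indep (Set.range u)
    swap
    · rw [oc_big (thr_dep hΩ hrk hm (by omega) u hind C hC), Submodule.map_top,
        Submodule.range_mkQ]
      exact Submodule.mem_top
    obtain ⟨hrk2, hthr⟩ := thr_indep hΩ hrk hm u hind C hC
    have hlift : ∀ c, ∃ f : ML k E κ, (ZD R κ).mkQ f = wb c ∧ (wb c = 0 → f = 0) := by
      intro c
      by_cases h : wb c = 0
      · exact ⟨0, by rw [map_zero, h], fun _ => rfl⟩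
      · obtain ⟨f, hf⟩ := Submodule.mkQ_surjective _ (wb c)
        exact ⟨f, hf, fun h' => absurd h' h⟩
    choose w1 hw1 hw10 using hlift
    have hw1b : (fun c => (ZD R κ).mkQ (w1 c)) = wb := funext hw1
    have hbd : ∀ c, (ZD R κ).mkQ (z c) - bd (rho Ω) wb c =
        (ZD R κ).mkQ (z c - bd (rho Ω) w1 c) := by
      intro c
      rw [map_sub, ← rowU2_bd, hw1b]
    have hadm := adm_sub hz (adm_bd (ρ := rho Ω) hwb)
    by_cases h0 : (ZD R κ).mkQ (z c) - bd (rho Ω) wb c = 0
    · rw [h0]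
      exact Submodule.zero_mem _
    have hcard : c.card = 1 := hadm.card c h0
    obtain ⟨H, hH⟩ := Finset.card_eq_one.1 hcard
    subst hH
    have hCH : C ≤ H := hsup _ h0 H (Finset.mem_singleton_self H)
    have hne : C ≠ H := fun h => hCc (by rw [h]; exact Finset.mem_singleton_self H)
    have hlt : C < H := lt_of_le_of_ne hCH hne
    have hrho := rho_strictMono hΩ hlt
    -- ranks
    have hfin : ∀ X : Set E, Ω.eRk X ≠ ⊤ := fun X =>
      ne_top_of_le_ne_top (Set.encard_ne_top_iff.2 X.toFinite) (Ω.eRk_le_encard X)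
    have hrhoC : (rho Ω C : ℕ∞) = Ω.eRk C.1 := ENat.natCast_toNat (hfin _)
    have hrhoH : (rho Ω H : ℕ∞) = Ω.eRk H.1 := ENat.natCast_toNat (hfin _)
    have hrC : rho Ω C + 2 = m := by
      rw [← hrhoC, hκ, hrk] at hrk2
      exact_mod_cast hrk2
    have hHm : rho Ω H < m := by
      have h5 : Ω.eRk H.1 ≤ Ω.eRank := Ω.eRk_le_eRank H.1
      rw [← hrhoH, hrk] at h5
      have h6 : rho Ω H ≤ m := by exact_mod_cast h5
      rcases Nat.lt_or_ge (rho Ω H) m with h7 | h7
      · exact h7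
      · exfalso
        apply H.2.2
        have h8 : rho Ω H = m := le_antisymm h6 h7
        have hfr : Ω.RankFinite := by
          rw [← Matroid.eRank_ne_top_iff, hrk]
          exact ENat.natCast_ne_top m
        have h9 : Ω.Spanning H.1 := by
          rw [Matroid.spanning_iff_eRk_le (by rw [hΩ]; exact Set.subset_univ _), ← hrhoH, h8, hrk]
        rw [← H.2.1.closure, h9.closure_eq, hΩ]
    have hcov : Cov Ω C.1 H.1 := by
      refine ⟨C.2.1, H.2.1, hCH, ?_⟩
      rw [← hrhoC, ← hrhoH]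
      have h5 : rho Ω H = rho Ω C + 1 := by omega
      rw [h5]
      push_cast
      rfl
    rw [hbd]
    refine Submodule.mem_map_of_mem ?_
    rw [hthr, oc_full]
    intro x hx
    have e1 := h4 hind.1 hind.2 H hcov x hx
    have e2 := eh_bd (R := R) hΩ hrk hκ u C hC hrC H hcov w1 (by
      intro c hc
      have h5 : wb c ≠ 0 := fun h => hc (hw10 c h)
      exact ⟨hwb.chain c h5, hwb.card c h5⟩) (by
      intro c F hF
      rw [← rowU2_mem, hw1 c]
      exact hwb.mem c F hF) hx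
    have e3 : ∑ F ∈ Finset.univ.filter
        (fun F : PF Ω => Ω.closure (F.1 ∪ Set.range u) = H.1),
        (z {F} - bd (rho Ω) w1 {F}) (fun _ => x) = 0 := by
      have h5 : ∀ F : PF Ω, (z {F} - bd (rho Ω) w1 {F}) (fun _ => x) =
          z {F} (fun _ => x) - bd (rho Ω) w1 {F} (fun _ => x) := fun F => rfl
      simp only [h5]
      rw [Finset.sum_sub_distrib, e1, e2, sub_zero]
    rw [Finset.sum_eq_single H] at e3
    · exact e3
    · intro F hF hFH
      have hFcl : Ω.closure (F.1 ∪ Set.range u) = H.1 := (Finset.mem_filter.1 hF).2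
      have h5 : (z {F} - bd (rho Ω) w1 {F}) ∈ ZD R κ := by
        rw [← hker, ← hbd]
        by_contra h6
        have h7 : C ≤ F := hsup _ h6 F (Finset.mem_singleton_self F)
        apply hFH
        apply Subtype.ext
        have h8 : F.1 ∪ Set.range u = F.1 := Set.union_eq_left.2 (hrC'.trans h7)
        rw [h8, F.2.1.closure] at hFcl
        exact hFcl
      exact h5 x hx.1
    · intro h5
      exfalso
      apply h5
      rw [Finset.mem_filter]
      refine ⟨Finset.mem_univ _, ?_⟩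
      have h8 : H.1 ∪ Set.range u = H.1 := Set.union_eq_left.2 (hrC'.trans hCH)
      rw [h8, H.2.1.closure]
  obtain ⟨w, hw, hwz⟩ := col_spec (rho_strictMono hΩ) C hφ hz hcyc hstar
  have hlift : ∀ c, ∃ f : ML k E κ, (ZD R κ).mkQ f = w c ∧ (w c = 0 → f = 0) := by
    intro c
    by_cases h : w c = 0
    · exact ⟨0, by rw [map_zero, h], fun _ => rfl⟩
    · obtain ⟨f, hf⟩ := Submodule.mkQ_surjective _ (w c)
      exact ⟨f, hf, fun h' => absurd h' h⟩
  choose y hy hy0 using hlift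
  have hyw : (fun c => (ZD R κ).mkQ (y c)) = w := funext hy
  refine ⟨y, ?_, ?_, ?_⟩
  · intro c hc
    have h4 : w c ≠ 0 := fun h => hc (hy0 c h)
    exact ⟨hw.chain c h4, hw.card c h4⟩
  · intro c F hF
    rw [← rowU2_mem, hy c]
    exact hw.mem c F hF
  · intro c
    rw [← hker, map_sub, ← rowU2_bd, hyw, hwz c, sub_self]

end Pool.Agent.AX
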