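import Pool.Agent.AX.Kap
import Pool.Agent.AX.RowU2
import Pool.Agent.AX.Asm
import Pool.Agent.W3.LiftStep

/-!
The row in degree two for the function of the first step, any characteristic.

Proof of `row_two`. `asm` with `S := hi m (m - 2)`, `j := 1`, `z := z1`; `z1` is in `Adm (JL Ω S) 1` by
`al_anti` (`hi m (m - 1) ⊆ hi m (m - 2)`). For `u` apply `rowU2` with `κ := {s // s ∈ S}` (two elements),
`κ' := {s // s ∉ S}`, `Fintype.card (Fin m) = m`, and `fun c => res S u (z1 c)`:
* `h1`: from `hz1`. * `h2`: `res_jf`.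
* `h3`: `bd (fun c => res S u (z1 c)) c = res S u (bd z1 c)` (`bd_map`). For `c = ∅`:
  `bd z1 ∅ = gt - (gt - bd z1 ∅)`, `gt ∈ AL k E ∅ ≤ DG R S` (`al_le_dg` with the last two slots), the other
  part is in `DG R (hi m (m - 1)) ≤ DG R S` (`dg_anti`); `res_dg`. For `c ≠ ∅`, `bd z1 c = 0` (`z1` is supported
  on sets with one element; see the proof of `bd_adm_one` in W3/LiftStep).
* `h4`: `kap`.
-/

set_option autoImplicit false

namespace Pool.Agent.AX

open Pool.Agent.W3

variable {E : Type*} [Fintype E] [DecidableEq E] {Ω : Matroid E} {k : Type*} [Field k]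
  {R : Submodule k (E → k)} {m : ℕ}

open Classical in
theorem row_two_aux {ι : Type*} [Fintype ι] [DecidableEq ι] {S : Finset ι}
    (hΩ : Ω.E = Set.univ) (hrk : Ω.eRank = Fintype.card ι) [Infinite k] (hS : S.card = 2)
    {z : Finset (PF Ω) → ML k E ι} (hz : Adm (JL Ω S) 1 z)
    (hbd : ∀ c, bd (rho Ω) z c ∈ DG R S)
    (hk : ∀ u : {s // s ∉ S} → E, Function.Injective u → Ω.Indep (Set.range u) →
      ∀ H : PF Ω, Cov Ω (Ω.closure (Set.range u)) H.1 →
      ∀ x ∈ R ⊓ van k (Ω.closure (Set.range u)),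
      ∑ F ∈ Finset.univ.filter (fun F : PF Ω => Ω.closure (F.1 ∪ Set.range u) = H.1),
        res S u (z {F}) (fun _ => x) = 0) :
    ∃ w : Finset (PF Ω) → ML k E ι, Adm (JL Ω S) 2 w ∧
      ∀ c, z c - bd (rho Ω) w c ∈ DG R S := by
  have hcard : Fintype.card {s // s ∈ S} = 2 := by rw [Fintype.card_coe, hS]
  have hcard2 : Fintype.card {s // s ∈ S} + Fintype.card {s // s ∉ S} = Fintype.card ι := by
    rw [Fintype.card_subtype_compl (fun s => s ∈ S)]
    have := Fintype.card_subtype_le (fun s => s ∈ S)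
    omega
  refine asm (R := R) (S := S) (j := 1) le_rfl hz ?_
  intro u
  refine rowU2 hΩ hrk hcard2 hcard u (fun c => res S u (z c)) ?_ ?_ ?_ ?_
  · intro c hc
    have hzc : z c ≠ 0 := by
      intro h0
      apply hc
      show res S u (z c) = 0
      rw [h0, map_zero]
    exact ⟨hz.chain c hzc, hz.card c hzc⟩
  · intro c F hF
    exact res_jf (R := R) u (hz.mem c F hF).1
  · intro c
    have h3 := bd_map (rho Ω) ((res S u : ML k E ι →ₗ[k] ML k E {s // s ∈ S}) :
      ML k E ι →+ ML k E {s // s ∈ S}) z c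
    have h4 : bd (rho Ω) (fun c => res S u (z c)) c = res S u (bd (rho Ω) z c) := h3
    rw [h4]
    exact res_dg u (hbd c)
  · intro hu hu2 H hH x hx
    exact hk u hu hu2 H hH x hx

theorem row_two (hΩ : Ω.E = Set.univ) (hrk : Ω.eRank = m) [Infinite k] (hm2 : 2 ≤ m)
    {g : (Fin m → E) → k} (hbr : BrSt Ω R g)
    (hsupp : ∀ a, g a ≠ 0 → Function.Injective a ∧ Ω.IsBase (Set.range a))
    {gt : ML k E (Fin m)} (halt : gt ∈ AL k E (∅ : Finset (Fin m)))
    (hgt : ∀ a : Fin m → E, gt (fun s => Pi.single (a s) 1) = g a)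
    {z1 : Finset (PF Ω) → ML k E (Fin m)} (hz1 : Adm (JL Ω (hi m (m - 1))) 1 z1)
    (h1 : gt - bd (rho Ω) z1 ∅ ∈ DG R (hi m (m - 1))) :
    ∃ w : Finset (PF Ω) → ML k E (Fin m), Adm (JL Ω (hi m (m - 2))) 2 w ∧
      ∀ c, z1 c - bd (rho Ω) w c ∈ DG R (hi m (m - 2)) := by
  have hcd : (hi m (m - 2)).card = 2 := by
    have h2 : hi m (m - 2) = {(⟨m - 2, by omega⟩ : Fin m), ⟨m - 1, by omega⟩} := by
      ext s
      rw [mem_hi, Finset.mem_insert, Finset.mem_singleton, Fin.ext_iff, Fin.ext_iff]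
      have := s.isLt
      show m - 2 ≤ s.val ↔ s.val = m - 2 ∨ s.val = m - 1
      omega
    rw [h2, Finset.card_pair]
    intro h
    have := congrArg Fin.val h
    simp only at this
    omega
  have hsub : hi m (m - 1) ⊆ hi m (m - 2) := by
    intro s hs
    rw [mem_hi] at hs ⊢
    omega
  have hz1' : Adm (JL Ω (hi m (m - 2))) 1 z1 := by
    refine ⟨hz1.chain, hz1.card, ?_⟩
    intro c F hF
    have h := hz1.mem c F hF
    exact ⟨h.1, al_anti hsub h.2⟩
  have hbd0 : ∀ c, c ≠ ∅ → bd (rho Ω) z1 c = 0 := by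
    intro c hc
    by_contra h
    obtain ⟨F, hF, c', h3, h4⟩ := exists_of_bd_ne h
    have h5 := hz1.card c' h3
    have h6 : c' = insert F c := by
      ext G
      rw [h4, Finset.mem_insert]
    rw [h6, Finset.card_insert_of_notMem hF] at h5
    exact hc (Finset.card_eq_zero.mp (by omega))
  have hbdD : ∀ c, bd (rho Ω) z1 c ∈ DG R (hi m (m - 2)) := by
    intro c
    by_cases hc : c = ∅
    · subst hc
      have h3 : bd (rho Ω) z1 ∅ = gt - (gt - bd (rho Ω) z1 ∅) := by abel
      rw [h3]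
      refine sub_mem ?_ (dg_anti hsub h1)
      refine al_le_dg (S := ∅) (S' := hi m (m - 2)) (s := (⟨m - 2, by omega⟩ : Fin m))
        (s' := (⟨m - 1, by omega⟩ : Fin m)) (Finset.notMem_empty _) (Finset.notMem_empty _)
        ?_ ?_ ?_ halt
      · intro h
        have := congrArg Fin.val h
        simp only at this
        omega
      · rw [mem_hi]
      · rw [mem_hi]
        show m - 2 ≤ m - 1
        omega
    · rw [hbd0 c hc]
      exact Submodule.zero_mem _
  exact row_two_aux hΩ (by rw [Fintype.card_fin]; exact hrk) hcd hz1' hbdD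
    (fun u hu hu2 H hH x hx => kap hΩ hrk hm2 hbr hsupp hgt hz1 h1 u hu hu2 H hH hx)

end Pool.Agent.AX
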