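import Pool.Agent.W3.P2Defs
import Pool.Agent.Q2.FlDefs

/-!
Definitions for the alternating form of the lifting theorem (problem MP_e6151a_ag): toric ideals
of matroids representable over a field of characteristic different from two are generated by
quadrics. See `BLUEPRINT.md` in this folder.
-/

set_option autoImplicit false

namespace Pool.Agent.AX

open Pool.Agent.W3 Pool.Agent.Q2

section Diag

variable {E : Type*} {k : Type*} [Field k] {κ : Type*} [Fintype κ] [DecidableEq κ]

/-- The argument `x'` in the slots of `J`, `x` in the others. -/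
def two (J : Finset κ) (x x' : E → k) : κ → E → k := fun s => if s ∈ J then x' else x

/-- The sum of the values of `f` at the words with `j` letters `x'` and the other letters `x`. -/
def cf (f : ML k E κ) (x x' : E → k) (j : ℕ) : k :=
  ∑ J ∈ (Finset.univ : Finset κ).powersetCard j, f (two J x x')

/-- The multilinear functions which vanish if all arguments are the same element of `R`. -/
def ZD (R : Submodule k (E → k)) (κ : Type*) [Fintype κ] : Submodule k (ML k E κ) where
  carrier := {f | ∀ x ∈ R, f (fun _ => x) = 0}
  add_mem' := by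
    intro f g hf hg x hx
    simp [hf x hx, hg x hx]
  zero_mem' := by
    intro x _
    rfl
  smul_mem' := by
    intro c f hf x hx
    simp [hf x hx]

/-- Order condition: words with at least `θ` letters `x ∈ A`, the other letters being `x' ∈ B`. -/
def OC (A B : Submodule k (E → k)) (θ : ℕ) : Submodule k (ML k E κ) where
  carrier := {f | ∀ x ∈ A, ∀ x' ∈ B, ∀ j, j + θ ≤ Fintype.card κ → cf f x x' j = 0}
  add_mem' := by
    intro f g hf hg x hx x' hx' j hj
    have h1 := hf x hx x' hx' j hj
    have h2 := hg x hx x' hx' j hj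
    unfold cf at h1 h2 ⊢
    simp only [add_apply]
    rw [Finset.sum_add_distrib, h1, h2, add_zero]
  zero_mem' := by
    intro x _ x' _ j _
    unfold cf
    simp
  smul_mem' := by
    intro c f hf x hx x' hx' j hj
    have h1 := hf x hx x' hx' j hj
    unfold cf at h1 ⊢
    simp only [smul_apply, smul_eq_mul]
    rw [← Finset.mul_sum, h1, mul_zero]

/-- The number of slots with the letter `i`. -/
def cnt {σ : Type*} [DecidableEq σ] (g : κ → σ) (i : σ) : ℕ :=
  (Finset.univ.filter (fun s => g s = i)).card

/-- The sum of the values of `f` at the words in the letters `x i` with `w i` letters `x i`. -/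
def ct {σ : Type*} [Fintype σ] [DecidableEq σ] (f : ML k E κ) (x : σ → E → k) (w : σ → ℕ) : k :=
  ∑ g ∈ Finset.univ.filter (fun g : κ → σ => cnt g = w), f (fun s => x (g s))

end Diag

section Slots

variable {E : Type*} {k : Type*} [Field k] {ι : Type*} [Fintype ι] [DecidableEq ι]

/-- The argument `x` in the slots of `S`, `y` in the others. -/
def dg (S : Finset ι) (y : ι → E → k) (x : E → k) : ι → E → k := fun s => if s ∈ S then x else y s

/-- The multilinear functions which vanish if the arguments in the slots of `S` are the same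
element of `R`. -/
def DG (R : Submodule k (E → k)) (S : Finset ι) : Submodule k (ML k E ι) where
  carrier := {f | ∀ y, ∀ x ∈ R, f (dg S y x) = 0}
  add_mem' := by
    intro f g hf hg y x hx
    simp [hf y x hx, hg y x hx]
  zero_mem' := by
    intro y x _
    rfl
  smul_mem' := by
    intro c f hf y x hx
    simp [hf y x hx]

/-- The multilinear functions which are alternating in the slots outside `S`. -/
def AL (k E : Type*) [Field k] (S : Finset ι) : Submodule k (ML k E ι) where
  carrier := {f | ∀ (y : ι → E → k) (s s' : ι), s ∉ S → s' ∉ S → s ≠ s' → y s = y s' → f y = 0}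
  add_mem' := by
    intro f g hf hg y s s' h1 h2 h3 h4
    simp [hf y s s' h1 h2 h3 h4, hg y s s' h1 h2 h3 h4]
  zero_mem' := by
    intro y s s' _ _ _ _
    rfl
  smul_mem' := by
    intro c f hf y s s' h1 h2 h3 h4
    simp [hf y s s' h1 h2 h3 h4]

/-- `J_F` and alternating outside `S`. -/
def JL (Ω : Matroid E) (S : Finset ι) (F : PF Ω) : Submodule k (ML k E ι) := JF Ω F ⊓ AL k E S

/-- The slots `a, ..., m - 1`. -/
def hi (m a : ℕ) : Finset (Fin m) := Finset.univ.filter (fun s => a ≤ s.val)

end Slots

section Rows

variable {E : Type*} [Fintype E] {k : Type*} [Field k] {κ : Type*} [Fintype κ] [DecidableEq κ]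

/-- The vanishing statement for the diagonals of families on the flags above `C`. -/
def SZSt (Ω : Matroid E) (R : Submodule k (E → k)) (κ : Type*) [Fintype κ] [DecidableEq κ] :
    Prop :=
  ∀ C : Set E, Ω.IsFlat C → Ω.eRk C + Fintype.card κ = Ω.eRank → ∀ Z : List (Set E) → ML k E κ,
    (∀ x ∈ R ⊓ van k C, CycAll Ω C Set.univ (fun l => Z l (fun _ => x))) →
    (∀ p F s, IsFl Ω C p F → IsFl Ω F s Set.univ → 1 ≤ p.length → 1 ≤ s.length →
      Z (p ++ s) ∈ OC (R ⊓ van k F) (R ⊓ van k C) (Fintype.card κ - p.length)) →
    ∀ l, IsFl Ω C l Set.univ → ∀ x ∈ R ⊓ van k C, Z l (fun _ => x) = 0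

open Classical in
/-- The number of arguments in `F` which are needed if the other arguments are the unit
vectors at `u t`. -/
noncomputable def thr {κ' : Type*} [Fintype κ'] (Ω : Matroid E) (m : ℕ) (u : κ' → E)
    (F : PF Ω) : ℕ :=
  m - (rho Ω F + (Finset.univ.filter (fun t => u t ∉ F.1)).card)

/-- The statement on rows for the fixed elements `u`, for the function `z`. -/
def RowSt {κ' : Type*} [Fintype κ'] (Ω : Matroid E) (R : Submodule k (E → k)) (m j : ℕ)
    (u : κ' → E) (z : Finset (PF Ω) → ML k E κ) : Prop :=
  ∃ w : Finset (PF Ω) → ML k E κ,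
    (∀ c, w c ≠ 0 → IsChain (· ≤ ·) (c : Set (PF Ω)) ∧ c.card = j + 1) ∧
    (∀ c, ∀ F ∈ c, w c ∈ OC (R ⊓ van k F.1) R (thr Ω m u F)) ∧
    ∀ c, z c - bd (rho Ω) w c ∈ ZD R κ

end Rows

end Pool.Agent.AX
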