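import Pool.Agent.AX.Peel
import Pool.Agent.Q2.FlLem

/-!
One additive slot on all flags above `C`.

Proof of `desc`. Claim: for all `j`, `j + 2 ≤ n`: for all `p`, `F`, `s` with `IsFl Ω C p F`,
`IsFl Ω F s univ`, `p.length = j`, and `x ∈ Rel k v ⊓ van k F`: `A (p ++ s) x = 0`. Descending
induction from `j = n - 2` (`hkill`). Step from `j` to `j - 1`, `1 ≤ j`: let `p, F, s` be given,
`p.length = j - 1`; `s.length = n - (j - 1) ≥ 3` (`IsFl.rk`, `IsFl.length_eq`; `Ω.eRk univ = Ω.eRank`), so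
`s = P0 :: L0 :: F3 :: s'`. Apply `peel` with `G := F`, `F3`, `W := k` and
`A' P L x := A (p ++ P :: L :: F3 :: s') x`:
* for `Cov Ω F P`, `Cov Ω P L`, `Cov Ω L F3` the list `p ++ P :: L :: F3 :: s'` is a flag from `C`
  (`IsFl.append`), and `van k F ≤ van k C` (`IsFl.subset`): `hadd`.
* `hkill`: the claim for `j`, `p ++ [P]`, `P`, `L :: F3 :: s'` (`List.append_assoc`).
* `hc1`: `hcyc x` for `A := F`, `B := L`, `p`, `F3 :: s'`.
* `hc2`: `hcyc x` for `A := P`, `B := F3`, `p ++ [P]`, `s'` (`Ω.eRk F3 = Ω.eRk P + 2`).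
For `j = 0`: `p = []`, `F = C`: the theorem.
-/

set_option autoImplicit false

namespace Pool.Agent.AX

open Pool.Agent.W3 Pool.Agent.Q2

variable {E : Type*} [Fintype E] {N Ω : Matroid E} {q : ℕ} {k T : Type*} [Field k]
  [AddCommGroup T] [Module k T] {v : E → T}

theorem desc (hc : Compl N Ω q) (hv : IsRep k N v) (hq : 2 ≤ q) {C : Set E}
    (hC : Ω.IsFlat C) {n : ℕ} (hn : 3 ≤ n) (hrk : Ω.eRk C + n = Ω.eRank)
    (A : List (Set E) → (E → k) → k)
    (hadd : ∀ l, IsFl Ω C l Set.univ → ∀ x ∈ Rel k v ⊓ van k C, ∀ y ∈ Rel k v ⊓ van k C,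
      A l (x + y) = A l x + A l y)
    (hcyc : ∀ x ∈ Rel k v ⊓ van k C, CycAll Ω C Set.univ (fun l => A l x))
    (hkill : ∀ p F s, IsFl Ω C p F → IsFl Ω F s Set.univ → p.length + 2 = n →
      ∀ x ∈ Rel k v ⊓ van k F, A (p ++ s) x = 0) :
    ∀ l, IsFl Ω C l Set.univ → ∀ x ∈ Rel k v ⊓ van k C, A l x = 0 := by
  have hrku : Ω.eRk Set.univ = Ω.eRk C + n := by
    rw [hrk]
    exact Ω.eRk_univ_eq
  have key : ∀ i : ℕ, ∀ p F s, IsFl Ω C p F → IsFl Ω F s Set.univ → p.length + 2 + i = n →
      ∀ x ∈ Rel k v ⊓ van k F, A (p ++ s) x = 0 := by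
    intro i
    induction i with
    | zero =>
      intro p F s hp hs hl x hx
      exact hkill p F s hp hs hl x hx
    | succ i ih =>
      intro p F s hp hs hl x hx
      have hlen : (p ++ s).length = n := (hp.append hs).length_eq hrku
      rw [List.length_append] at hlen
      match s, hs, hlen with
      | [], _, hlen => simp at hlen; omega
      | [_], _, hlen => simp at hlen; omega
      | [_, _], _, hlen => simp at hlen; omega
      | P0 :: L0 :: F3 :: s', hs, hlen =>
        have hFP : Cov Ω F P0 := hs.1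
        have hPL : Cov Ω P0 L0 := hs.2.1
        have hLF : Cov Ω L0 F3 := hs.2.2.1
        have hs' : IsFl Ω F3 s' Set.univ := hs.2.2.2
        have hCF : C ⊆ F := hp.subset
        have hres : ∀ y, y ∈ Rel k v ⊓ van k F → y ∈ Rel k v ⊓ van k C := fun y hy =>
          ⟨hy.1, fun e he => hy.2 e (hCF he)⟩
        refine peel (G := F) (F3 := F3) hc hv hq hFP.1 hLF.2.1
          (hFP.2.2.1.trans (hPL.2.2.1.trans hLF.2.2.1)) ?_
          (fun P L x => A (p ++ P :: L :: F3 :: s') x) ?_ ?_ ?_ ?_ P0 L0 hFP hPL hLF x hx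
        · rw [hLF.2.2.2, cov_rk_two hFP hPL, add_assoc]
          norm_num
        · intro P L h1 h2 h3 x hx y hy
          have h5 : IsFl Ω F (P :: L :: F3 :: s') Set.univ := ⟨h1, h2, h3, hs'⟩
          exact hadd _ (hp.append h5) x (hres x hx) y (hres y hy)
        · intro P L h1 h2 h3 x hx
          have h6 : IsFl Ω F [P] P := ⟨h1, rfl⟩
          have h4 := ih (p ++ [P]) P (L :: F3 :: s') (hp.append h6) ⟨h2, h3, hs'⟩
            (by rw [List.length_append, List.length_singleton]; omega) x hx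
          rwa [List.append_assoc, List.singleton_append] at h4
        · intro L h1 h2 h3 h4 x hx
          exact hcyc x (hres x hx) F L p (F3 :: s') hp hFP.1 h1 h2 h3 ⟨h4, hs'⟩
        · intro P h1 h2 x hx
          have h3 : Ω.eRk F3 = Ω.eRk P + 2 := by
            rw [hLF.2.2.2, cov_rk_two hFP hPL, h1.2.2.2, add_assoc, add_assoc]
            norm_num
          have h6 : IsFl Ω F [P] P := ⟨h1, rfl⟩
          have h4 := hcyc x (hres x hx) P F3 (p ++ [P]) s' (hp.append h6) h1.2.1
            hLF.2.1 h2 h3 hs'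
          simp only [List.append_assoc, List.singleton_append] at h4
          exact h4
  intro l hl x hx
  exact key (n - 2) [] C l rfl hl (by simp; omega) x hx

end Pool.Agent.AX
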