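import Pool.Agent.AX.Defs

/-!
Polynomial identities for multilinear functions over an infinite field.

Proofs.
* `sum_cnt`: `Finset.card_eq_sum_card_fiberwise` (or `Finset.sum_card_fiberwise`..) for `g` and all slots.
  `sum_cnt_on`: the same for the slots with `g s ∈ U`.
* `prod_cnt`: `Finset.prod_comp` or `Finset.prod_fiberwise'`: `∏ s, τ (g s) = ∏ i, τ i ^ cnt g i`.
* `inf_poly`: let `P : MvPolynomial σ k` be the sum over `g` of the monomials with exponent
  `Finsupp.equivFunOnFinite.symm (cnt g)` and coefficient `c g`. Its value at `τ` is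
  `∑ g, c g * ∏ i, τ i ^ cnt g i = ∑ g, (∏ s, τ (g s)) * c g = 0` (`prod_cnt`), so `P = 0`
  (`MvPolynomial.funext`), and the coefficient of `P` at `w` is the sum in question
  (`MvPolynomial.coeff_sum`, `coeff_monomial`).
* `expand`: `MultilinearMap.map_sum`, `map_smul_univ`.
* `ct_zero`: `inf_poly` for `c g = f (fun s => x (g s))` and `expand`.
* `ct_diag`: `∑ i, τ i • x i ∈ R`.
* `ct_equiv`: reindex the sum by `g ↦ e ∘ g` (`Finset.sum_equiv` with `Equiv.arrowCongr`..).
* `ct_one`: the `g : κ → κ` with all fibres of one element are the bijections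
  (`Finset.sum_bij` from `Equiv.Perm κ`; `Fintype.bijective_iff_surjective_and_card` or
  `Finite.injective_iff_bijective`).
* `ct_unit`: there is exactly one `g : κ → Unit`.
-/

set_option autoImplicit false

namespace Pool.Agent.AX

open Pool.Agent.W3

section

variable {κ : Type*} [Fintype κ] [DecidableEq κ] {σ : Type*} [Fintype σ] [DecidableEq σ]

theorem sum_cnt_on (g : κ → σ) (U : Finset σ) :
    ∑ i ∈ U, cnt g i = (Finset.univ.filter (fun s => g s ∈ U)).card := by
  rw [Finset.card_eq_sum_card_fiberwise (f := g) (t := U)]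
  · refine Finset.sum_congr rfl fun i hi => ?_
    unfold cnt
    congr 1
    ext s
    simp only [Finset.mem_filter, Finset.mem_univ, true_and]
    constructor
    · intro h
      exact ⟨h ▸ hi, h⟩
    · intro h
      exact h.2
  · intro s hs
    simpa using hs

theorem sum_cnt (g : κ → σ) : ∑ i, cnt g i = Fintype.card κ := by
  rw [sum_cnt_on g Finset.univ]
  simp

theorem prod_cnt {k : Type*} [Field k] (g : κ → σ) (τ : σ → k) :
    ∏ s, τ (g s) = ∏ i, τ i ^ cnt g i := by
  rw [← Finset.prod_fiberwise' Finset.univ g τ]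
  refine Finset.prod_congr rfl fun i _ => ?_
  rw [Finset.prod_const]
  rfl

theorem inf_poly {k : Type*} [Field k] [Infinite k] (c : (κ → σ) → k)
    (h : ∀ τ : σ → k, ∑ g : κ → σ, (∏ s, τ (g s)) * c g = 0) (w : σ → ℕ) :
    ∑ g ∈ Finset.univ.filter (fun g : κ → σ => cnt g = w), c g = 0 := by
  classical
  have hP : (∑ g : κ → σ, MvPolynomial.monomial (Finsupp.equivFunOnFinite.symm (cnt g)) (c g)
      : MvPolynomial σ k) = 0 := by
    apply MvPolynomial.funext
    intro τ
    rw [map_sum, map_zero, ← h τ]
    refine Finset.sum_congr rfl fun g _ => ?_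
    rw [MvPolynomial.eval_monomial, prod_cnt, mul_comm]
    congr 1
    rw [Finsupp.prod_fintype _ _ (fun i => pow_zero _)]
    rfl
  have h2 := congrArg (MvPolynomial.coeff (Finsupp.equivFunOnFinite.symm w)) hP
  rw [MvPolynomial.coeff_sum, MvPolynomial.coeff_zero] at h2
  rw [← h2, Finset.sum_filter]
  refine Finset.sum_congr rfl fun g _ => ?_
  rw [MvPolynomial.coeff_monomial]
  by_cases hg : cnt g = w
  · rw [if_pos hg, if_pos (by rw [hg])]
  · rw [if_neg hg, if_neg]
    intro h3
    exact hg (Finsupp.equivFunOnFinite.symm.injective h3)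

end

section

variable {E : Type*} {k : Type*} [Field k] {κ : Type*} [Fintype κ] [DecidableEq κ]
  {σ : Type*} [Fintype σ] [DecidableEq σ]

theorem expand (f : ML k E κ) (x : σ → E → k) (τ : σ → k) :
    f (fun _ => ∑ i, τ i • x i) = ∑ g : κ → σ, (∏ s, τ (g s)) * f (fun s => x (g s)) := by
  rw [MultilinearMap.map_sum f (fun (_ : κ) (i : σ) => τ i • x i)]
  refine Finset.sum_congr rfl fun g _ => ?_
  rw [MultilinearMap.map_smul_univ f (fun s => τ (g s)) (fun s => x (g s)), smul_eq_mul]

theorem ct_zero [Infinite k] (f : ML k E κ) (x : σ → E → k)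
    (h : ∀ τ : σ → k, f (fun _ => ∑ i, τ i • x i) = 0) (w : σ → ℕ) : ct f x w = 0 := by
  refine inf_poly (fun g => f (fun s => x (g s))) (fun τ => ?_) w
  rw [← expand f x τ]
  exact h τ

theorem ct_diag [Infinite k] {R : Submodule k (E → k)} {f : ML k E κ} (hf : f ∈ ZD R κ)
    (x : σ → E → k) (hx : ∀ i, x i ∈ R) (w : σ → ℕ) : ct f x w = 0 :=
  ct_zero f x (fun τ => hf _ (R.sum_mem fun i _ => R.smul_mem _ (hx i))) w

theorem ct_sum {α : Type*} (A : Finset α) (F : α → ML k E κ) (x : σ → E → k) (w : σ → ℕ) :
    ct (∑ a ∈ A, F a) x w = ∑ a ∈ A, ct (F a) x w := by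
  unfold ct
  rw [Finset.sum_comm]
  refine Finset.sum_congr rfl fun g _ => ?_
  rw [sum_apply]

theorem ct_equiv {σ' : Type*} [Fintype σ'] [DecidableEq σ'] (e : σ' ≃ σ) (f : ML k E κ)
    (x : σ → E → k) (w : σ → ℕ) :
    ct f (fun i => x (e i)) (fun i => w (e i)) = ct f x w := by
  unfold ct
  refine Finset.sum_equiv (Equiv.arrowCongr (Equiv.refl κ) e) ?_ ?_
  · intro g
    simp only [Finset.mem_filter, Finset.mem_univ, true_and]
    have h1 : ∀ i, cnt (Equiv.arrowCongr (Equiv.refl κ) e g) (e i) = cnt g i := by
      intro i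
      unfold cnt
      congr 1
      ext s
      simp
    constructor
    · intro h
      funext j
      obtain ⟨i, rfl⟩ := e.surjective j
      rw [h1, h]
    · intro h
      funext i
      rw [← h1, h]
  · intro g _
    rfl

theorem ct_one (f : ML k E κ) (x : κ → E → k) :
    ct f x (fun _ => 1) = ∑ e : Equiv.Perm κ, f (fun s => x (e s)) := by
  unfold ct
  symm
  have hbij : ∀ g : κ → κ, cnt g = (fun _ => 1) ↔ Function.Bijective g := by
    intro g
    constructor
    · intro h
      rw [← Finite.surjective_iff_bijective]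
      intro i
      have h1 := congrFun h i
      unfold cnt at h1
      rw [Finset.card_eq_one] at h1
      obtain ⟨a, ha⟩ := h1
      have h2 : a ∈ Finset.univ.filter (fun s => g s = i) := by
        rw [ha]
        simp
      exact ⟨a, by simpa using h2⟩
    · intro h
      funext i
      unfold cnt
      rw [Finset.card_eq_one]
      obtain ⟨a, ha⟩ := h.2 i
      refine ⟨a, ?_⟩
      ext s
      simp only [Finset.mem_filter, Finset.mem_univ, true_and, Finset.mem_singleton]
      constructor
      · intro h3
        exact h.1 (h3.trans ha.symm)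
      · intro h3
        rw [h3, ha]
  refine Finset.sum_bij (fun e _ => ⇑e) ?_ ?_ ?_ ?_
  · intro e _
    simp only [Finset.mem_filter, Finset.mem_univ, true_and]
    exact (hbij _).2 e.bijective
  · intro e _ e' _ h
    exact DFunLike.coe_injective h
  · intro g hg
    simp only [Finset.mem_filter, Finset.mem_univ, true_and] at hg
    exact ⟨Equiv.ofBijective g ((hbij g).1 hg), Finset.mem_univ _, rfl⟩
  · intro e _
    rfl

theorem ct_unit (f : ML k E κ) (x : E → k) :
    ct f (fun _ : Unit => x) (fun _ => Fintype.card κ) = f (fun _ => x) := by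
  unfold ct
  have h1 : Finset.univ.filter (fun g : κ → Unit => cnt g = fun _ => Fintype.card κ)
      = {fun _ => ()} := by
    ext g
    simp only [Finset.mem_filter, Finset.mem_univ, true_and, Finset.mem_singleton]
    constructor
    · intro _
      trivial
    · intro _
      funext i
      unfold cnt
      simp
  rw [h1, Finset.sum_singleton]

end

end Pool.Agent.AX
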