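import Pool.Agent.AX.Inf1

/-!
The order condition for words with many letters.

Proof of `ct_order`. If `∑ i, w i` is not `Fintype.card κ` then no `g` has `cnt g = w` (`sum_cnt`)
and the sum is empty. Otherwise let `j := ∑ i ∈ Uᶜ, w i`, so `j + ∑ i ∈ U, w i = card κ` and
`j + θ ≤ card κ`. Apply `inf_poly` to
`c g := if (univ.filter (fun s => g s ∉ U)).card = j then f (fun s => x (g s)) else 0`. Its hypothesis:
let `τ` be given, `X := ∑ i ∈ U, τ i • x i ∈ A`, `X' := ∑ i ∈ Uᶜ, τ i • x i ∈ B`. For a set `J` of slots,
`two J X X' = fun s => ∑ i ∈ (if s ∈ J then Uᶜ else U), τ i • x i`, so by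
`MultilinearMap.map_sum_finset` and `map_smul_univ`, `f (two J X X')` is the sum of
`(∏ s, τ (g s)) * f (fun s => x (g s))` over all `g` with `g s ∉ U ↔ s ∈ J`. The sum over all `J` with
`j` elements is `∑ g, (∏ s, τ (g s)) * c g` (every `g` occurs for exactly one `J`,
namely `univ.filter (fun s => g s ∉ U)`; `Finset.sum_fiberwise` or `Finset.sum_comm'`), and on the other
hand it is `cf f X X' j = 0` by hypothesis. The result of `inf_poly` is the claim, because
`cnt g = w` implies `(univ.filter (fun s => g s ∉ U)).card = j` (`sum_cnt_on` for `Uᶜ`).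
-/

set_option autoImplicit false

namespace Pool.Agent.AX

open Pool.Agent.W3

variable {E : Type*} {k : Type*} [Field k] {κ : Type*} [Fintype κ] [DecidableEq κ]
  {σ : Type*} [Fintype σ] [DecidableEq σ]

theorem ct_order [Infinite k] {A B : Submodule k (E → k)} {θ : ℕ} {f : ML k E κ}
    (hf : f ∈ OC A B θ) (U : Finset σ) (x : σ → E → k) (hA : ∀ i ∈ U, x i ∈ A)
    (hB : ∀ i, i ∉ U → x i ∈ B) (w : σ → ℕ) (hw : θ ≤ ∑ i ∈ U, w i) : ct f x w = 0 := by
  classical
  by_cases hc : ∑ i, w i = Fintype.card κ
  swap
  · unfold ct
    apply Finset.sum_eq_zero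
    intro g hg
    exfalso
    apply hc
    rw [← (Finset.mem_filter.1 hg).2]
    exact sum_cnt g
  set j : ℕ := ∑ i ∈ Uᶜ, w i with hj
  have hsplit : ∑ i ∈ U, w i + j = Fintype.card κ := by
    rw [← hc, hj]; exact Finset.sum_add_sum_compl U w
  have hjθ : j + θ ≤ Fintype.card κ := by omega
  set c : (κ → σ) → k := fun g =>
    if (Finset.univ.filter (fun s => g s ∉ U)).card = j then f (fun s => x (g s)) else 0 with hcdef
  have key : ∀ τ : σ → k, ∑ g : κ → σ, (∏ s, τ (g s)) * c g = 0 := by
    intro τ
    set X : E → k := ∑ i ∈ U, τ i • x i with hX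
    set X' : E → k := ∑ i ∈ Uᶜ, τ i • x i with hX'
    have hXA : X ∈ A := A.sum_mem fun i hi => A.smul_mem _ (hA i hi)
    have hXB : X' ∈ B := B.sum_mem fun i hi => B.smul_mem _ (hB i (Finset.mem_compl.1 hi))
    have h0 : cf f X X' j = 0 := hf X hXA X' hXB j hjθ
    rw [← h0]
    unfold cf
    have hJ : ∀ J : Finset κ, f (two J X X') =
        ∑ g ∈ Finset.univ.filter
          (fun g : κ → σ => Finset.univ.filter (fun s => g s ∉ U) = J),
          (∏ s, τ (g s)) * f (fun s => x (g s)) := by
      intro J
      have h1 : two J X X' = fun s => ∑ i ∈ (if s ∈ J then Uᶜ else U), τ i • x i := by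
        funext s
        unfold two
        split_ifs <;> rfl
      rw [h1, f.map_sum_finset]
      have hset : Fintype.piFinset (fun s : κ => if s ∈ J then Uᶜ else U) =
          Finset.univ.filter
            (fun g : κ → σ => Finset.univ.filter (fun s => g s ∉ U) = J) := by
        ext g
        simp only [Fintype.mem_piFinset, Finset.mem_filter, Finset.mem_univ, true_and,
          Finset.ext_iff]
        constructor
        · intro h s
          have := h s
          by_cases hs : s ∈ J
          · simp only [hs, if_true, Finset.mem_compl] at this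
            simp [hs, this]
          · simp only [hs, if_false] at this
            simp [hs, this]
        · intro h s
          have := h s
          by_cases hs : s ∈ J
          · simp only [hs, if_true, Finset.mem_compl]
            exact this.2 hs
          · simp only [hs, if_false]
            by_contra hg
            exact hs (this.1 hg)
      rw [hset]
      refine Finset.sum_congr rfl fun g _ => ?_
      rw [f.map_smul_univ (fun s => τ (g s)) (fun s => x (g s)), smul_eq_mul]
    rw [Finset.sum_congr rfl fun J _ => hJ J]
    have hfib := Finset.sum_fiberwise_of_maps_to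
      (s := (Finset.univ : Finset (κ → σ)).filter
        (fun g => (Finset.univ.filter (fun s => g s ∉ U)).card = j))
      (t := (Finset.univ : Finset κ).powersetCard j)
      (g := fun g : κ → σ => Finset.univ.filter (fun s => g s ∉ U))
      (fun g hg => by
        rw [Finset.mem_powersetCard]
        exact ⟨Finset.subset_univ _, (Finset.mem_filter.1 hg).2⟩)
      (fun g => (∏ s, τ (g s)) * f (fun s => x (g s)))
    have hL : ∑ g : κ → σ, (∏ s, τ (g s)) * c g =
        ∑ g ∈ (Finset.univ : Finset (κ → σ)).filter
        (fun g => (Finset.univ.filter (fun s => g s ∉ U)).card = j),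
          (∏ s, τ (g s)) * f (fun s => x (g s)) := by
      rw [Finset.sum_filter]
      refine Finset.sum_congr rfl fun g _ => ?_
      simp only [hcdef]
      split_ifs <;> simp
    rw [hL, ← hfib]
    refine Finset.sum_congr rfl fun J hJm => ?_
    refine Finset.sum_congr ?_ fun _ _ => rfl
    ext g
    simp only [Finset.mem_filter, Finset.mem_univ, true_and]
    constructor
    · exact fun h => h.2
    · intro h
      refine ⟨?_, h⟩
      rw [h]
      exact (Finset.mem_powersetCard.1 hJm).2
  have := inf_poly c key w
  rw [← this]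
  unfold ct
  refine Finset.sum_congr rfl fun g hg => ?_
  have hg' : cnt g = w := (Finset.mem_filter.1 hg).2
  have hcard : (Finset.univ.filter (fun s => g s ∉ U)).card = j := by
    have h2 := sum_cnt_on g Uᶜ
    rw [hg'] at h2
    rw [hj, h2]
    congr 1
    ext s
    simp
  simp only [hcdef, hcard, if_true]

end Pool.Agent.AX
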