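import Pool.Agent.AX.Inf1

/-!
Splitting one letter.

The words in the letters `x'` (`Option σ`) with prescribed total content `w` are split according to the number of
letters `none`.
-/

set_option autoImplicit false

namespace Pool.Agent.AX

open Pool.Agent.W3

variable {E : Type*} {k : Type*} [Field k] {κ : Type*} [Fintype κ] [DecidableEq κ]
  {σ : Type*} [Fintype σ] [DecidableEq σ]

/-- the projection of the letters -/
private def pr (i0 : σ) : Option σ → σ := fun o => o.getD i0

private theorem cnt_pr_ne (i0 : σ) (g : κ → Option σ) (i : σ) (hi : i ≠ i0) :
    cnt (pr i0 ∘ g) i = cnt g (some i) := by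
  unfold cnt
  congr 1
  ext s
  simp only [Finset.mem_filter, Finset.mem_univ, true_and, Function.comp, pr]
  cases h : g s with
  | none =>
    simp only [Option.getD_none]
    constructor
    · intro h1
      exact absurd h1.symm hi
    · intro h1
      exact absurd h1 (by simp)
  | some a => simp

private theorem cnt_pr_eq (i0 : σ) (g : κ → Option σ) :
    cnt (pr i0 ∘ g) i0 = cnt g none + cnt g (some i0) := by
  unfold cnt
  rw [← Finset.card_union_of_disjoint]
  · congr 1
    ext s
    simp only [Finset.mem_filter, Finset.mem_univ, true_and, Function.comp, pr, Finset.mem_union]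
    cases h : g s with
    | none => simp
    | some a => simp
  · rw [Finset.disjoint_left]
    intro s hs hs'
    simp only [Finset.mem_filter, Finset.mem_univ, true_and] at hs hs'
    rw [hs] at hs'
    simp at hs'

/-- the content with `v` letters `none` -/
private def wv (w : σ → ℕ) (i0 : σ) (v : ℕ) : Option σ → ℕ :=
  fun o => o.elim v (fun i => if i = i0 then w i0 - v else w i)

private theorem cnt_iff (w : σ → ℕ) (i0 : σ) (v : ℕ) (hv : v ≤ w i0) (g : κ → Option σ) :
    (cnt (pr i0 ∘ g) = w ∧ cnt g none = v) ↔ cnt g = wv w i0 v := by
  constructor
  · rintro ⟨h1, h2⟩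
    funext o
    cases o with
    | none => exact h2
    | some i =>
      show cnt g (some i) = if i = i0 then w i0 - v else w i
      by_cases hi : i = i0
      · subst hi
        rw [if_pos rfl]
        have h3 := cnt_pr_eq i g
        rw [h1, h2] at h3
        omega
      · rw [if_neg hi, ← cnt_pr_ne i0 g i hi, h1]
  · intro h
    have h2 : cnt g none = v := by rw [h]; rfl
    refine ⟨?_, h2⟩
    funext i
    by_cases hi : i = i0
    · subst hi
      rw [cnt_pr_eq, h2, h]
      show v + (if i = i then w i - v else w i) = w i
      rw [if_pos rfl]
      omega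
    · rw [cnt_pr_ne i0 g i hi, h]
      show (if i = i0 then w i0 - v else w i) = w i
      rw [if_neg hi]

private theorem expand_split (f : ML k E κ) (x : σ → E → k) (i0 : σ) (u u' : E → k) (g : κ → σ) :
    f (fun s => Function.update x i0 (u + u') (g s)) =
      ∑ g' ∈ Finset.univ.filter (fun g' : κ → Option σ => pr i0 ∘ g' = g),
        f (fun s => (g' s).elim u' (Function.update x i0 u)) := by
  have h1 : (Finset.univ.filter (fun g' : κ → Option σ => pr i0 ∘ g' = g)) =
      Fintype.piFinset (fun s => if g s = i0 then ({some i0, none} : Finset (Option σ))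
        else {some (g s)}) := by
    ext g'
    rw [Fintype.mem_piFinset, Finset.mem_filter]
    simp only [Finset.mem_univ, true_and]
    constructor
    · rintro rfl s
      cases h : g' s with
      | none => simp [pr, h]
      | some a =>
        by_cases ha : a = i0
        · simp [pr, h, ha]
        · simp [pr, h, ha]
    · intro h
      funext s
      have := h s
      by_cases hg : g s = i0
      · rw [if_pos hg] at this
        simp only [Finset.mem_insert, Finset.mem_singleton] at this
        rcases this with h2 | h2
        · simp [pr, h2, hg]
        · simp [pr, h2, hg]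
      · rw [if_neg hg, Finset.mem_singleton] at this
        simp [pr, this]
  rw [h1]
  have h2 := f.map_sum_finset
    (fun (_ : κ) (o : Option σ) => o.elim u' (Function.update x i0 u))
    (fun s => if g s = i0 then ({some i0, none} : Finset (Option σ)) else {some (g s)})
  rw [← h2]
  congr 1
  funext s
  by_cases hg : g s = i0
  · rw [if_pos hg, hg, Finset.sum_pair (by simp)]
    simp
  · rw [if_neg hg, Finset.sum_singleton]
    simp [Function.update_of_ne hg]

theorem ct_add (f : ML k E κ) (x : σ → E → k) (i0 : σ) (u u' : E → k) (w : σ → ℕ)
    (h1 : 1 ≤ w i0)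
    (h : ∀ w' : Option σ → ℕ, 1 ≤ w' none → 1 ≤ w' (some i0) →
      (∀ i, i ≠ i0 → w' (some i) = w i) → w' none + w' (some i0) = w i0 →
      ct f (fun o : Option σ => o.elim u' (Function.update x i0 u)) w' = 0) :
    ct f (Function.update x i0 (u + u')) w =
      ct f (Function.update x i0 u) w + ct f (Function.update x i0 u') w := by
  set F : (κ → Option σ) → k := fun g' => f (fun s => (g' s).elim u' (Function.update x i0 u)) with hF
  -- the sum over all words with total content `w`
  have hA : ct f (Function.update x i0 (u + u')) w =
      ∑ g' ∈ Finset.univ.filter (fun g' : κ → Option σ => cnt (pr i0 ∘ g') = w), F g' := by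
    unfold ct
    rw [Finset.sum_congr rfl (fun g _ => expand_split f x i0 u u' g)]
    rw [← Finset.sum_fiberwise_of_maps_to (g := fun g' : κ → Option σ => pr i0 ∘ g')
      (t := Finset.univ.filter (fun g : κ → σ => cnt g = w))]
    · refine Finset.sum_congr rfl ?_
      intro g hg
      refine Finset.sum_congr ?_ (fun _ _ => rfl)
      ext g'
      simp only [Finset.mem_filter, Finset.mem_univ, true_and] at hg ⊢
      constructor
      · intro h3
        exact ⟨by rw [h3]; exact hg, h3⟩
      · intro h3
        exact h3.2
    · intro g' hg'
      simpa using hg'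
  have hB : ∑ g' ∈ Finset.univ.filter (fun g' : κ → Option σ => cnt (pr i0 ∘ g') = w), F g' =
      ∑ v ∈ Finset.range (w i0 + 1),
        ct f (fun o : Option σ => o.elim u' (Function.update x i0 u)) (wv w i0 v) := by
    rw [← Finset.sum_fiberwise_of_maps_to (g := fun g' : κ → Option σ => cnt g' none)
      (t := Finset.range (w i0 + 1))]
    · refine Finset.sum_congr rfl ?_
      intro v hv
      have hv' : v ≤ w i0 := by simpa [Nat.lt_succ_iff] using hv
      unfold ct
      refine Finset.sum_congr ?_ (fun _ _ => rfl)
      ext g'
      simp only [Finset.mem_filter, Finset.mem_univ, true_and]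
      exact cnt_iff w i0 v hv' g'
    · intro g' hg'
      simp only [Finset.mem_filter, Finset.mem_univ, true_and] at hg'
      rw [Finset.mem_range]
      have := cnt_pr_eq i0 g'
      rw [hg'] at this
      omega
  have hC : ∑ v ∈ Finset.range (w i0 + 1),
        ct f (fun o : Option σ => o.elim u' (Function.update x i0 u)) (wv w i0 v) =
      ct f (fun o : Option σ => o.elim u' (Function.update x i0 u)) (wv w i0 0) +
      ct f (fun o : Option σ => o.elim u' (Function.update x i0 u)) (wv w i0 (w i0)) := by
    have h2 : ({0, w i0} : Finset ℕ) ⊆ Finset.range (w i0 + 1) := by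
      intro v hv
      simp only [Finset.mem_insert, Finset.mem_singleton] at hv
      rw [Finset.mem_range]
      omega
    rw [← Finset.sum_subset h2, Finset.sum_pair (by omega)]
    intro v hv hv'
    simp only [Finset.mem_insert, Finset.mem_singleton, not_or] at hv'
    rw [Finset.mem_range] at hv
    apply h
    · show 1 ≤ v
      omega
    · show 1 ≤ (if i0 = i0 then w i0 - v else w i0)
      rw [if_pos rfl]
      omega
    · intro i hi
      show (if i = i0 then w i0 - v else w i) = w i
      rw [if_neg hi]
    · show v + (if i0 = i0 then w i0 - v else w i0) = w i0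
      rw [if_pos rfl]
      omega
  have hD : ct f (fun o : Option σ => o.elim u' (Function.update x i0 u)) (wv w i0 0) =
      ct f (Function.update x i0 u) w := by
    unfold ct
    symm
    refine Finset.sum_bij (fun g _ => fun s => some (g s)) ?_ ?_ ?_ ?_
    · intro g hg
      simp only [Finset.mem_filter, Finset.mem_univ, true_and] at hg ⊢
      rw [← cnt_iff w i0 0 (Nat.zero_le _)]
      constructor
      · rw [← hg]
        rfl
      · unfold cnt
        simp
    · intro g _ g' _ hgg
      funext s
      have := congrFun hgg s
      simpa using this
    · intro g' hg'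
      simp only [Finset.mem_filter, Finset.mem_univ, true_and] at hg'
      rw [← cnt_iff w i0 0 (Nat.zero_le _)] at hg'
      obtain ⟨h3, h4⟩ := hg'
      have h5 : ∀ s, g' s ≠ none := by
        intro s hs
        unfold cnt at h4
        rw [Finset.card_eq_zero, Finset.filter_eq_empty_iff] at h4
        exact h4 (Finset.mem_univ s) hs
      refine ⟨pr i0 ∘ g', by simpa using h3, ?_⟩
      funext s
      obtain ⟨a, ha⟩ := Option.ne_none_iff_exists'.1 (h5 s)
      simp [pr, ha]
    · intro g _
      rfl
  have hE : ct f (fun o : Option σ => o.elim u' (Function.update x i0 u)) (wv w i0 (w i0)) =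
      ct f (Function.update x i0 u') w := by
    unfold ct
    symm
    refine Finset.sum_bij (fun g _ => fun s => if g s = i0 then none else some (g s)) ?_ ?_ ?_ ?_
    · intro g hg
      simp only [Finset.mem_filter, Finset.mem_univ, true_and] at hg ⊢
      rw [← cnt_iff w i0 (w i0) le_rfl]
      have h3 : pr i0 ∘ (fun s => if g s = i0 then none else some (g s)) = g := by
        funext s
        by_cases hs : g s = i0
        · simp [pr, hs]
        · simp [pr, hs]
      rw [h3]
      refine ⟨hg, ?_⟩
      rw [← hg]
      unfold cnt
      congr 1
      ext s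
      simp only [Finset.mem_filter, Finset.mem_univ, true_and]
      by_cases hs : g s = i0
      · simp [hs]
      · simp [hs]
    · intro g _ g' _ hgg
      funext s
      have := congrFun hgg s
      by_cases hs : g s = i0 <;> by_cases hs' : g' s = i0
      · rw [hs, hs']
      · simp [hs, hs'] at this
      · simp [hs, hs'] at this
      · simpa [hs, hs'] using this
    · intro g' hg'
      simp only [Finset.mem_filter, Finset.mem_univ, true_and] at hg'
      have h6 : cnt g' (some i0) = 0 := by
        rw [hg']
        show (if i0 = i0 then w i0 - w i0 else w i0) = 0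
        rw [if_pos rfl]
        omega
      rw [← cnt_iff w i0 (w i0) le_rfl] at hg'
      obtain ⟨h3, h4⟩ := hg'
      have h5 : ∀ s, g' s ≠ some i0 := by
        intro s hs
        unfold cnt at h6
        rw [Finset.card_eq_zero, Finset.filter_eq_empty_iff] at h6
        exact h6 (Finset.mem_univ s) hs
      refine ⟨pr i0 ∘ g', by simpa using h3, ?_⟩
      funext s
      cases hs : g' s with
      | none => simp [pr, hs]
      | some a =>
        have ha : a ≠ i0 := by
          rintro rfl
          exact h5 s hs
        simp [pr, hs, ha]
    · intro g _
      congr 1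
      funext s
      by_cases hs : g s = i0
      · simp [hs]
      · simp [hs, Function.update_of_ne hs]
  rw [hA, hB, hC, hD, hE]

end Pool.Agent.AX
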