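import Pool.Agent.AX.Defs

/-!
The alternating function of the first `a` arguments.

`comb a v r s = v s` for `s < a` and `r s` otherwise. `part ham f hf r v = f (comb a v r)`.

Proofs.
* `exists_part`: an update of `v` in the slot `i : Fin a` is an update of `comb a v r` in the slot
  `Fin.castLE ham i`; `comb a v r` has two equal arguments in slots `< a` if `v` has. (Define a
  `MultilinearMap` by `MultilinearMap.mk'` or by `f.domDomRestrict`.)
* `mem_hi`: clear. `al_top`: if `m ≤ a` or `a ≤ 1` ... see the statements.
-/

set_option autoImplicit false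

namespace Pool.Agent.AX

open Pool.Agent.W3

variable {E : Type*} {k : Type*} [Field k] {m a : ℕ}

theorem mem_hi {s : Fin m} : s ∈ hi m a ↔ a ≤ s.val := by
  unfold hi
  simp

/-- There is at most one slot outside `hi m 1`. -/
theorem al_hi_one : (AL k E (hi m 1) : Submodule k (ML k E (Fin m))) = ⊤ := by
  rw [eq_top_iff]
  intro f _ y s s' h1 h2 h3 _
  rw [mem_hi] at h1 h2
  exact absurd (Fin.ext (by omega)) h3

theorem al_anti {ι : Type*} [Fintype ι] [DecidableEq ι] {S S' : Finset ι} (h : S ⊆ S') :
    (AL k E S : Submodule k (ML k E ι)) ≤ AL k E S' := by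
  intro f hf y s s' h1 h2 h3 h4
  exact hf y s s' (fun h5 => h1 (h h5)) (fun h5 => h2 (h h5)) h3 h4

/-- A function which is alternating in two slots of `S` vanishes on the diagonal of `S`. -/
theorem al_le_dg {ι : Type*} [Fintype ι] [DecidableEq ι] {R : Submodule k (E → k)}
    {S S' : Finset ι} {s s' : ι} (hs : s ∉ S) (hs' : s' ∉ S) (hne : s ≠ s') (h1 : s ∈ S')
    (h2 : s' ∈ S') : (AL k E S : Submodule k (ML k E ι)) ≤ DG R S' := by
  intro f hf y x _
  refine hf _ s s' hs hs' hne ?_
  unfold dg
  rw [if_pos h1, if_pos h2]

theorem dg_anti {ι : Type*} [Fintype ι] [DecidableEq ι] {R : Submodule k (E → k)}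
    {S S' : Finset ι} (h : S ⊆ S') : (DG R S : Submodule k (ML k E ι)) ≤ DG R S' := by
  intro f hf y x hx
  have h1 : dg S' y x = dg S (dg S' y x) x := by
    funext s
    unfold dg
    by_cases h2 : s ∈ S
    · rw [if_pos h2, if_pos (h h2)]
    · rw [if_neg h2]
  rw [h1]
  exact hf _ x hx

/-- `v` in the slots `< a`, `r` in the others. -/
def comb (a : ℕ) (v : Fin a → E → k) (r : Fin m → E → k) : Fin m → E → k :=
  fun s => if h : s.val < a then v ⟨s.val, h⟩ else r s

theorem exists_part (ham : a ≤ m) {f : ML k E (Fin m)} (hf : f ∈ AL k E (hi m a))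
    (r : Fin m → E → k) :
    ∃ A : (E → k) [⋀^Fin a]→ₗ[k] k, ∀ v, A v = f (comb a v r) := by
  have hup : ∀ (v : Fin a → E → k) (i : Fin a) (x : E → k),
      comb a (Function.update v i x) r
        = Function.update (comb a v r) (Fin.castLE ham i) x := by
    intro v i x
    funext s
    by_cases hs : s = Fin.castLE ham i
    · subst hs
      rw [Function.update_self]
      unfold comb
      have h1 : (Fin.castLE ham i).val < a := i.2
      rw [dif_pos h1]
      have h2 : (⟨(Fin.castLE ham i).val, h1⟩ : Fin a) = i := Fin.ext rfl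
      rw [h2, Function.update_self]
    · rw [Function.update_of_ne hs]
      unfold comb
      by_cases h1 : s.val < a
      · rw [dif_pos h1, dif_pos h1, Function.update_of_ne]
        intro h2
        apply hs
        apply Fin.ext
        rw [← h2]
        rfl
      · rw [dif_neg h1, dif_neg h1]
  let g : MultilinearMap k (fun _ : Fin a => E → k) k :=
    MultilinearMap.mk' (fun v => f (comb a v r))
      (by
        intro v i x y
        simp only [hup]
        exact f.map_update_add _ _ _ _)
      (by
        intro v i c x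
        simp only [hup]
        exact f.map_update_smul _ _ _ _)
  refine ⟨{ g with map_eq_zero_of_eq' := ?_ }, fun v => rfl⟩
  intro v i j hij hne
  change f (comb a v r) = 0
  have hi1 : (Fin.castLE ham i).val < a := i.2
  have hj1 : (Fin.castLE ham j).val < a := j.2
  refine hf _ (Fin.castLE ham i) (Fin.castLE ham j) ?_ ?_ ?_ ?_
  · rw [mem_hi]
    omega
  · rw [mem_hi]
    omega
  · intro h
    apply hne
    apply Fin.ext
    have h2 := congrArg Fin.val h
    simpa using h2
  · unfold comb
    rw [dif_pos hi1, dif_pos hj1]
    exact hij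

end Pool.Agent.AX
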