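import Pool.Agent.AX.Defs

/-!
More on the numbers `thr Ω m u F = m - (rho F + #{t | u t ∉ F})`.

Proofs. `Ω.closure (F ∪ range u)` is the closure of `F ∪ {u t | u t ∉ F}`, so its rank is at most
`rho F + #{t | u t ∉ F}` (compare the private lemma `eRk_step` in W3/ColDefs). This is `rk_le`; the
others follow from it.
-/

set_option autoImplicit false

namespace Pool.Agent.AX

open Pool.Agent.W3

variable {E : Type*} [Fintype E] {Ω : Matroid E} {κ' : Type*} [Fintype κ'] {m : ℕ}

omit [Fintype κ'] in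
private theorem rho_coe2 (F : PF Ω) : (rho Ω F : ℕ∞) = Ω.eRk F.1 :=
  ENat.natCast_toNat
    (ne_top_of_le_ne_top (Set.encard_ne_top_iff.2 F.1.toFinite) (Ω.eRk_le_encard F.1))

open Classical in
theorem rk_le (hΩ : Ω.E = Set.univ) (u : κ' → E) (F : PF Ω) :
    Ω.eRk (Ω.closure (F.1 ∪ Set.range u)) ≤
      ((rho Ω F + (Finset.univ.filter (fun t => u t ∉ F.1)).card : ℕ) : ℕ∞) := by
  have h1 : F.1 ∪ Set.range u = F.1 ∪ u '' {t | u t ∉ F.1} := by
    ext e
    constructor
    · rintro (h | ⟨s, rfl⟩)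
      · exact Or.inl h
      · by_cases hF : u s ∈ F.1
        · exact Or.inl hF
        · exact Or.inr ⟨s, hF, rfl⟩
    · rintro (h | ⟨s, _, rfl⟩)
      · exact Or.inl h
      · exact Or.inr ⟨s, rfl⟩
  have h2 : (u '' {t | u t ∉ F.1}).encard ≤
      (((Finset.univ.filter (fun t => u t ∉ F.1)).card : ℕ) : ℕ∞) := by
    refine (Set.encard_image_le _ _).trans (le_of_eq ?_)
    rw [← Set.encard_coe_eq_coe_finsetCard]
    congr 1
    ext s
    simp
  rw [Matroid.eRk_closure_eq, h1]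
  refine (Ω.eRk_union_le_eRk_add_eRk _ _).trans ?_
  rw [Nat.cast_add, rho_coe2]
  exact add_le_add_right ((Ω.eRk_le_encard _).trans h2) _

theorem thr_le (hΩ : Ω.E = Set.univ) (u : κ' → E) (F G : PF Ω)
    (hG : G.1 = Ω.closure (F.1 ∪ Set.range u)) : thr Ω m u F ≤ m - rho Ω G := by
  classical
  have h1 := rk_le hΩ u F
  rw [← hG, ← rho_coe2] at h1
  have h2 : rho Ω G ≤ rho Ω F + (Finset.univ.filter (fun t => u t ∉ F.1)).card := by
    exact_mod_cast h1
  unfold thr
  have h3 : m - (rho Ω F + (Finset.univ.filter (fun t => u t ∉ F.1)).card) ≤ m - rho Ω G := by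
    omega
  convert h3

theorem thr_zero (hΩ : Ω.E = Set.univ) (hrk : Ω.eRank = m) (u : κ' → E) (F : PF Ω)
    (hG : Ω.closure (F.1 ∪ Set.range u) = Set.univ) : thr Ω m u F = 0 := by
  classical
  have h1 := rk_le hΩ u F
  rw [hG, Matroid.eRk_univ_eq, hrk] at h1
  have h2 : m ≤ rho Ω F + (Finset.univ.filter (fun t => u t ∉ F.1)).card := by
    exact_mod_cast h1
  unfold thr
  have h3 : m - (rho Ω F + (Finset.univ.filter (fun t => u t ∉ F.1)).card) = 0 := by
    omega
  convert h3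

end Pool.Agent.AX
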