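import Pool.Agent.AX.Res
import Pool.Agent.AX.Part
import Pool.Agent.AX.Thr2
import Pool.Agent.W3.Cplx
import Pool.Agent.W3.LiftThm
import Pool.Agent.AX2.YP

/-!
The obstruction in degree two.

Proof of `kap`. Let `S := hi m (m - 2) = {s1, s2}`, `s1`, `s2` the slots `m - 2`, `m - 1`; `C := Ω.closure (range u)`,
`x ∈ R ⊓ van k C`, `xH e := if e ∈ H then x e else 0`. Let `a : Fin m → E` be `u` outside `S` and an arbitrary
element of `E` on `S` (`E` is not empty, since `H ≠ C`). Then `a` is injective on `{s1, s2}ᶜ`,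
`a '' {s1, s2}ᶜ = range u`. Let `y := rarg S u (fun s => if s.1 = s1 then xH else x)`.
(1) `gt y = 0`: expand in the slots `s1`, `s2` (`MultilinearMap.map_update_sum`, twice, as `lb_lin` in
W3/LiftBase): `gt y = ∑ e, ∑ e', xH e * x e' * g (update (update a s1 e) s2 e')`. If `e ∉ H` the term is
zero (`xH e = 0`). If `e ∈ H`, `e' ∈ H` then `g (..) = 0`: otherwise (`hsupp`) the range, contained in the
flat `H` (`range u ⊆ C ⊆ H`), would be a base, but `Ω.eRk H < Ω.eRank`. So `gt y` is the sum over `e ∈ H`,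
`e' ∉ H`, which is `hbr`.
(2) `gt y = bd z1 ∅ y = ∑ F, z1 {F} y`, because `y = dg (hi m (m - 1)) y x` (`y s2 = x ∈ R`, `s2` is the only
slot of `hi m (m - 1)`), and `eps` of the empty set is one.
(3) Claim: for a proper flat `F` let `G := Ω.closure (F ∪ range u)` (`C ⊆ G`). If `G = H` then
`z1 {F} y = z1 {F} (rarg S u (fun _ => x))`, otherwise `z1 {F} y = 0`. By `rk_le` (Thr2),
`Ω.eRk G ≤ rho F + #{t | u t ∉ F}`, and `u t ∉ F` means that the unit vector `Pi.single (u t) 1` is in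
`van F`. So an argument `rarg S u y'` with at least `m - Ω.eRk G` of the two arguments `y'` in `van F` has
`m ≤ rho F + nv F (..)`, and `z1 {F}` vanishes there (`z1 {F} ∈ JF Ω F`; see `nv_rarg`).
 - `G = univ`: no condition; zero. - `G = H` (`Ω.eRk H = m - 1`): `xH - x ∈ van H ≤ van F`, so the value at
the argument with `xH - x` in the slot `s1` is zero, `MultilinearMap.map_update_sub`. - `G = C`
(`Ω.eRk C = m - 2`): `F ⊆ C`, and `x`, `xH` vanish on `C`; zero. - Otherwise `C ⊂ G ⊂ univ`, `G ≠ H`, so `G` covers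
`C` and `G ∩ H = C` (two different flats covering `C`; `Fo.cov_inter` in W3/Forms); `xH` vanishes on `F`,
because `F ∩ H ⊆ G ∩ H = C`; one argument in `van F` is enough (`Ω.eRk G = m - 1`).
(4) So the sum of `z1 {F} (rarg S u (fun _ => x)) = res S u (z1 {F}) (fun _ => x)` over the `F` with `G = H`
is zero.
-/

set_option autoImplicit false

namespace Pool.Agent.AX

open Pool.Agent.W3

variable {E : Type*} [Fintype E] [DecidableEq E] {Ω : Matroid E} {k : Type*} [Field k]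
  {R : Submodule k (E → k)} {m : ℕ}

open Classical in
/-- The hypothesis on `g` (see `QC.bridge`). -/
def BrSt (Ω : Matroid E) (R : Submodule k (E → k)) (g : (Fin m → E) → k) : Prop :=
  ∀ (a : Fin m → E) (s1 s2 : Fin m), s1 ≠ s2 → Set.InjOn a {s1, s2}ᶜ →
    Ω.Indep (a '' {s1, s2}ᶜ) → ∀ P : Set E, Cov Ω (Ω.closure (a '' {s1, s2}ᶜ)) P →
    ∀ L ∈ R ⊓ van k (Ω.closure (a '' {s1, s2}ᶜ)),
    ∑ x, ∑ y, (if x ∈ P ∧ y ∉ P then L x * L y *
      g (Function.update (Function.update a s1 x) s2 y) else 0) = 0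

open Classical in
theorem kap (hΩ : Ω.E = Set.univ) (hrk : Ω.eRank = m) (hm2 : 2 ≤ m) {g : (Fin m → E) → k}
    (hbr : BrSt Ω R g)
    (hsupp : ∀ a, g a ≠ 0 → Function.Injective a ∧ Ω.IsBase (Set.range a))
    {gt : ML k E (Fin m)} (hgt : ∀ a : Fin m → E, gt (fun s => Pi.single (a s) 1) = g a)
    {z1 : Finset (PF Ω) → ML k E (Fin m)} (hz1 : Adm (JL Ω (hi m (m - 1))) 1 z1)
    (h1 : gt - bd (rho Ω) z1 ∅ ∈ DG R (hi m (m - 1)))
    (u : {s // s ∉ hi m (m - 2)} → E) (hu : Function.Injective u)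
    (hu2 : Ω.Indep (Set.range u)) (H : PF Ω) (hH : Cov Ω (Ω.closure (Set.range u)) H.1)
    {x : E → k} (hx : x ∈ R ⊓ van k (Ω.closure (Set.range u))) :
    ∑ F ∈ Finset.univ.filter (fun F : PF Ω => Ω.closure (F.1 ∪ Set.range u) = H.1),
      res (hi m (m - 2)) u (z1 {F}) (fun _ => x) = 0 := by
  have hrk' : Ω.eRank = Fintype.card (Fin m) := by rw [Fintype.card_fin, hrk]
  have h12 : (⟨m - 2, by omega⟩ : Fin m) ≠ (⟨m - 1, by omega⟩ : Fin m) := by
    rw [Ne, Fin.ext_iff]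
    show ¬ (m - 2 = m - 1)
    omega
  have hS : hi m (m - 2) = {(⟨m - 2, by omega⟩ : Fin m), (⟨m - 1, by omega⟩ : Fin m)} := by
    ext s
    rw [mem_hi, Finset.mem_insert, Finset.mem_singleton, Fin.ext_iff, Fin.ext_iff]
    have := s.2
    show m - 2 ≤ s.val ↔ s.val = m - 2 ∨ s.val = m - 1
    omega
  have hS2 : hi m (m - 1) = {(⟨m - 1, by omega⟩ : Fin m)} := by
    ext s
    rw [mem_hi, Finset.mem_singleton, Fin.ext_iff]
    have := s.2
    show m - 1 ≤ s.val ↔ s.val = m - 1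
    omega
  have hPne : H.1.Nonempty := by
    rw [Set.nonempty_iff_ne_empty]
    intro h
    have h4 := hH.2.2.2
    rw [h, Matroid.eRk_empty] at h4
    exact absurd h4.symm (by simp)
  obtain ⟨e0, _⟩ := hPne
  let a : Fin m → E := fun s => if h : s ∈ hi m (m - 2) then e0 else u ⟨s, h⟩
  have ha : ∀ t : {s // s ∉ hi m (m - 2)}, a t.1 = u t := by
    intro t
    show (if h : t.1 ∈ hi m (m - 2) then e0 else u ⟨t.1, h⟩) = u t
    rw [dif_neg t.2]
  have hmem : ∀ s : Fin m, s ∉ hi m (m - 2) ↔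
      s ∈ ({(⟨m - 2, by omega⟩ : Fin m), (⟨m - 1, by omega⟩ : Fin m)} : Set (Fin m))ᶜ := by
    intro s
    rw [hS]
    simp
  have himg : a '' ({(⟨m - 2, by omega⟩ : Fin m), (⟨m - 1, by omega⟩ : Fin m)} : Set (Fin m))ᶜ =
      Set.range u := by
    ext e
    constructor
    · rintro ⟨s, hs, rfl⟩
      exact ⟨⟨s, (hmem s).2 hs⟩, (ha ⟨s, (hmem s).2 hs⟩).symm⟩
    · rintro ⟨t, rfl⟩
      exact ⟨t.1, (hmem t.1).1 t.2, ha t⟩
  have hinj : Set.InjOn a
      ({(⟨m - 2, by omega⟩ : Fin m), (⟨m - 1, by omega⟩ : Fin m)} : Set (Fin m))ᶜ := by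
    intro s hs t ht hst
    have h5 := ha ⟨s, (hmem s).2 hs⟩
    have h6 := ha ⟨t, (hmem t).2 ht⟩
    have h7 : u ⟨s, (hmem s).2 hs⟩ = u ⟨t, (hmem t).2 ht⟩ := by
      rw [← h5, ← h6]
      exact hst
    exact congrArg Subtype.val (hu h7)
  have key := Pool.Agent.AX2.yp hΩ hrk' h12 hS hgt hsupp
    (fun F => (hz1.mem {F} F (Finset.mem_singleton_self F)).1) (by rw [← hS2]; exact h1) u hu hu2
    hH hx a ha
  rw [Finset.sum_filter]
  refine key.trans ?_
  exact hbr a _ _ h12 hinj (by rw [himg]; exact hu2) H.1 (by rw [himg]; exact hH) x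
    (by rw [himg]; exact hx)

end Pool.Agent.AX
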