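import Pool.Agent.AX.RowU
import Pool.Agent.AX.Asm

/-!
Rows.
-/

set_option autoImplicit false

namespace Pool.Agent.AX

open Pool.Agent.W3

variable {E : Type*} [Fintype E] [DecidableEq E] {Ω : Matroid E} {k : Type*} [Field k]
  {R : Submodule k (E → k)} {ι : Type*} [Fintype ι] [DecidableEq ι] {S : Finset ι}

theorem row (hΩ : Ω.E = Set.univ) (hrk : Ω.eRank = Fintype.card ι) [Infinite k]
    (hS : 2 ≤ S.card) (hSZ : SZSt Ω R {s // s ∈ S}) {z : Finset (PF Ω) → ML k E ι}
    (hz : Adm (JL Ω S) (S.card - 1) z) (hbd : ∀ c, bd (rho Ω) z c ∈ DG R S) :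
    ∃ w : Finset (PF Ω) → ML k E ι, Adm (JL Ω S) S.card w ∧
      ∀ c, z c - bd (rho Ω) w c ∈ DG R S := by
  have hS1 : S.card - 1 + 1 = S.card := by omega
  have hcard : Fintype.card {s // s ∈ S} = S.card := Fintype.card_coe S
  have hcard2 : Fintype.card {s // s ∈ S} + Fintype.card {s // s ∉ S} = Fintype.card ι := by
    rw [Fintype.card_subtype_compl (fun s => s ∈ S)]
    have := Fintype.card_subtype_le (fun s => s ∈ S)
    omega
  have key := asm (R := R) (S := S) (j := S.card - 1) (by omega) hz ?_
  · rw [hS1] at key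
    exact key
  · intro u
    have hR := rowU (R := R) hΩ hrk hcard2 (by rw [hcard]; exact hS) hSZ u
      (fun c => res S u (z c)) ?_ ?_ ?_
    · rw [hcard] at hR
      exact hR
    · intro c hc
      have hzc : z c ≠ 0 := by
        intro h0
        apply hc
        show res S u (z c) = 0
        rw [h0, map_zero]
      refine ⟨hz.chain c hzc, ?_⟩
      rw [hz.card c hzc, hcard]
      exact hS1
    · intro c F hF
      exact res_jf u (hz.mem c F hF).1
    · intro c
      have h1 := bd_map (rho Ω) ((res S u : ML k E ι →ₗ[k] ML k E {s // s ∈ S}) :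
        ML k E ι →+ ML k E {s // s ∈ S}) z c
      have h2 : bd (rho Ω) (fun c => res S u (z c)) c = res S u (bd (rho Ω) z c) := h1
      rw [h2]
      exact res_dg u (hbd c)

end Pool.Agent.AX
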