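import Pool.Agent.AX.SzTop
import Pool.Agent.AX.Inf4
import Pool.Agent.AX.Desc

/-!
The vanishing of the diagonals of families on flags.

Proofs. Let `n := Fintype.card κ`, `LC := Rel k v ⊓ van k C`.
`sz_all`: induction on `d`.
`d = 0`: `card σ = n`, `∑ i, w i = n` and `1 ≤ w i`, so all `w i = 1`. Choose `e : κ ≃ σ`
(`Fintype.equivOfCardEq`); `ct_equiv e` with `x`, `w` and `sz_top` for `fun i => x (e i)`; `QSt` is
`qst_all hc hv hq n`.
`d + 1`: as `card σ < n` and `∑ i, w i = n` there is `i0` with `2 ≤ w i0`. Fix `x` and put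
`A l u := ct (Z l) (Function.update x i0 u) w`. Apply `desc`:
* `hadd`: `ct_add` for `x`, `i0`, `u`, `u'`, `w`. Its hypothesis: the induction hypothesis for the type
  `Option σ` (`Fintype.card_option`), the letters `o.elim u' (Function.update x i0 u)` which are all in
  `LC`, and `w'`: `1 ≤ w' o` for all `o` (for `some i`, `i ≠ i0`, `w' (some i) = w i ≥ 1`), and
  `∑ o, w' o = w' none + ∑ i, w' (some i) = ∑ i, w i = n` (`Fintype.sum_option`, split off `i0` with
  `Finset.add_sum_erase` or `Fintype.sum_eq_add_sum_compl`..).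
* `hcyc`: for `u ∈ LC` and `A, B, p, s` as in `CycAll`: `f := ∑ H ∈ btw Ω A B, Z (p ++ H :: B :: s)` is in
  `ZD LC κ` by the hypothesis on `Z`, so `ct f (Function.update x i0 u) w = 0` (`ct_diag`), and `ct_sum`.
* `hkill`: `p.length + 2 = n`, `x0 ∈ Rel k v ⊓ van k F`. `hord p F s` (`1 ≤ p.length` as `n ≥ 3`;
  `s.length = 2`): `Z (p ++ s) ∈ OC (Rel k v ⊓ van k F) LC 2`. `ct_order` with `U := {i0}`, `2 ≤ w i0`.
So `A l (x i0) = 0`, and `Function.update x i0 (x i0) = x`.
`sz3`: `sz_all` for `σ := Unit`, `d := n - 1`, `w := fun _ => n`, and `ct_unit`.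
`sz2`: `n = 2`. `sz_top` for the letters `fun _ : κ => x`: `ct_one` gives
`0 = ∑ e : Equiv.Perm κ, Z l (fun _ => x) = 2 * Z l (fun _ => x)` (`Fintype.card_perm`,
`Nat.factorial 2 = 2`).
`sz`: case distinction.
-/

set_option autoImplicit false

namespace Pool.Agent.AX

open Pool.Agent.W3 Pool.Agent.Q2

variable {E : Type*} [Fintype E] {N Ω : Matroid E} {q : ℕ} {k T : Type*} [Field k]
  [AddCommGroup T] [Module k T] {v : E → T} {κ : Type*} [Fintype κ] [DecidableEq κ]

theorem sz_all (hc : Compl N Ω q) (hv : IsRep k N v) (hq : 2 ≤ q) [Infinite k]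
    (h3 : 3 ≤ Fintype.card κ) {C : Set E} (hC : Ω.IsFlat C)
    (hrk : Ω.eRk C + Fintype.card κ = Ω.eRank) (Z : List (Set E) → ML k E κ)
    (hcyc : ∀ x ∈ Rel k v ⊓ van k C, CycAll Ω C Set.univ (fun l => Z l (fun _ => x)))
    (hord : ∀ p F s, IsFl Ω C p F → IsFl Ω F s Set.univ → 1 ≤ p.length → 1 ≤ s.length →
      Z (p ++ s) ∈ OC (Rel k v ⊓ van k F) (Rel k v ⊓ van k C) (Fintype.card κ - p.length))
    (d : ℕ) : ∀ (σ : Type) [Fintype σ] [DecidableEq σ], Fintype.card σ + d = Fintype.card κ →
    ∀ w : σ → ℕ, (∀ i, 1 ≤ w i) → ∑ i, w i = Fintype.card κ →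
    ∀ x : σ → E → k, (∀ i, x i ∈ Rel k v ⊓ van k C) →
    ∀ l, IsFl Ω C l Set.univ → ct (Z l) x w = 0 := by
  induction d with
  | zero =>
    intro σ _ _ hσ w hw hsum x hx l hl
    rw [add_zero] at hσ
    have hw1 : w = fun _ => 1 := by
      funext i
      have h1 : ∑ i, w i = ∑ _i : σ, 1 := by
        rw [hsum, Finset.sum_const, Finset.card_univ, smul_eq_mul, mul_one, hσ]
      have h2 := (Finset.sum_eq_sum_iff_of_le (fun i _ => hw i)).1 h1.symm i (Finset.mem_univ i)
      exact h2.symm
    subst hw1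
    have e : κ ≃ σ := Fintype.equivOfCardEq hσ.symm
    rw [← ct_equiv e (Z l) x (fun _ => 1)]
    exact sz_top hc.ground (by omega) (qst_all hc hv hq _ (by omega)) hC hrk Z hcyc hord l hl
      (fun i => x (e i)) (fun i => hx (e i))
  | succ d ih =>
    intro σ _ _ hσ w hw hsum x hx l hl
    obtain ⟨i0, hi0⟩ : ∃ i0, 2 ≤ w i0 := by
      by_contra hcon
      push Not at hcon
      have h1 : ∑ i, w i ≤ ∑ _i : σ, 1 :=
        Finset.sum_le_sum (fun i _ => by have := hcon i; omega)
      rw [Finset.sum_const, Finset.card_univ, smul_eq_mul, mul_one] at h1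
      omega
    have hupd : ∀ u ∈ Rel k v ⊓ van k C, ∀ i, Function.update x i0 u i ∈ Rel k v ⊓ van k C := by
      intro u hu i
      by_cases hi : i = i0
      · rw [hi, Function.update_self]
        exact hu
      · rw [Function.update_of_ne hi]
        exact hx i
    have key := desc hc hv hq hC h3 hrk (fun l u => ct (Z l) (Function.update x i0 u) w)
      ?_ ?_ ?_ l hl (x i0) (hx i0)
    · simpa only [Function.update_eq_self] using key
    · intro l hl a ha b hb
      refine ct_add (Z l) x i0 a b w (by omega) ?_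
      intro w' h1' h2' h3' h4'
      refine ih (Option σ) (by rw [Fintype.card_option]; omega) w' ?_ ?_ _ ?_ l hl
      · intro o
        cases o with
        | none => exact h1'
        | some i =>
          by_cases hi : i = i0
          · rw [hi]
            exact h2'
          · rw [h3' i hi]
            exact hw i
      · rw [Fintype.sum_option, ← hsum,
          ← Finset.add_sum_erase Finset.univ (fun i => w' (some i)) (Finset.mem_univ i0),
          ← Finset.add_sum_erase Finset.univ w (Finset.mem_univ i0), ← h4', ← add_assoc]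
        congr 1
        exact Finset.sum_congr rfl (fun i hi => h3' i (Finset.ne_of_mem_erase hi))
      · intro o
        cases o with
        | none => exact hb
        | some i => exact hupd a ha i
    · intro u hu A B p s hp hA hB hAB hrk2 hs
      have hZD : ∑ H ∈ btw Ω A B, Z (p ++ H :: B :: s) ∈ ZD (Rel k v ⊓ van k C) κ := by
        intro y hy
        rw [MultilinearMap.sum_apply]
        exact hcyc y hy A B p s hp hA hB hAB hrk2 hs
      have h5 := ct_diag hZD (Function.update x i0 u) (hupd u hu) w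
      rw [ct_sum] at h5
      exact h5
    · intro p F s hp hs hlen u hu
      have hCF : C ⊆ F := hp.subset
      have hsl : s.length = 2 := by
        refine hs.length_eq ?_
        have h6 : Ω.eRk Set.univ = Ω.eRank := by
          rw [← hc.ground, Matroid.eRk_ground]
        rw [h6, ← hrk, hp.rk, ← hlen]
        push_cast
        rw [add_assoc]
      have hOC := hord p F s hp hs (by omega) (by omega)
      refine ct_order hOC {i0} (Function.update x i0 u) ?_ ?_ w ?_
      · intro i hi
        rw [Finset.mem_singleton.1 hi, Function.update_self]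
        exact hu
      · intro i hi
        rw [Function.update_of_ne (fun h => hi (Finset.mem_singleton.2 h))]
        exact hx i
      · rw [Finset.sum_singleton]
        omega

theorem sz3 (hc : Compl N Ω q) (hv : IsRep k N v) (hq : 2 ≤ q) [Infinite k]
    (h3 : 3 ≤ Fintype.card κ) : SZSt Ω (Rel k v) κ := by
  intro C hC hrk Z hcyc hord l hl x hx
  have h1 := sz_all hc hv hq h3 hC hrk Z hcyc hord (Fintype.card κ - 1) Unit
    (by rw [Fintype.card_unit]; omega) (fun _ => Fintype.card κ) (fun _ => by omega)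
    (by simp) (fun _ => x) (fun _ => hx) l hl
  rw [ct_unit] at h1
  exact h1

theorem sz2 (hc : Compl N Ω q) (hv : IsRep k N v) (hq : 2 ≤ q) [Infinite k]
    (h : Fintype.card κ = 2) (h2 : (2 : k) ≠ 0) : SZSt Ω (Rel k v) κ := by
  intro C hC hrk Z hcyc hord l hl x hx
  have h1 := sz_top hc.ground h.ge (qst_all hc hv hq _ (by omega)) hC hrk Z hcyc hord l hl
    (fun _ => x) (fun _ => hx)
  rw [ct_one, Finset.sum_const, Finset.card_univ, Fintype.card_perm, h, Nat.factorial_two,
    nsmul_eq_mul] at h1
  have h3 : ((2 : ℕ) : k) = 2 := by norm_num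
  rw [h3] at h1
  exact (mul_eq_zero.1 h1).resolve_left h2

theorem sz (hc : Compl N Ω q) (hv : IsRep k N v) (hq : 2 ≤ q) [Infinite k]
    (h : 2 ≤ Fintype.card κ) (h2 : (2 : k) ≠ 0) : SZSt Ω (Rel k v) κ := by
  rcases Nat.lt_or_ge 2 (Fintype.card κ) with h3 | h3
  · exact sz3 hc hv hq h3
  · exact sz2 hc hv hq (by omega) h2

end Pool.Agent.AX
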