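import Pool.Agent.AX.Chase
import Pool.Agent.AX.Row
import Pool.Agent.AX.Sz
import Pool.Agent.AX.BaseAlt

/-!
The lifting theorem, alternating version.

Proofs.
* `card_hi`: `(hi m a).card = m - a`. `hi_last`: `hi m (m - 1) = {last}`.
* `rowP_of`: `row` for `S := hi m (m - b - 1)`, `S.card = b + 1`, and `sz3` (`Fintype.card_coe`).
* `tt_of_alt`: let `y s ∈ R`. If `s` is the last slot then `y = dg (hi m (m - 1)) y (y s)`. Otherwise
  swap the slots `s` and `last`: `G (y ∘ swap) = - G y` (build an `AlternatingMap` with the multilinear map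
  `G`, `AlternatingMap.map_swap`).
* `lifting_gen`: `exists_alt_ml` gives `gt`; `base_alt` for the last slot gives `z1`; `chase` with
  `rowP_of` and `hrow1` gives `G`. `tt_of_alt`. At unit vectors of bases `G` and `gt` agree
  (`jf_base` in W3/LiftThm, as in the proof of `lifting`).
* `lifting_alt`: `lifting_gen`, where `hrow1` is `row` for `S := hi m (m - 2)` with two elements, and `sz2`.
  Its hypothesis on the boundary: `bd z1 c = 0` for `c ≠ ∅` (`z1` is supported on sets with one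
  element; compare `bd_adm_one`), and `bd z1 ∅ = gt - (gt - bd z1 ∅)`, `gt ∈ AL k E ∅ ≤ DG R (hi m (m - 2))`
  (`al_le_dg` with the last two slots), `DG R (hi m (m - 1)) ≤ DG R (hi m (m - 2))`. Moreover
  `JL Ω (hi m (m - 1)) F ≤ JL Ω (hi m (m - 2)) F` (`al_anti`).
-/

set_option autoImplicit false

namespace Pool.Agent.AX

open Pool.Agent.W3 Pool.Agent.Q2

variable {E : Type*} [Fintype E] [DecidableEq E] {N Ω : Matroid E} {q : ℕ} {k T : Type*}
  [Field k] [AddCommGroup T] [Module k T] {v : E → T} {m : ℕ}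

theorem card_hi (m a : ℕ) : (hi m a).card = m - a := by
  have h : (hi m a).map Fin.valEmbedding = Finset.Ico a m := by
    ext i
    rw [Finset.mem_map, Finset.mem_Ico]
    constructor
    · rintro ⟨s, hs, rfl⟩
      exact ⟨mem_hi.1 hs, s.2⟩
    · rintro ⟨h1, h2⟩
      exact ⟨⟨i, h2⟩, mem_hi.2 h1, rfl⟩
  rw [← Finset.card_map Fin.valEmbedding, h, Nat.card_Ico]

theorem hi_last (hm : 1 ≤ m) : hi m (m - 1) = {(⟨m - 1, by omega⟩ : Fin m)} := by
  ext s
  rw [mem_hi, Finset.mem_singleton, Fin.ext_iff]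
  have := s.2
  show m - 1 ≤ s.val ↔ s.val = m - 1
  omega

theorem hi_anti {a b : ℕ} (h : a ≤ b) : hi m b ⊆ hi m a := fun s hs => by
  rw [mem_hi] at hs ⊢
  exact h.trans hs

private theorem bd_one {J : PF Ω → Submodule k (ML k E (Fin m))}
    {x : Finset (PF Ω) → ML k E (Fin m)} (hx : Adm J 1 x)
    {c : Finset (PF Ω)} (hc : c ≠ ∅) : bd (rho Ω) x c = 0 := by
  by_contra h
  obtain ⟨F, hF, c', h1, h2⟩ := exists_of_bd_ne h
  have h3 := hx.card c' h1
  have h4 : c' = insert F c := by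
    ext G
    rw [h2, Finset.mem_insert]
  rw [h4, Finset.card_insert_of_notMem hF] at h3
  exact hc (Finset.card_eq_zero.mp (by omega))

theorem rowP_of (hc : Compl N Ω q) (hv : IsRep k N v) (hq : 2 ≤ q) [Infinite k]
    (hrk : Ω.eRank = m) {b : ℕ} (hb : 2 ≤ b) (hbm : b < m) : RowP Ω (Rel k v) m b := by
  intro z hz hbd
  have hcard : (hi m (m - b - 1)).card = b + 1 := by
    rw [card_hi]
    omega
  have hrk' : Ω.eRank = Fintype.card (Fin m) := by rw [Fintype.card_fin, hrk]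
  obtain ⟨w, hw1, hw2⟩ := row (S := hi m (m - b - 1)) hc.ground hrk' (by omega)
    (sz3 hc hv hq (by rw [Fintype.card_coe, hcard]; omega)) (z := z)
    (by rw [hcard]; exact hz) hbd
  rw [hcard] at hw1
  exact ⟨w, hw1, hw2⟩

theorem tt_of_alt (hm : 1 ≤ m) {R : Submodule k (E → k)} {G : ML k E (Fin m)}
    (hG : G ∈ AL k E (∅ : Finset (Fin m))) (hG2 : G ∈ DG R (hi m (m - 1))) :
    G ∈ TT R Finset.univ := by
  intro y s _ hs
  rw [hi_last hm] at hG2
  have key : ∀ y : Fin m → E → k, y ⟨m - 1, by omega⟩ ∈ R → G y = 0 := by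
    intro y hy
    have h1 := hG2 y (y ⟨m - 1, by omega⟩) hy
    have h2 : dg {(⟨m - 1, by omega⟩ : Fin m)} y (y ⟨m - 1, by omega⟩) = y := by
      funext t
      unfold dg
      split_ifs with ht
      · rw [Finset.mem_singleton.1 ht]
      · rfl
    rwa [h2] at h1
  by_cases hne : s = ⟨m - 1, by omega⟩
  · exact key y (by rw [← hne]; exact hs)
  · let A : (E → k) [⋀^Fin m]→ₗ[k] k :=
      { G with
        map_eq_zero_of_eq' := fun v i j h hij =>
          hG v i j (Finset.notMem_empty i) (Finset.notMem_empty j) hij h }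
    have hA : ∀ v, A v = G v := fun v => rfl
    have h1 : A (y ∘ Equiv.swap s ⟨m - 1, by omega⟩) = - A y := A.map_swap y hne
    have h2 : G (y ∘ Equiv.swap s ⟨m - 1, by omega⟩) = 0 := by
      refine key _ ?_
      rw [Function.comp_apply, Equiv.swap_apply_right]
      exact hs
    rw [hA, hA, h2] at h1
    exact neg_eq_zero.1 h1.symm

theorem lifting_gen (hc : Compl N Ω q) (hv : IsRep k N v) (hq : 2 ≤ q) [Infinite k]
    (hm : 1 ≤ m) (hrk : Ω.eRank = m) (g : (Fin m → E) → k)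
    (heq : ∀ (a : Fin m → E) (t t' : Fin m), t ≠ t' → a t = a t' → g a = 0)
    (hswap : ∀ (a : Fin m → E) (t t' : Fin m), t ≠ t' →
      g (fun s => a (Equiv.swap t t' s)) = - g a)
    (hsupp : ∀ a, g a ≠ 0 → Function.Injective a ∧ Ω.IsBase (Set.range a))
    (hLL : ∀ (s : Fin m) (a : Fin m → E), Set.InjOn a {s}ᶜ → Ω.Indep (a '' {s}ᶜ) →
      ∀ L ∈ Rel k v ⊓ van k (Ω.closure (a '' {s}ᶜ)), ∑ e, L e * g (Function.update a s e) = 0)
    (hrow1 : ∀ (gt : ML k E (Fin m)) (z1 : Finset (PF Ω) → ML k E (Fin m)), 2 ≤ m →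
      gt ∈ AL k E (∅ : Finset (Fin m)) → (∀ a : Fin m → E, gt (fun s => Pi.single (a s) 1) = g a) →
      Adm (JL Ω (hi m (m - 1))) 1 z1 →
      gt - bd (rho Ω) z1 ∅ ∈ DG (Rel k v) (hi m (m - 1)) →
      ∃ w : Finset (PF Ω) → ML k E (Fin m), Adm (JL Ω (hi m (m - 2))) 2 w ∧
        ∀ c, z1 c - bd (rho Ω) w c ∈ DG (Rel k v) (hi m (m - 2))) :
    ∃ G : ML k E (Fin m), G ∈ AL k E (∅ : Finset (Fin m)) ∧ G ∈ TT (Rel k v) Finset.univ ∧
      ∀ b : Fin m → E, Function.Injective b → Ω.IsBase (Set.range b) →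
        G (fun s => Pi.single (b s) 1) = g b := by
  have hrk' : Ω.eRank = Fintype.card (Fin m) := by rw [Fintype.card_fin, hrk]
  obtain ⟨gt, hgtA, hgt⟩ := exists_alt_ml g heq hswap
  obtain ⟨z1, hz1, h1⟩ := base_alt hc.ground hrk' g gt hgt hgtA hsupp hLL ⟨m - 1, by omega⟩
  rw [← hi_last hm] at hz1 h1
  obtain ⟨G, hG1, hG2, hG3⟩ := chase hc.ground hm
    (fun b hb hbm => rowP_of hc hv hq hrk hb hbm) hgtA hz1 h1
    (fun h2 => hrow1 gt z1 h2 hgtA hgt hz1 h1)
  refine ⟨G, hG1, tt_of_alt hm hG1 hG2, fun b hb hB => ?_⟩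
  have h3 := jf_base hc.ground hrk' b hb hB hG3
  rw [MultilinearMap.sub_apply, sub_eq_zero] at h3
  rw [h3, hgt]

theorem lifting_alt (hc : Compl N Ω q) (hv : IsRep k N v) (hq : 2 ≤ q) [Infinite k]
    (h2 : (2 : k) ≠ 0) (hm : 1 ≤ m) (hrk : Ω.eRank = m) (g : (Fin m → E) → k)
    (heq : ∀ (a : Fin m → E) (t t' : Fin m), t ≠ t' → a t = a t' → g a = 0)
    (hswap : ∀ (a : Fin m → E) (t t' : Fin m), t ≠ t' →
      g (fun s => a (Equiv.swap t t' s)) = - g a)
    (hsupp : ∀ a, g a ≠ 0 → Function.Injective a ∧ Ω.IsBase (Set.range a))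
    (hLL : ∀ (s : Fin m) (a : Fin m → E), Set.InjOn a {s}ᶜ → Ω.Indep (a '' {s}ᶜ) →
      ∀ L ∈ Rel k v ⊓ van k (Ω.closure (a '' {s}ᶜ)), ∑ e, L e * g (Function.update a s e) = 0) :
    ∃ G : ML k E (Fin m), G ∈ AL k E (∅ : Finset (Fin m)) ∧ G ∈ TT (Rel k v) Finset.univ ∧
      ∀ b : Fin m → E, Function.Injective b → Ω.IsBase (Set.range b) →
        G (fun s => Pi.single (b s) 1) = g b := by
  have hrk' : Ω.eRank = Fintype.card (Fin m) := by rw [Fintype.card_fin, hrk]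
  refine lifting_gen hc hv hq hm hrk g heq hswap hsupp hLL ?_
  intro gt z1 hm2 hgtA _ hz1 h1
  have hcard : (hi m (m - 2)).card = 2 := by
    rw [card_hi]
    omega
  have hle : hi m (m - 1) ⊆ hi m (m - 2) := hi_anti (by omega)
  have hz : Adm (JL Ω (hi m (m - 2))) ((hi m (m - 2)).card - 1) z1 := by
    rw [hcard]
    exact ⟨hz1.chain, hz1.card, fun c F hF => ⟨(hz1.mem c F hF).1, al_anti hle (hz1.mem c F hF).2⟩⟩
  have hbd : ∀ c, bd (rho Ω) z1 c ∈ DG (Rel k v) (hi m (m - 2)) := by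
    intro c
    by_cases hc0 : c = ∅
    · rw [hc0]
      have h3 : bd (rho Ω) z1 ∅ = gt - (gt - bd (rho Ω) z1 ∅) := by abel
      rw [h3]
      refine Submodule.sub_mem _ ?_ (dg_anti hle h1)
      exact al_le_dg (s := (⟨m - 2, by omega⟩ : Fin m)) (s' := (⟨m - 1, by omega⟩ : Fin m))
        (Finset.notMem_empty _) (Finset.notMem_empty _)
        (by
          rw [Ne, Fin.ext_iff]
          show ¬ (m - 2 = m - 1)
          omega)
        (mem_hi.2 (le_refl (m - 2))) (mem_hi.2 (by show m - 2 ≤ m - 1; omega)) hgtA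
    · rw [bd_one hz1 hc0]
      exact Submodule.zero_mem _
  obtain ⟨w, hw1, hw2⟩ := row (S := hi m (m - 2)) hc.ground hrk' (by omega)
    (sz2 hc hv hq (by rw [Fintype.card_coe, hcard]) h2) hz hbd
  rw [hcard] at hw1
  exact ⟨w, hw1, hw2⟩

end Pool.Agent.AX
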