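import Pool.Agent.AX.LiftRep5
import Pool.Agent.Q2.DegOne
import Pool.Agent.WD.Dual

/-!
Quadrics for matroids which are representable, or have a representable dual, over some field.
-/

set_option autoImplicit false

namespace Pool.Agent.AX

open Pool.Agent.H94 Pool.Agent.WD Pool.Agent.Q2

theorem main5 {α : Type*} (K : Type*) [Field K] (M : Matroid α) [M.Finite] [M.RankPos]
    {k W : Type*} [Field k] [AddCommGroup W] [Module k W] (v : α → W)
    (h : (∀ I ⊆ M.E, M.Indep I ↔ LinearIndepOn k v I) ∨
      (∀ I ⊆ M.E, M✶.Indep I ↔ LinearIndepOn k v I)) :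
    toricIdeal K M = Ideal.span {f | f ∈ toricIdeal K M ∧ f.IsHomogeneous 2} := by
  classical
  refine toric_quad M ?_
  rcases h with hv | hv
  · exact toric_of_shareConn M (shareConn_rep5 v hv)
  · exact toric_of_shareConn M (shareConn_of_dual M (shareConn_rep5 v hv))

end Pool.Agent.AX
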