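import Pool.Agent.AX.Defs
import Pool.Agent.Q2.PtsForms
import Pool.Agent.Q2.ThFin
import Pool.Agent.Q2.Sp

/-!
One additive slot, rank three.

Proof of `peel`. Suppose the claim fails. Let `S` be the finset (classical `Finset.univ.filter`) of the
flats `L` with `G ⊆ L`, `Ω.eRk L = Ω.eRk G + 2`, `Cov Ω L F3`, for which there are `P` with `Cov Ω G P`,
`Cov Ω P L` and `x ∈ Rel k v ⊓ van k G` with `A P L x ≠ 0`. It is not empty
(`Ω.eRk L = Ω.eRk P + 1 = Ω.eRk G + 2`). `sp hc hq` (Q2/Sp, `SpSt Ω`) for `G`, `S` gives `L ∈ S` and a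
finset `T` with `T.card ≤ 3` such that no `L' ∈ S`, `L' ≠ L` contains a point `P ∈ btw Ω G L`, `P ∉ T`. We show
that `A P L x = 0` for all `P ∈ btw Ω G L` and `x ∈ Rel k v ⊓ van k G`, a contradiction.
(1) `P ∉ T`. `hc2 P` for `x`: `∑ L' ∈ btw Ω P F3, A P L' x = 0`. For `L' ∈ btw Ω P F3`, `L' ≠ L`: `Cov Ω P L'`,
`Cov Ω L' F3`, `G ⊆ L'`, `Ω.eRk L' = Ω.eRk G + 2`; if `A P L' x` were not zero, `L'` would be in `S`, and
`P ⊆ L'`, impossible. So the sum is `A P L x` (`L ∈ btw Ω P F3`).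
(2) `P ∈ T`. Let `U := ((btw Ω G L) ∩ T).erase P`, at most two elements. By `th_fin` (Q2/ThFin) for
`F0 := G`, `F2 := L`, `P`, `U` write `x = l + g` with `l ∈ Rel k v ⊓ van k P`,
`g ∈ Submodule.span k (KU (Rel k v ⊓ van k G) U)`; `KU R U` is closed under addition and
multiplication by scalars, so (`Submodule.span_induction`) `g ∈ Rel k v ⊓ van k G` and `g` vanishes
on all members of `U`. `A P L x = A P L l + A P L g = A P L g` (`hadd`, `hkill`; `van k P ≤ van k G`). `hc1 L`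
for `g`: `∑ P' ∈ btw Ω G L, A P' L g = 0`, and for `P' ≠ P` in `btw Ω G L`: if `P' ∉ T` then
`A P' L g = 0` by (1), otherwise `P' ∈ U` and `A P' L g = 0` by `hkill`. So `A P L g = 0`.
-/

set_option autoImplicit false

namespace Pool.Agent.AX

open Pool.Agent.W3 Pool.Agent.Q2

variable {E : Type*} [Fintype E] {N Ω : Matroid E} {q : ℕ} {k T : Type*} [Field k]
  [AddCommGroup T] [Module k T] {v : E → T}

theorem peel (hc : Compl N Ω q) (hv : IsRep k N v) (hq : 2 ≤ q) {G F3 : Set E}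
    (hG : Ω.IsFlat G) (hF3 : Ω.IsFlat F3) (hsub : G ⊆ F3) (hrk : Ω.eRk F3 = Ω.eRk G + 3)
    {W : Type*} [AddCommGroup W] (A : Set E → Set E → (E → k) → W)
    (hadd : ∀ P L, Cov Ω G P → Cov Ω P L → Cov Ω L F3 → ∀ x ∈ Rel k v ⊓ van k G,
      ∀ y ∈ Rel k v ⊓ van k G, A P L (x + y) = A P L x + A P L y)
    (hkill : ∀ P L, Cov Ω G P → Cov Ω P L → Cov Ω L F3 → ∀ x ∈ Rel k v ⊓ van k P, A P L x = 0)
    (hc1 : ∀ L, Ω.IsFlat L → G ⊆ L → Ω.eRk L = Ω.eRk G + 2 → Cov Ω L F3 →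
      ∀ x ∈ Rel k v ⊓ van k G, ∑ P ∈ btw Ω G L, A P L x = 0)
    (hc2 : ∀ P, Cov Ω G P → P ⊆ F3 → ∀ x ∈ Rel k v ⊓ van k G,
      ∑ L ∈ btw Ω P F3, A P L x = 0) :
    ∀ P L, Cov Ω G P → Cov Ω P L → Cov Ω L F3 → ∀ x ∈ Rel k v ⊓ van k G, A P L x = 0 := by
  classical
  by_contra hcon
  push Not at hcon
  obtain ⟨P0, L0, hP0, hL0, hLF0, x0, hx0, hne0⟩ := hcon
  have hmb : ∀ {A B C : Set E}, B ∈ btw Ω A C ↔ Cov Ω A B ∧ Cov Ω B C := by
    intro A B C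
    unfold W3.btw
    simp
  obtain ⟨S, hmS⟩ : ∃ S : Finset (Set E), ∀ L, L ∈ S ↔
      (Ω.IsFlat L ∧ G ⊆ L ∧ Ω.eRk L = Ω.eRk G + 2) ∧ Cov Ω L F3 ∧
        ∃ P x, Cov Ω G P ∧ Cov Ω P L ∧ x ∈ Rel k v ⊓ van k G ∧ A P L x ≠ 0 := by
    refine ⟨Finset.univ.filter (fun L => (Ω.IsFlat L ∧ G ⊆ L ∧ Ω.eRk L = Ω.eRk G + 2) ∧
      Cov Ω L F3 ∧ ∃ P x, Cov Ω G P ∧ Cov Ω P L ∧ x ∈ Rel k v ⊓ van k G ∧ A P L x ≠ 0), ?_⟩
    intro L
    rw [Finset.mem_filter]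
    exact ⟨fun h => h.2, fun h => ⟨Finset.mem_univ _, h⟩⟩
  have hSne : S.Nonempty := ⟨L0, (hmS L0).2 ⟨⟨hL0.2.1, hP0.2.2.1.trans hL0.2.2.1,
    by rw [hL0.2.2.2, hP0.2.2.2, add_assoc, one_add_one_eq_two]⟩, hLF0, P0, x0, hP0, hL0, hx0,
    hne0⟩⟩
  obtain ⟨L, hLS, T, hT, hsp⟩ := sp hc hq G hG S hSne (fun L hL => ((hmS L).1 hL).1)
  obtain ⟨⟨hLf, hGL, hrL⟩, hLF, P1, x1, hP1, hPL1, hx1, hne1⟩ := (hmS L).1 hLS
  have h1 : ∀ P, P ∈ btw Ω G L → P ∉ T → ∀ x ∈ Rel k v ⊓ van k G, A P L x = 0 := by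
    intro P hP hPT x hx
    have hP' := hmb.1 hP
    have hs := hc2 P hP'.1 (hP'.2.2.2.1.trans hLF.2.2.1) x hx
    rw [Finset.sum_eq_single L] at hs
    · exact hs
    · intro L' hL' hne
      by_contra h0
      have hL'' := hmb.1 hL'
      refine hsp P hP hPT L' ((hmS L').2 ⟨⟨hL''.1.2.1, hP'.1.2.2.1.trans hL''.1.2.2.1, ?_⟩,
        hL''.2, P, x, hP'.1, hL''.1, hx, h0⟩) hne hL''.1.2.2.1
      rw [hL''.1.2.2.2, hP'.1.2.2.2, add_assoc, one_add_one_eq_two]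
    · intro h
      exact absurd (hmb.2 ⟨hP'.2, hLF⟩) h
  by_cases hPT : P1 ∈ T
  · have hUsub : ((btw Ω G L) ∩ T).erase P1 ⊆ btw Ω G L := fun Q hQ =>
      (Finset.mem_inter.1 (Finset.mem_of_mem_erase hQ)).1
    have hUcard : (((btw Ω G L) ∩ T).erase P1).card ≤ 2 := by
      have h2 : ((btw Ω G L) ∩ T).erase P1 ⊆ T.erase P1 :=
        Finset.erase_subset_erase _ Finset.inter_subset_right
      have h3 := Finset.card_le_card h2
      rw [Finset.card_erase_of_mem hPT] at h3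
      omega
    have hth := th_fin hc hv hq (hmb.2 ⟨hP1, hPL1⟩) hUsub (Finset.notMem_erase _ _) hUcard hx1
    obtain ⟨l, hl, g, hg, hlg⟩ := Submodule.mem_sup.1 hth
    have hg2 : g ∈ Rel k v ⊓ van k G ∧ ∀ Q ∈ ((btw Ω G L) ∩ T).erase P1, g ∈ van k Q := by
      refine Submodule.span_induction (p := fun g _ => g ∈ Rel k v ⊓ van k G ∧
        ∀ Q ∈ ((btw Ω G L) ∩ T).erase P1, g ∈ van k Q) ?_ ?_ ?_ ?_ hg
      · intro y hy
        exact hy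
      · exact ⟨Submodule.zero_mem _, fun Q _ => Submodule.zero_mem _⟩
      · intro y y' _ _ hy hy'
        exact ⟨Submodule.add_mem _ hy.1 hy'.1, fun Q hQ =>
          Submodule.add_mem _ (hy.2 Q hQ) (hy'.2 Q hQ)⟩
      · intro a y _ hy
        exact ⟨Submodule.smul_mem _ _ hy.1, fun Q hQ => Submodule.smul_mem _ _ (hy.2 Q hQ)⟩
    have hlG : l ∈ Rel k v ⊓ van k G := ⟨hl.1, fun e he => hl.2 e (hP1.2.2.1 he)⟩
    have h4 : A P1 L g = 0 := by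
      have hs := hc1 L hLf hGL hrL hLF g hg2.1
      rw [Finset.sum_eq_single P1] at hs
      · exact hs
      · intro P' hP' hne
        by_cases hPT' : P' ∈ T
        · have hP'' := hmb.1 hP'
          exact hkill P' L hP''.1 hP''.2 hLF g ⟨hg2.1.1, hg2.2 P'
            (Finset.mem_erase.2 ⟨hne, Finset.mem_inter.2 ⟨hP', hPT'⟩⟩)⟩
        · exact h1 P' hP' hPT' g hg2.1
      · intro h
        exact absurd (hmb.2 ⟨hP1, hPL1⟩) h
    apply hne1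
    rw [← hlg, hadd P1 L hP1 hPL1 hLF l hlG g hg2.1, hkill P1 L hP1 hPL1 hLF l hl, h4, add_zero]
  · exact hne1 (h1 P1 (hmb.2 ⟨hP1, hPL1⟩) hPT x1 hx1)

end Pool.Agent.AX
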