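import Pool.Agent.AX.Defs
import Pool.Agent.W3.ColDefs

/-!
Restriction of a multilinear function to fixed unit vectors outside `S`.

`res S u f y = f (rarg S u y)`, `rarg S u y s = y s` for `s ∈ S` and `Pi.single (u s) 1` for `s ∉ S`.

Proofs.
* `rarg_const`: clear.
* `nv_rarg`: `nv F (rarg S u y) = nv F y + #{t | u t ∉ F}`: split the slots into `S` and its
  complement; `Pi.single e 1 ∈ van k F` iff `e ∉ F`. (`Finset.card_bij`/`Finset.card_subtype`, or write
  the cards as sums of ones over `ι` and use `Fintype.sum_subtype_add_sum_subtype`-like lemmas.) Then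
  it is the definition of `thr`.
* `res_jf`: let `x ∈ R ⊓ van F`, `x' ∈ R`, `j + thr ≤ card S`, `J` with `j` elements. In `two J x x'` the
  slots outside `J` have the argument `x ∈ van F`, so `nv F (two J x x') ≥ card S - j ≥ thr`, and
  `card ι ≤ rho F + nv F (rarg ..)` by `nv_rarg` and the definition of `thr`. So every term of `cf` is zero.
* `res_dg`: `rarg S u (fun _ => x) = dg S y x` for `y s = Pi.single (u s) 1` outside `S`.
* `res_noninj`: two equal arguments outside `S`.
* `res_perm`: extend `π` to a permutation of the slots which is the identity on `S`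
  (`Equiv.Perm.ofSubtype π`, `Equiv.Perm.sign_ofSubtype`);
  `rarg S (u ∘ π) y = rarg S u y ∘ (extension)`. `al_perm`: for `f ∈ AL k E S` and a permutation `τ` of `ι`
  with `τ s = s` for `s ∈ S`: `f (fun s => y (τ s)) = sign τ • f y`. Prove it first for a transposition of two
  slots outside `S` (`f (.. a + b .. a + b ..) = 0`, as in Mathlib `AlternatingMap.map_swap_add`), then
  write `π` as a product of transpositions (`Equiv.Perm.swap_induction_on` for permutations of the
  subtype; it is simplest to prove `res_perm` directly by this induction). Alternatively: for fixed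
  arguments in the slots of `S` the function of the other arguments is an `AlternatingMap` (build it
  with `MultilinearMap.domDomRestrict`), and use `AlternatingMap.map_perm`.
* `res_expand`: `y s = ∑ e, y s e • Pi.single e 1` in the slots outside `S`; `MultilinearMap.map_sum_finset`
  and `map_smul_univ` (compare `ml_expand` in W3/PtsEmpty), or: apply the expansion `f y = ∑ ..` to the
  multilinear function of the slots outside `S`.
-/

set_option autoImplicit false

namespace Pool.Agent.AX

open Pool.Agent.W3

variable {E : Type*} [Fintype E] [DecidableEq E] {Ω : Matroid E} {k : Type*} [Field k]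
  {R : Submodule k (E → k)} {ι : Type*} [Fintype ι] [DecidableEq ι] {S : Finset ι}

/-- The arguments `y` in the slots of `S`, unit vectors in the others. -/
def rarg (S : Finset ι) (u : {s // s ∉ S} → E) (y : {s // s ∈ S} → E → k) : ι → E → k :=
  fun s => if h : s ∈ S then y ⟨s, h⟩ else Pi.single (u ⟨s, h⟩) 1

/-- Restriction. -/
noncomputable def res (S : Finset ι) (u : {s // s ∉ S} → E) :
    ML k E ι →ₗ[k] ML k E {s // s ∈ S} where
  toFun f := f.domDomRestrict (fun s => s ∈ S) (fun t => Pi.single (u t) 1)
  map_add' := by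
    intro f g
    ext y
    simp [MultilinearMap.domDomRestrict_apply]
  map_smul' := by
    intro c f
    ext y
    simp [MultilinearMap.domDomRestrict_apply]

theorem res_apply (u : {s // s ∉ S} → E) (f : ML k E ι) (y : {s // s ∈ S} → E → k) :
    res S u f y = f (rarg S u y) := rfl

open Classical in
private theorem nv_rarg_eq (u : {s // s ∉ S} → E) (y : {s // s ∈ S} → E → k) (F : Set E) :
    nv F (rarg S u y) = nv F y + (Finset.univ.filter (fun t => u t ∉ F)).card := by
  unfold nv
  rw [Finset.card_filter, Finset.card_filter, Finset.card_filter,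
    ← Fintype.sum_subtype_add_sum_subtype (fun s => s ∈ S)]
  congr 1
  · refine Finset.sum_congr (Finset.ext fun a => by simp) fun t _ => ?_
    have : rarg S u y t.1 = y t := by
      unfold rarg
      rw [dif_pos t.2]
    rw [this]
  · refine Finset.sum_congr (Finset.ext fun a => by simp) fun t _ => ?_
    have h1 : rarg S u y t.1 = Pi.single (u t) 1 := by
      unfold rarg
      rw [dif_neg t.2]
    have h2 : (Pi.single (u t) 1 : E → k) ∈ van k F ↔ u t ∉ F := by
      constructor
      · intro h he
        have h1 : (Pi.single (u t) 1 : E → k) (u t) = 0 := h _ he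
        rw [Pi.single_eq_same] at h1
        exact one_ne_zero h1
      · intro h e' he'
        have : e' ≠ u t := fun h1 => h (by rw [← h1]; exact he')
        rw [Pi.single_eq_of_ne this]
    rw [h1]
    exact if_congr h2 rfl rfl

theorem nv_rarg (u : {s // s ∉ S} → E) (y : {s // s ∈ S} → E → k) (F : PF Ω) :
    thr Ω (Fintype.card ι) u F ≤ nv F.1 y ↔
      Fintype.card ι ≤ rho Ω F + nv F.1 (rarg S u y) := by
  rw [nv_rarg_eq]
  unfold thr
  omega

theorem res_jf (u : {s // s ∉ S} → E) {F : PF Ω} {f : ML k E ι} (hf : f ∈ JF Ω F) :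
    res S u f ∈ OC (R ⊓ van k F.1) R (thr Ω (Fintype.card ι) u F) := by
  classical
  intro x hx x' _ j hj
  unfold cf
  refine Finset.sum_eq_zero fun J hJ => ?_
  have hJc : J.card = j := (Finset.mem_powersetCard.1 hJ).2
  rw [res_apply]
  refine hf _ ((nv_rarg u _ F).1 ?_)
  have h1 : (Finset.univ \ J).card ≤ nv F.1 (two J x x') := by
    unfold nv
    refine Finset.card_le_card fun s hs => ?_
    rw [Finset.mem_filter]
    refine ⟨Finset.mem_univ _, ?_⟩
    have hsJ : s ∉ J := (Finset.mem_sdiff.1 hs).2
    unfold two
    rw [if_neg hsJ]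
    exact hx.2
  have h2 : (Finset.univ \ J).card = Fintype.card {s // s ∈ S} - j := by
    rw [Finset.card_sdiff_of_subset (Finset.subset_univ _), Finset.card_univ, hJc]
  omega

theorem res_dg (u : {s // s ∉ S} → E) {f : ML k E ι} (hf : f ∈ DG R S) :
    res S u f ∈ ZD R {s // s ∈ S} := by
  intro x hx
  rw [res_apply]
  have h : rarg S u (fun _ => x) =
      dg S (fun s => if h : s ∈ S then 0 else Pi.single (u ⟨s, h⟩) 1) x := by
    funext s
    unfold rarg dg
    by_cases h : s ∈ S
    · rw [dif_pos h, if_pos h]
    · rw [dif_neg h, if_neg h]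
      beta_reduce
      rw [dif_neg h]
  rw [h]
  exact hf _ x hx

/-- The alternating function of the arguments outside `S`. -/
private theorem exists_alt {f : ML k E ι} (hf : f ∈ AL k E S) :
    ∃ A : (E → k) [⋀^{s // s ∉ S}]→ₗ[k] ML k E {s // s ∈ S},
      ∀ u : {s // s ∉ S} → E, A (fun t => Pi.single (u t) 1) = res S u f := by
  refine ⟨{ (MultilinearMap.domDomRestrictₗ f (fun s => s ∈ S)) with
    map_eq_zero_of_eq' := ?_ }, fun u => rfl⟩
  intro v i j hij hne
  change f.domDomRestrict (fun s => s ∈ S) v = 0
  refine MultilinearMap.ext fun y => ?_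
  rw [MultilinearMap.domDomRestrict_apply]
  refine hf _ i.1 j.1 i.2 j.2 (fun h => hne (Subtype.ext h)) ?_
  rw [dif_neg i.2, dif_neg j.2]
  exact hij

theorem res_noninj {u : {s // s ∉ S} → E} (hu : ¬ Function.Injective u) {f : ML k E ι}
    (hf : f ∈ AL k E S) : res S u f = 0 := by
  obtain ⟨A, hA⟩ := exists_alt hf
  rw [← hA]
  rw [Function.Injective] at hu
  push Not at hu
  obtain ⟨i, j, hij, hne⟩ := hu
  exact A.map_eq_zero_of_eq _ (by simp only [hij]) hne

theorem res_perm (u : {s // s ∉ S} → E) (π : Equiv.Perm {s // s ∉ S}) {f : ML k E ι}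
    (hf : f ∈ AL k E S) : res S (u ∘ π) f = Equiv.Perm.sign π • res S u f := by
  obtain ⟨A, hA⟩ := exists_alt hf
  rw [← hA, ← hA]
  exact A.map_perm (fun t => Pi.single (u t) 1) π

theorem res_expand (f : ML k E ι) (y : ι → E → k) (x : E → k) :
    f (dg S y x) = ∑ u : {s // s ∉ S} → E, (∏ t : {s // s ∉ S}, y t (u t)) *
      res S u f (fun _ => x) := by
  classical
  have h1 : f (dg S y x) =
      (MultilinearMap.domDomRestrictₗ f (fun s => s ∈ S)) (fun t => y t.1) (fun _ => x) := by
    change f _ = f _
    congr 1
  have h2 : (fun t : {s // s ∉ S} => y t.1) =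
      fun t => ∑ e : E, y t.1 e • (Pi.single e (1 : k) : E → k) := by
    funext t e
    simp [Finset.sum_apply, Pi.single_apply]
  rw [h1, h2, MultilinearMap.map_sum, _root_.sum_apply]
  refine Finset.sum_congr rfl fun u _ => ?_
  rw [MultilinearMap.map_smul_univ, _root_.smul_apply, smul_eq_mul]
  rfl

end Pool.Agent.AX
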