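import Pool.Agent.AX.StarU
import Pool.Agent.W3.Red

/-!
Rows for a fixed word `u : κ' → E`.

Proof (a copy of `colA`, W3/ColA). Apply `col` (W3/Red) with `P := PF Ω`, `ρ := rho Ω` (`rho_strictMono`),
`V := ML k E κ ⧸ ZD R κ`, `J F := (OC (R ⊓ van k F.1) R (thr Ω m u F)).map (ZD R κ).mkQ`, `C` the flat
`Ω.closure (range u)` (`cu_ne_univ`), `j := card κ - 1`, and `z̄ c := mkQ (z c)`.
* `ZD R κ ≤ OC (R ⊓ van k F.1) R θ` (`zd_le_oc`), so `mkQ f ∈ J F` iff `f ∈ OC ..`.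
* `hφ`: `thr_step`: if `thr F = 0` then `J F = ⊥` (`oc_zero`). Otherwise `φ := G`; `F ≤ G`, `C ≤ G`,
  `van k G ≤ van k F`, so `OC (R ⊓ van F) R (thr F) ≤ OC (R ⊓ van G) R (thr G)` (`oc_mono`); a flat containing
  `F` and `C` contains the closure of the union.
* `hstar`: given `z̄'` choose `z' c` with `mkQ (z' c) = z̄' c`; `starU` applies.
* From `w̄` choose `w c` with `mkQ (w c) = w̄ c`, and `w c = 0` if `w̄ c = 0`.
-/

set_option autoImplicit false

namespace Pool.Agent.AX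

open Pool.Agent.W3

variable {E : Type*} [Fintype E] {Ω : Matroid E} {k : Type*} [Field k]
  {R : Submodule k (E → k)} {κ κ' : Type*} [Fintype κ] [DecidableEq κ] [Fintype κ'] {m : ℕ}

private theorem rowU_mem [Infinite k] {u : κ' → E} {F : PF Ω} {f : ML k E κ} :
    (ZD R κ).mkQ f ∈ (OC (R ⊓ van k F.1) R (thr Ω m u F)).map (ZD R κ).mkQ ↔
      f ∈ OC (R ⊓ van k F.1) R (thr Ω m u F) := by
  constructor
  · intro h
    obtain ⟨g, hg, hgf⟩ := Submodule.mem_map.1 h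
    have h1 : f - g ∈ ZD R κ := by
      rw [← Submodule.ker_mkQ (ZD R κ), LinearMap.mem_ker, map_sub, hgf, sub_self]
    have h2 : f = (f - g) + g := by abel
    rw [h2]
    exact add_mem (zd_le_oc inf_le_left le_rfl _ h1) hg
  · intro h
    exact Submodule.mem_map_of_mem h

private theorem rowU_bd (z : Finset (PF Ω) → ML k E κ) (c : Finset (PF Ω)) :
    bd (rho Ω) (fun c => (ZD R κ).mkQ (z c)) c = (ZD R κ).mkQ (bd (rho Ω) z c) :=
  bd_map (rho Ω) ((ZD R κ).mkQ : ML k E κ →+ (ML k E κ ⧸ ZD R κ)) z c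

theorem rowU (hΩ : Ω.E = Set.univ) (hrk : Ω.eRank = m) [Infinite k]
    (hm : Fintype.card κ + Fintype.card κ' = m) (hκ : 2 ≤ Fintype.card κ)
    (hSZ : SZSt Ω R κ) (u : κ' → E) (z : Finset (PF Ω) → ML k E κ)
    (h1 : ∀ c, z c ≠ 0 → IsChain (· ≤ ·) (c : Set (PF Ω)) ∧ c.card + 1 = Fintype.card κ)
    (h2 : ∀ c, ∀ F ∈ c, z c ∈ OC (R ⊓ van k F.1) R (thr Ω m u F))
    (h3 : ∀ c, bd (rho Ω) z c ∈ ZD R κ) : RowSt Ω R m (Fintype.card κ - 1) u z := by
  classical
  obtain ⟨j, hj⟩ : ∃ j, Fintype.card κ = j + 1 := ⟨Fintype.card κ - 1, by omega⟩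
  let C : PF Ω := ⟨Ω.closure (Set.range u), Ω.isFlat_closure _,
    cu_ne_univ hΩ hrk (by omega) u⟩
  have hker : ∀ f : ML k E κ, (ZD R κ).mkQ f = 0 ↔ f ∈ ZD R κ := by
    intro f
    rw [← LinearMap.mem_ker, Submodule.ker_mkQ]
  have hz : Adm (fun F : PF Ω => (OC (R ⊓ van k F.1) R (thr Ω m u F)).map (ZD R κ).mkQ) j
      (fun c => (ZD R κ).mkQ (z c)) := by
    refine ⟨?_, ?_, ?_⟩
    · intro c hc
      have h4 : z c ≠ 0 := fun h => hc (by rw [h, map_zero])
      exact (h1 c h4).1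
    · intro c hc
      have h4 : z c ≠ 0 := fun h => hc (by rw [h, map_zero])
      have := (h1 c h4).2
      omega
    · intro c F hF
      exact Submodule.mem_map_of_mem (h2 c F hF)
  have hcyc : ∀ c, bd (rho Ω) (fun c => (ZD R κ).mkQ (z c)) c = 0 := by
    intro c
    rw [rowU_bd, hker]
    exact h3 c
  have hφ : ∀ F : PF Ω, (OC (R ⊓ van k F.1) R (thr Ω m u F)).map (ZD R κ).mkQ = ⊥ ∨
      ∃ φ : PF Ω, F ≤ φ ∧ C ≤ φ ∧ (OC (R ⊓ van k F.1) R (thr Ω m u F)).map (ZD R κ).mkQ ≤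
        (OC (R ⊓ van k φ.1) R (thr Ω m u φ)).map (ZD R κ).mkQ ∧
        ∀ G, F ≤ G → C ≤ G → φ ≤ G := by
    intro F
    rcases thr_step hΩ hrk u F with h | ⟨G, hG, hle⟩
    · left
      rw [eq_bot_iff]
      rintro x hx
      obtain ⟨f, hf, rfl⟩ := Submodule.mem_map.1 hx
      rw [Submodule.mem_bot, hker]
      rw [h] at hf
      exact oc_zero hf
    · right
      have hsub : F.1 ∪ Set.range u ⊆ G.1 := by
        rw [hG]
        exact Ω.subset_closure _ (by rw [hΩ]; exact Set.subset_univ _)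
      have hFG : F.1 ⊆ G.1 := fun x hx => hsub (Or.inl hx)
      refine ⟨G, hFG, ?_, ?_, ?_⟩
      · change Ω.closure (Set.range u) ⊆ G.1
        rw [← G.2.1.closure]
        exact Ω.closure_subset_closure (fun x hx => hsub (Or.inr hx))
      · refine Submodule.map_mono (oc_mono ?_ le_rfl hle)
        exact inf_le_inf le_rfl (fun x hx e he => hx e (hFG he))
      · intro H hF hC
        change G.1 ⊆ H.1
        rw [hG, ← H.2.1.closure]
        refine Ω.closure_subset_closure ?_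
        rintro x (hx | hx)
        · exact hF hx
        · exact hC (Ω.subset_closure _ (by rw [hΩ]; exact Set.subset_univ _) hx)
  have hstar : ∀ z' : Finset (PF Ω) → (ML k E κ ⧸ ZD R κ),
      Adm (fun F : PF Ω => (OC (R ⊓ van k F.1) R (thr Ω m u F)).map (ZD R κ).mkQ) j z' →
      (∀ c, z' c ≠ 0 → ∀ F ∈ c, C ≤ F) → (∀ c, bd (rho Ω) z' c = 0) →
      ∀ c, C ∉ c → z' c ∈ (OC (R ⊓ van k C.1) R (thr Ω m u C)).map (ZD R κ).mkQ := by
    intro z' hz' hsup hcyc' c hCc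
    have hsurj : ∀ c, ∃ f : ML k E κ, (ZD R κ).mkQ f = z' c :=
      fun c => Submodule.mkQ_surjective _ (z' c)
    choose y hy using hsurj
    have hyz : (fun c => (ZD R κ).mkQ (y c)) = z' := funext hy
    have key := starU (R := R) hΩ hrk hm hκ hSZ u C rfl y ?_ ?_ ?_ c hCc
    · rw [← hy c]
      exact Submodule.mem_map_of_mem key
    · intro c hc
      have h4 : z' c ≠ 0 := by
        rw [← hy c, Ne, hker]; exact hc
      refine ⟨hz'.chain c h4, ?_, hsup c h4⟩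
      have := hz'.card c h4
      omega
    · intro c F hF
      rw [← rowU_mem, hy c]
      exact hz'.mem c F hF
    · intro c
      rw [← hker, ← rowU_bd, hyz]
      exact hcyc' c
  obtain ⟨w, hw, hwz⟩ := col (rho_strictMono hΩ) C hφ hstar hz hcyc
  have hlift : ∀ c, ∃ f : ML k E κ, (ZD R κ).mkQ f = w c ∧ (w c = 0 → f = 0) := by
    intro c
    by_cases h : w c = 0
    · exact ⟨0, by rw [map_zero, h], fun _ => rfl⟩
    · obtain ⟨f, hf⟩ := Submodule.mkQ_surjective _ (w c)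
      exact ⟨f, hf, fun h' => absurd h' h⟩
  choose y hy hy0 using hlift
  have hyw : (fun c => (ZD R κ).mkQ (y c)) = w := funext hy
  refine ⟨y, ?_, ?_, ?_⟩
  · intro c hc
    have h4 : w c ≠ 0 := fun h => hc (hy0 c h)
    refine ⟨hw.chain c h4, ?_⟩
    rw [hw.card c h4, hj]
    omega
  · intro c F hF
    rw [← rowU_mem, hy c]
    exact hw.mem c F hF
  · intro c
    rw [← hker, map_sub, ← rowU_bd, hyw, hwz c, sub_self]

end Pool.Agent.AX
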