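import Pool.Agent.AX.Thr
import Pool.Agent.AX.Inf3
import Pool.Agent.W3.Flag
import Pool.Agent.W3.Cplx
import Pool.Agent.Q2.QTop

/-!
Cycles of top dimension for a fixed word `u : κ' → E`.

Proof of `starU` (compare `star` in W3/Star). Let `n := card κ`, `C ∉ c`. If `u` is not injective or its
range is dependent then `n < thr Ω m u C` (`thr_dep`) and the submodule is `⊤` (`oc_big`). Otherwise
(`thr_indep`) `Ω.eRk C + n = Ω.eRank` and `thr Ω m u C = n`; by `oc_full` we have to show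
`z c (fun _ => x) = 0` for `x ∈ R ⊓ van k C`. We may assume `z c ∉ ZD R κ` (otherwise it is clear). So `c`
is a chain of `n - 1` proper flats which contain `C` properly (`h1`, `C ∉ c`), and by `exists_flag`
(W3/Flag) there is a flag `l` from `C` with `lset Ω l = c`. Apply `hSZ` with `C.1`,
`Z l := z (lset Ω l)`; use `isFlag_iff` (Q2/QTop).
* cycles: let `x ∈ R ⊓ van k C`, `ζ c := z c (fun _ => x)`. `cyc_of_bd` (W3/Flag) gives `Cyc`, and
  `cycAll_of_cyc` (Q2/QTop) gives `CycAll`. Its hypotheses: if `ζ c ≠ 0` then `z c ∉ ZD R κ`, use `h1`;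
  if `C ∈ c` then `z c ∈ OC (R ⊓ van C) R n` by `h2`, so `ζ c = 0` by `oc_full`; the boundary is zero by
  `h3` (`bd_map` with evaluation at `fun _ => x`).
* order: `l = p ++ s`, `IsFl C p F`, `IsFl F s univ`, `1 ≤ p.length`, `1 ≤ s.length`. Then `F ≠ univ`
  (`Ω.eRk F < Ω.eRank`: rank `+ s.length`), and `F` is the last entry of `p`, so it is in
  `lset Ω (p ++ s)`. By `h2`, `Z l ∈ OC (R ⊓ van F) R (thr F)`; `range u ⊆ C ⊆ F`, so
  `thr F = m - rho F = m - (rho C + p.length) = n - p.length` (`thr_ge`, `IsFl.rk`,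
  `rho C = card κ'`). `oc_mono`: `R ⊓ van k C ≤ R`.
-/

set_option autoImplicit false

namespace Pool.Agent.AX

open Pool.Agent.W3 Pool.Agent.Q2

variable {E : Type*} [Fintype E] {Ω : Matroid E} {k : Type*} [Field k]
  {R : Submodule k (E → k)} {κ κ' : Type*} [Fintype κ] [DecidableEq κ] [Fintype κ'] {m : ℕ}

theorem starU (hΩ : Ω.E = Set.univ) (hrk : Ω.eRank = m) [Infinite k]
    (hm : Fintype.card κ + Fintype.card κ' = m) (hκ : 2 ≤ Fintype.card κ)
    (hSZ : SZSt Ω R κ) (u : κ' → E) (C : PF Ω) (hC : C.1 = Ω.closure (Set.range u))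
    (z : Finset (PF Ω) → ML k E κ)
    (h1 : ∀ c, z c ∉ ZD R κ → IsChain (· ≤ ·) (c : Set (PF Ω)) ∧ c.card + 1 = Fintype.card κ ∧
      ∀ F ∈ c, C ≤ F)
    (h2 : ∀ c, ∀ F ∈ c, z c ∈ OC (R ⊓ van k F.1) R (thr Ω m u F))
    (h3 : ∀ c, bd (rho Ω) z c ∈ ZD R κ) :
    ∀ c, C ∉ c → z c ∈ OC (R ⊓ van k C.1) R (thr Ω m u C) := by
  intro c hCc
  by_cases hind : Function.Injective u ∧ Ω.Indep (Set.range u)
  swap
  · rw [oc_big (thr_dep hΩ hrk hm (by omega) u hind C hC)]
    exact Submodule.mem_top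
  obtain ⟨hrC, hthr⟩ := thr_indep hΩ hrk hm u hind C hC
  rw [hthr, oc_full]
  intro x hx
  by_cases hz : z c ∈ ZD R κ
  · exact hz x hx.1
  obtain ⟨hch, hcard, hge⟩ := h1 c hz
  have hlt : ∀ F ∈ c, C.1 ⊂ F.1 := by
    intro F hF
    have h4 : C < F := lt_of_le_of_ne (hge F hF) (fun h => hCc (h ▸ hF))
    exact h4
  obtain ⟨l, hl, hlc⟩ := exists_flag hΩ C.2.1 c hch hlt (by rw [hcard]; exact hrC)
  have hne : Ω.eRk C.1 ≠ ⊤ := by
    intro h
    rw [h, hrk, top_add] at hrC
    exact ENat.natCast_ne_top _ hrC.symm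
  obtain ⟨r, hr⟩ := ENat.ne_top_iff_exists.1 hne
  have hrn : r + Fintype.card κ = m := by
    rw [← hr, hrk] at hrC
    exact_mod_cast hrC
  have key := hSZ C.1 C.2.1 hrC (fun l => z (lset Ω l)) ?_ ?_ l (isFlag_iff.1 hl) x hx
  · have key2 : z (lset Ω l) (fun _ => x) = 0 := key
    rw [hlc] at key2
    exact key2
  · intro x hx
    refine cycAll_of_cyc hrC ?_
    refine cyc_of_bd hΩ C hrC (fun c => z c (fun _ => x)) ?_ ?_ ?_
    · intro c hc
      exact h1 c (fun h => hc (h x hx.1))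
    · intro c hc
      have h5 := h2 c C hc
      rw [hthr, oc_full] at h5
      exact h5 x hx
    · intro c
      have h5 := bd_map (rho Ω) (⟨⟨fun f : ML k E κ => f (fun _ => x), rfl⟩, fun _ _ => rfl⟩ :
        ML k E κ →+ k) z c
      exact h5.trans (h3 c x hx.1)
  · intro p F s hp hs hp1 hs1
    have hpr := hp.rk
    have hsr := hs.rk
    have hFf : Ω.IsFlat F := hp.flat C.2.1
    have hFr : Ω.eRk F = ((r + p.length : ℕ) : ℕ∞) := by
      rw [hpr, ← hr]
      push_cast
      rfl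
    have hFu : F ≠ Set.univ := by
      intro h
      rw [h] at hsr
      have h6 : Ω.eRk Set.univ = Ω.eRank := by
        rw [← hΩ, Matroid.eRk_ground]
      rw [h6, hrk] at hsr
      have h7 : m = m + s.length := by exact_mod_cast hsr
      omega
    have hFm : F ∈ p ++ s := by
      obtain ⟨p', A, hp', -, -⟩ := hp.last (by
        intro h
        rw [h] at hp1
        simp at hp1)
      rw [hp']
      simp
    have h5 := h2 (lset Ω (p ++ s)) ⟨F, hFf, hFu⟩ (mem_lset.2 hFm)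
    have hsub : Set.range u ⊆ F := by
      refine Set.Subset.trans ?_ hp.subset
      rw [hC]
      exact Ω.subset_closure _ (by rw [hΩ]; exact Set.subset_univ _)
    have h6 := thr_ge (Ω := Ω) (m := m) u ⟨F, hFf, hFu⟩ hsub
    have h7 : rho Ω (⟨F, hFf, hFu⟩ : PF Ω) = r + p.length := by
      unfold rho
      rw [hFr]
      rfl
    refine oc_mono le_rfl inf_le_left ?_ h5
    rw [h6, h7]
    omega

end Pool.Agent.AX
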