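import Pool.Agent.AX.Inf2
import Pool.Agent.AX.Inf3
import Pool.Agent.Q2.QAll

/-!
The symmetrised families.

Proof of `sz_top`. Let `Z' l := ∑ e : Equiv.Perm κ, (Z l).domDomCongr e`, so that
`Z' l y = ∑ e, Z l (fun s => y (e s)) = ct (Z l) y (fun _ => 1)` (`ct_one`; check the direction of
`MultilinearMap.domDomCongr_apply`; the sum over all `e` is symmetric anyway). Apply `hQ`
(`QSt Ω R κ (card κ)`) with `G := C`, `D := univ`, `I := Finset.univ`, `y0 := 0`, `Z'`; `InY R C univ 0 y`
says that all `y s` are in `R ⊓ van k C`. `Ω.eRk univ = Ω.eRank`, `univ` is a flat (`Ω.E = univ`).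
* `cyc`: for `A, B, p, s` as in `CycAll` let `f := ∑ H ∈ btw Ω A B, Z (p ++ H :: B :: s)`. By `hcyc`,
  `f ∈ ZD (R ⊓ van k C) κ`, so `ct f y (fun _ => 1) = 0` by `ct_diag`, and by `ct_sum` this is the sum
  in question.
* `top`: `y s ∈ van k univ` means `y s = 0`; in every term of `Z' l y` one argument is zero
  (`MultilinearMap.map_coord_zero` at the slot `e⁻¹ s`).
* `bot`: `IsFl Ω C (H :: l) univ`, `J ⊆ univ`, `card κ ≤ 1 + J.card`, `y s ∈ van k H` for `s ∈ J`. The list `l`
  is not empty (its length is `card κ - 1 ≥ 1`, `IsFl.length_eq`), so `hord [H] H l` says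
  `Z (H :: l) ∈ OC (R ⊓ van k H) (R ⊓ van k C) (card κ - 1)`; use `ct_order` with `U := J` and
  `w := fun _ => 1` (`∑ i ∈ J, 1 = J.card`; `R ⊓ van k H` is the first submodule, and for `i ∈ J`,
  `y i ∈ R ⊓ van k H`).
-/

set_option autoImplicit false

namespace Pool.Agent.AX

open Pool.Agent.W3 Pool.Agent.Q2

variable {E : Type*} [Fintype E] {Ω : Matroid E} {k : Type*} [Field k]
  {R : Submodule k (E → k)} {κ : Type*} [Fintype κ] [DecidableEq κ]

theorem sz_top (hΩ : Ω.E = Set.univ) [Infinite k] (h2 : 2 ≤ Fintype.card κ)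
    (hQ : QSt Ω R κ (Fintype.card κ)) {C : Set E} (hC : Ω.IsFlat C)
    (hrk : Ω.eRk C + Fintype.card κ = Ω.eRank) (Z : List (Set E) → ML k E κ)
    (hcyc : ∀ x ∈ R ⊓ van k C, CycAll Ω C Set.univ (fun l => Z l (fun _ => x)))
    (hord : ∀ p F s, IsFl Ω C p F → IsFl Ω F s Set.univ → 1 ≤ p.length → 1 ≤ s.length →
      Z (p ++ s) ∈ OC (R ⊓ van k F) (R ⊓ van k C) (Fintype.card κ - p.length)) :
    ∀ l, IsFl Ω C l Set.univ → ∀ x : κ → E → k, (∀ i, x i ∈ R ⊓ van k C) →
      ct (Z l) x (fun _ => 1) = 0 := by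
  classical
  have huniv : Ω.IsFlat Set.univ := by rw [← hΩ]; exact Ω.ground_isFlat
  have hru : Ω.eRk Set.univ = Ω.eRk C + ((Fintype.card κ : ℕ) : ℕ∞) := by
    rw [hrk, ← hΩ]; exact Ω.eRk_ground
  set Z' : List (Set E) → ML k E κ := fun l => ∑ e : Equiv.Perm κ, (Z l).domDomCongr e with hZ'
  have hval : ∀ l y, Z' l y = ct (Z l) y (fun _ => 1) := by
    intro l y
    rw [ct_one]
    simp [hZ', MultilinearMap.domDomCongr_apply]
  have hfam : Fam Ω R C Set.univ Finset.univ 0 Z' := by
    refine ⟨?_, ?_, ?_⟩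
    · intro y hy A B p s hp hA hB hAB hr hs
      have hyR : ∀ i, y i ∈ R ⊓ van k C := fun i => hy.2 i (Finset.mem_univ i)
      have hf : (∑ H ∈ btw Ω A B, Z (p ++ H :: B :: s)) ∈ ZD (R ⊓ van k C) κ := by
        intro x hx
        have := hcyc x hx A B p s hp hA hB hAB hr hs
        simpa [sum_apply] using this
      have h0 := ct_diag hf y hyR (fun _ => 1)
      rw [ct_sum] at h0
      simpa [hval] using h0
    · intro l _ y _ ⟨s, _, hs⟩
      have hys : y s = 0 := by
        funext e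
        exact hs e (Set.mem_univ e)
      simp only [hZ', sum_apply, MultilinearMap.domDomCongr_apply]
      refine Finset.sum_eq_zero fun e _ => ?_
      refine (Z l).map_coord_zero (e.symm s) ?_
      simp [hys]
    · intro H l hl y hy ⟨J, _, hJc, hJ⟩
      have hyR : ∀ i, y i ∈ R ⊓ van k C := fun i => hy.2 i (Finset.mem_univ i)
      have hlen : (H :: l).length = Fintype.card κ := IsFl.length_eq hl hru
      have hl1 : 1 ≤ l.length := by
        simp only [List.length_cons] at hlen
        omega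
      have h1 := hord [H] H l ⟨hl.1, rfl⟩ hl.2 (by simp) hl1
      rw [hval]
      refine ct_order (A := R ⊓ van k H) (B := R ⊓ van k C) h1 J y (fun i hi => ⟨(hyR i).1, hJ i hi⟩)
        (fun i _ => hyR i) _ ?_
      have hJc' : Fintype.card κ ≤ 1 + J.card := by simpa using hJc
      simp only [List.length_cons, List.length_nil, Finset.sum_const, smul_eq_mul, mul_one]
      omega
  intro l hl x hx
  rw [← hval]
  exact hQ C Set.univ hC huniv (Set.subset_univ _) hru Finset.univ 0 Z' (by simp) hfam l hl x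
    ⟨fun s hs => absurd (Finset.mem_univ s) hs, fun s _ => hx s⟩

end Pool.Agent.AX
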