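import Pool.Agent.AX.ColTerm

/-!
`wone` is alternating in the slots `≤ a`.

Proof of `wone_al`. Let `y i0 = y j0`, `i0 ≠ j0` slots `≤ a` of `Fin (m + 1)`. For fixed `l`, `a ≤ l`, we show
that `∑ i ≤ a, (-1) ^ (a + i) * (ξ (y i) * h (i.removeNth y)) = 0`, where `h := hl w ρ ξ l ∈ AL k E (hi m a)`
(`hl_al`); `a ≤ m` since `a ≤ l ≤ m`. Let `r : Fin m → E → k`, `r t = y t.succ`, `A` the alternating map with
`A v = h (comb a v r)` (`exists_part`), and `v : Fin (a + 1) → E → k` the first `a + 1` arguments of `y`.
For `i ≤ a`, `i.removeNth y = comb a (i'.removeNth v) r` with `i' : Fin (a + 1)` of the same value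
(slot `t < a`: `y (i.succAbove t)`; slot `t ≥ a`: `i ≤ a ≤ t`, so `y t.succ`). So the sum is, up to the
sign `(-1) ^ a`, the value at `v` of `AlternatingMap.alternatizeUncurryFin (ξ.smulRight A)`
(`alternatizeUncurryFin_apply`; reindex the sum over `i ≤ a` by `Fin (a + 1)`, `Fin.castLE`), and `v` has
two equal arguments (`AlternatingMap.map_eq_zero_of_eq`).
-/

set_option autoImplicit false

namespace Pool.Agent.AX

open Pool.Agent.W3

variable {E : Type*} {k : Type*} [Field k] {m a : ℕ}

theorem wone_al {w : ML k E (Fin (m + 1))} (hw : w ∈ AL k E (hi (m + 1) a)) (ρ : E → k)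
    (ξ : (E → k) →ₗ[k] k) : wone a w ρ ξ ∈ AL k E (hi (m + 1) (a + 1)) := by
  intro y s s' hs hs' hne hy
  have hs1 : s.val ≤ a := by
    by_contra h
    exact hs (mem_hi.2 (by omega))
  have hs2 : s'.val ≤ a := by
    by_contra h
    exact hs' (mem_hi.2 (by omega))
  unfold wone
  rw [_root_.sum_apply]
  refine Finset.sum_eq_zero fun l hl => ?_
  have hl' : a ≤ l.val := (Finset.mem_filter.1 hl).2
  have ham : a ≤ m := by
    have := l.isLt
    omega
  have ham1 : a + 1 ≤ m + 1 := by omega
  obtain ⟨A, hA⟩ := exists_part ham (hl_al hw ρ ξ hl') (fun t => y t.succ)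
  set v : Fin (a + 1) → E → k := fun i => y (Fin.castLE ham1 i) with hv
  have hrem : ∀ i : Fin (a + 1), (Fin.castLE ham1 i).removeNth y =
      comb a (i.removeNth v) (fun t => y t.succ) := by
    intro i
    funext t
    unfold comb
    by_cases ht : t.val < a
    · rw [dif_pos ht]
      show y ((Fin.castLE ham1 i).succAbove t) = y (Fin.castLE ham1 (i.succAbove ⟨t.val, ht⟩))
      congr 1
      apply Fin.ext
      by_cases h : t.val < i.val
      · have h1 : t.castSucc < Fin.castLE ham1 i := by
          rw [Fin.lt_def]; simpa using h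
        have h2 : (⟨t.val, ht⟩ : Fin a).castSucc < i := by
          rw [Fin.lt_def]; simpa using h
        rw [Fin.succAbove_of_castSucc_lt _ _ h1, Fin.val_castLE,
          Fin.succAbove_of_castSucc_lt _ _ h2]
        rfl
      · have h1 : Fin.castLE ham1 i ≤ t.castSucc := by
          rw [Fin.le_def]; simp; omega
        have h2 : i ≤ (⟨t.val, ht⟩ : Fin a).castSucc := by
          rw [Fin.le_def]; simp; omega
        rw [Fin.succAbove_of_le_castSucc _ _ h1, Fin.val_castLE,
          Fin.succAbove_of_le_castSucc _ _ h2]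
        rfl
    · rw [dif_neg ht]
      show y ((Fin.castLE ham1 i).succAbove t) = y t.succ
      congr 1
      apply Fin.succAbove_of_le_castSucc
      rw [Fin.le_def]
      have := i.isLt
      simp
      omega
  have hsum : (∑ i ∈ Finset.univ.filter (fun i : Fin (m + 1) => i.val ≤ a),
      ((-1 : k) ^ (a + i.val)) • tm w ρ ξ i l) y =
      (-1 : k) ^ a * (AlternatingMap.alternatizeUncurryFin (ξ.smulRight A)) v := by
    rw [_root_.sum_apply, AlternatingMap.alternatizeUncurryFin_apply, Finset.mul_sum]
    symm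
    refine Finset.sum_bij (fun i _ => Fin.castLE ham1 i) ?_ ?_ ?_ ?_
    · intro i _
      simp only [Finset.mem_filter, Finset.mem_univ, true_and, Fin.val_castLE]
      have := i.isLt
      omega
    · intro i _ j _ hij
      apply Fin.ext
      have := congrArg Fin.val hij
      simpa using this
    · intro b hb
      have hb' : b.val ≤ a := (Finset.mem_filter.1 hb).2
      refine ⟨⟨b.val, by omega⟩, Finset.mem_univ _, ?_⟩
      apply Fin.ext
      simp
    · intro i _
      rw [_root_.smul_apply, tm_apply, hrem i, ← hA]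
      simp only [LinearMap.smulRight_apply, AlternatingMap.smul_apply, smul_eq_mul,
        Fin.val_castLE, pow_add]
      rw [zsmul_eq_mul]
      push_cast
      ring
  rw [hsum]
  rw [AlternatingMap.map_eq_zero_of_eq _ v (i := ⟨s.val, by omega⟩) (j := ⟨s'.val, by omega⟩),
    mul_zero]
  · show y (Fin.castLE ham1 ⟨s.val, _⟩) = y (Fin.castLE ham1 ⟨s'.val, _⟩)
    have e1 : Fin.castLE ham1 ⟨s.val, by omega⟩ = s := Fin.ext rfl
    have e2 : Fin.castLE ham1 ⟨s'.val, by omega⟩ = s' := Fin.ext rfl
    rw [e1, e2, hy]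
  · intro h
    apply hne
    apply Fin.ext
    simpa using congrArg (fun t : Fin (a + 1) => t.val) h

end Pool.Agent.AX
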